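import Pool.Agent.H65.RI.Emb

set_option autoImplicit false

/-!
Sets spanning few edges induce acyclic graphs.
-/

namespace Pool.Agent.H65.RI

open Finset Classical

theorem acyclic_of_forestOn {W : Type} (H : SimpleGraph W) (X : Set W)
    (h : ForestOn H X) : (H.induce X).IsAcyclic := by
  intro v c hc
  let A : Finset X := c.support.toFinset
  have hvA : v ∈ A := by simp [A]
  have hne : (A.image Subtype.val).Nonempty := ⟨v.1, Finset.mem_image_of_mem _ hvA⟩
  have hsub : (↑(A.image Subtype.val) : Set W) ⊆ X := by
    intro x hx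
    obtain ⟨y, -, rfl⟩ := Finset.mem_image.mp (Finset.mem_coe.mp hx)
    exact y.2
  have h1 := h _ hne hsub
  rw [h58_pairs] at h1
  have h2 : 2 * (A.image Subtype.val).card ≤ ∑ a ∈ A.image Subtype.val,
      ((A.image Subtype.val).filter (fun b => H.Adj a b)).card := by
    rw [mul_comm, ← smul_eq_mul, ← Finset.sum_const]
    apply Finset.sum_le_sum
    intro a ha
    obtain ⟨x, hx, rfl⟩ := Finset.mem_image.mp ha
    have hx' : x ∈ c.support := by simpa [A] using hx
    have h3 := hc.ncard_neighborSet_toSubgraph_eq_two hx'
    obtain ⟨y, z, hyz, hset⟩ := Set.ncard_eq_two.mp h3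
    have hy : c.toSubgraph.Adj x y := by
      have : y ∈ c.toSubgraph.neighborSet x := by rw [hset]; simp
      exact this
    have hz : c.toSubgraph.Adj x z := by
      have : z ∈ c.toSubgraph.neighborSet x := by rw [hset]; simp
      exact this
    have hyA : y ∈ A := by
      have := c.toSubgraph.edge_vert hy.symm
      rw [SimpleGraph.Walk.mem_verts_toSubgraph] at this
      simpa [A] using this
    have hzA : z ∈ A := by
      have := c.toSubgraph.edge_vert hz.symm
      rw [SimpleGraph.Walk.mem_verts_toSubgraph] at this
      simpa [A] using this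
    have hyz' : y.1 ≠ z.1 := fun h => hyz (Subtype.ext h)
    rw [← Finset.card_pair hyz']
    apply Finset.card_le_card
    intro w hw
    rw [Finset.mem_insert, Finset.mem_singleton] at hw
    rcases hw with rfl | rfl
    · exact Finset.mem_filter.mpr ⟨Finset.mem_image_of_mem _ hyA, hy.adj_sub⟩
    · exact Finset.mem_filter.mpr ⟨Finset.mem_image_of_mem _ hzA, hz.adj_sub⟩
  omega

end Pool.Agent.H65.RI
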