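import Pool.Agent.H65.RK.Rch

set_option autoImplicit false

/-!
Module ADD: adding one side.
-/

namespace Pool.Agent.H65.RI

open Finset Classical

/-- Many blocks of the same type, each of whose vertices lies in a class containing a
hyperedge. -/
theorem good_blocks {κ ι : Type} [Fintype κ] {nA nY m : ℕ} (N : ℕ) (hY : 1 ≤ nY)
    (E : ι → Fin nA → Fin m × Fin nY) (hD : Dense E (2 * nY * Fintype.card κ + 1)) (hm1 : 1 ≤ m)
    (hm : 2 * ((N + 1) * (Fintype.card κ) ^ nY) ≤ m) (φ : Fin m × Fin nY → κ) :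
    ∃ (l : Fin N → Fin m) (j : Fin nY → ι) (w : Fin nY → κ), Function.Injective l ∧
      (∀ n a, φ (l n, a) = w a) ∧ ∀ a x, φ (E (j a) x) = w a := by
  have hκ : 1 ≤ Fintype.card κ := Fintype.card_pos_iff.mpr ⟨φ (⟨0, hm1⟩, ⟨0, hY⟩)⟩
  set k := 2 * nY * Fintype.card κ + 1 with hk
  let C : κ → Finset (Fin m × Fin nY) := fun d => univ.filter (fun x => φ x = d)
  let big : κ → Prop := fun d => m * nY ≤ k * (C d).card
  let Bd : Finset (Fin m) := univ.filter (fun l => ∃ a, ¬ big (φ (l, a)))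
  have h1 : Bd.card ≤ (univ.filter (fun x => ¬ big (φ x))).card := by
    have hch : ∀ l ∈ Bd, ∃ a, ¬ big (φ (l, a)) := fun l hl => (Finset.mem_filter.mp hl).2
    let F : Fin m → Fin m × Fin nY := fun l => if h : ∃ a, ¬ big (φ (l, a)) then (l, h.choose)
      else (l, ⟨0, hY⟩)
    apply Finset.card_le_card_of_injOn F
    · intro l hl
      have h := hch l hl
      simp only [F, dif_pos h]
      exact Finset.mem_coe.mpr (Finset.mem_filter.mpr ⟨Finset.mem_univ _, h.choose_spec⟩)
    · intro l hl l' hl' hll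
      have h := hch l hl
      have h' := hch l' hl'
      simp only [F, dif_pos h, dif_pos h'] at hll
      exact congrArg Prod.fst hll
  have h2 : k * (univ.filter (fun x => ¬ big (φ x))).card ≤ Fintype.card κ * (m * nY) := by
    have e1 : (univ.filter (fun x => ¬ big (φ x))).card =
        ∑ d ∈ univ.filter (fun d => ¬ big d), (C d).card := by
      rw [Finset.card_eq_sum_card_fiberwise (f := φ) (t := univ.filter (fun d => ¬ big d))]
      · apply Finset.sum_congr rfl
        intro d hd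
        congr 1
        ext x
        simp only [C, Finset.mem_filter, Finset.mem_univ, true_and]
        constructor
        · rintro ⟨-, h⟩
          exact h
        · intro h
          exact ⟨by rw [h]; exact (Finset.mem_filter.mp hd).2, h⟩
      · intro x hx
        exact Finset.mem_coe.mpr (Finset.mem_filter.mpr
          ⟨Finset.mem_univ _, (Finset.mem_filter.mp (Finset.mem_coe.mp hx)).2⟩)
    rw [e1, Finset.mul_sum]
    calc ∑ d ∈ univ.filter (fun d => ¬ big d), k * (C d).card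
        ≤ ∑ d ∈ univ.filter (fun d => ¬ big d), m * nY := by
          apply Finset.sum_le_sum
          intro d hd
          have := (Finset.mem_filter.mp hd).2
          simp only [big, not_le] at this
          exact this.le
      _ = (univ.filter (fun d => ¬ big d)).card * (m * nY) := by
          rw [Finset.sum_const, smul_eq_mul]
      _ ≤ Fintype.card κ * (m * nY) := Nat.mul_le_mul_right _ (Finset.card_le_univ _)
  have h3 : 2 * Bd.card ≤ m := by
    have h4 : (2 * nY * Fintype.card κ) * Bd.card ≤ Fintype.card κ * (m * nY) := by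
      calc (2 * nY * Fintype.card κ) * Bd.card ≤ k * Bd.card :=
            Nat.mul_le_mul_right _ (by omega)
        _ ≤ k * (univ.filter (fun x => ¬ big (φ x))).card := Nat.mul_le_mul_left _ h1
        _ ≤ _ := h2
    have h5 : (nY * Fintype.card κ) * (2 * Bd.card) ≤ (nY * Fintype.card κ) * m := by
      calc (nY * Fintype.card κ) * (2 * Bd.card) = (2 * nY * Fintype.card κ) * Bd.card := by ring
        _ ≤ Fintype.card κ * (m * nY) := h4
        _ = (nY * Fintype.card κ) * m := by ring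
    exact Nat.le_of_mul_le_mul_left h5 (by positivity)
  let Gd : Finset (Fin m) := univ.filter (fun l => ∀ a, big (φ (l, a)))
  have h4 : Gd.card + Bd.card = m := by
    have : Bd = univ.filter (fun l => ¬ ∀ a, big (φ (l, a))) := by
      ext l
      simp [Bd]
    rw [this]
    have := Finset.card_filter_add_card_filter_not (s := (univ : Finset (Fin m)))
      (p := fun l => ∀ a, big (φ (l, a)))
    rw [Finset.card_univ, Fintype.card_fin] at this
    exact this
  have h5 : (N + 1) * (Fintype.card κ) ^ nY ≤ Gd.card := by omega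
  obtain ⟨w, -, hw⟩ := Finset.exists_le_card_fiber_of_mul_le_card_of_maps_to
    (s := Gd) (t := (univ : Finset (Fin nY → κ))) (f := fun l a => φ (l, a)) (n := N + 1)
    (fun _ _ => Finset.mem_univ _) ⟨fun _ => φ (⟨0, hm1⟩, ⟨0, hY⟩), Finset.mem_univ _⟩ (by
      rw [Finset.card_univ, Fintype.card_fun, Fintype.card_fin]
      calc _ = (N + 1) * (Fintype.card κ) ^ nY := by ring
        _ ≤ _ := h5)
  obtain ⟨l, hl1, hl2⟩ := exists_inj_of_card' _ (N + 1) hw
  have hl3 : ∀ n, l n ∈ Gd ∧ (fun a => φ (l n, a)) = w := fun n => Finset.mem_filter.mp (hl2 n)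
  have hbig : ∀ a, big (w a) := by
    intro a
    have := (Finset.mem_filter.mp (hl3 0).1).2 a
    rwa [← (hl3 0).2]
  have hj : ∀ a, ∃ j, ∀ x, φ (E j x) = w a := by
    intro a
    obtain ⟨j, hj⟩ := hD (C (w a)) (hbig a)
    exact ⟨j, fun x => (Finset.mem_filter.mp (hj x)).2⟩
  choose j hj using hj
  refine ⟨fun n => l n.castSucc, j, w, fun a b hab => Fin.castSucc_injective _ (hl1 hab), ?_, hj⟩
  intro n a
  exact congrFun (hl3 n.castSucc).2 a

theorem add_qs {W V : Type} [Fintype W] [Fintype V] (B : SimpleGraph W) (p τ : ℕ)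
    (hτ : Fintype.card W ≤ τ) (hc : B.Colorable (p + 1)) {nA nY : ℕ} (hA2 : 2 ≤ nA)
    (hAW : Fintype.card W ≤ nA) (hY : 1 ≤ nY) (A : SimpleGraph (Fin nA)) (R K : ℕ)
    (hRich : Rich A R 2 B p τ) (Y : SimpleGraph (Fin nY)) (N : ℕ) (S S' : Set W)
    (hYS : ∀ c : Fin N × Fin nY → Fin N × Fin nY → ℕ, Sm c →
        (∀ a b, (cps N Y).Adj a b → c a b < R) →
        (∃ i, i < R ∧ ∃ f : W → Fin N × Fin nY, Mono (cps N Y) B c i f) ∨
        ∀ i, i < R → ∃ f : W → Fin N × Fin nY, EmbS (cps N Y) B c i S' f)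
    (H : SimpleGraph V) (hH : QS H A R (K * R ^ nY) B p τ S) (Rs : ℕ) (hRs : 2 ≤ Rs) :
    ∃ (m : ℕ) (ι : Type) (_ : Fintype ι) (E : ι → Fin nA → Fin m × Fin nY), 1 ≤ m ∧
      Sparse E Rs ∧ QS (jn H (Sys E A Y)) A R K B p τ (S ∪ S') := by
  obtain ⟨m, ι, _, E, hm, hSp, hD⟩ := hyp nA nY Rs
    (2 * nY * Fintype.card (Fin K × (V → Fin R)) + 1)
    (2 * ((N + 1) * (Fintype.card (Fin K × (V → Fin R))) ^ nY) + 1) hA2 hY (by omega)
  refine ⟨m, ι, inferInstance, E, by omega, hSp, ?_⟩
  intro δ c hcS hcb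
  by_cases hmono : ∃ i, i < R ∧ ∃ f : W → V ⊕ (Fin m × Fin nY),
      Mono (jn H (Sys E A Y)) B c i f
  · exact Or.inl hmono
  right
  -- an injection of `W` into the vertices of `A`
  obtain ⟨ι₀⟩ : Nonempty (W ↪ Fin nA) :=
    Function.Embedding.nonempty_of_card_le (by simpa using hAW)
  have hEinj := sparse_inj hSp (by omega) (by omega : 1 ≤ nA)
  -- classes and blocks
  let φ : Fin m × Fin nY → Fin K × (V → Fin R) := fun z =>
    (δ (Sum.inr z), fun v => ⟨c (Sum.inl v) (Sum.inr z), hcb _ _ trivial⟩)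
  obtain ⟨l, j, w, hl, hw1, hw2⟩ := good_blocks N hY E hD (by omega) (by omega) φ
  have dl : ∀ n a, δ (Sum.inr (l n, a)) = (w a).1 := fun n a => congrArg Prod.fst (hw1 n a)
  have dE : ∀ a x, δ (Sum.inr (E (j a) x)) = (w a).1 := fun a x => congrArg Prod.fst (hw2 a x)
  have cl : ∀ v n a, c (Sum.inl v) (Sum.inr (l n, a)) = ((w a).2 v : ℕ) := fun v n a =>
    congrArg Fin.val (congrFun (congrArg Prod.snd (hw1 n a)) v)
  have cE : ∀ v a x, c (Sum.inl v) (Sum.inr (E (j a) x)) = ((w a).2 v : ℕ) := fun v a x =>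
    congrArg Fin.val (congrFun (congrArg Prod.snd (hw2 a x)) v)
  let δ' : V → Fin (K * R ^ nY) := fun v =>
    finProdFinEquiv (δ (Sum.inl v), finFunctionFinEquiv (fun a => (w a).2 v))
  have hδ' : ∀ v v', δ' v = δ' v' → δ (Sum.inl v) = δ (Sum.inl v') ∧
      ∀ a, (w a).2 v = (w a).2 v' := by
    intro v v' h
    have h1 := finProdFinEquiv.injective h
    refine ⟨congrArg Prod.fst h1, fun a => ?_⟩
    have h2 := finFunctionFinEquiv.injective (congrArg Prod.snd h1)
    exact congrFun h2 a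
  rcases hH δ' (fun a b => c (Sum.inl a) (Sum.inl b)) (fun a b => hcS _ _)
    (fun a b hab => hcb _ _ hab) with ⟨i, hi, f, hf1, hf2⟩ |
      ⟨i, hi, ⟨e, he, heA, heδ, heM⟩, f, ⟨hf1, hf2⟩, hfT⟩
  · exact absurd ⟨i, hi, fun w => Sum.inl (f w), Sum.inl_injective.comp hf1,
      fun u v huv => hf2 u v huv⟩ hmono
  -- colours between the copy of `A` and the new classes
  have c1 : ∀ x a, ((w a).2 (e x) : ℕ) = i := by
    intro x a
    by_contra hne
    obtain ⟨g, hg1, hg2⟩ := heM _ ((w a).2 (e x)).2 hne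
    obtain ⟨F, hF⟩ := mono_of_multi (jn H (Sys E A Y)) B p τ hτ hc c hcS ((w a).2 (e x) : ℕ)
      (fun b t => Sum.inl (e (g b t)))
      (fun b => Sum.inl_injective.comp (he.comp (hg1 b)))
      (fun b b' hbb t t' => ⟨heA _ _ (hg2 b b' hbb t t').1, (hg2 b b' hbb t t').2⟩)
      (fun u => Sum.inr (E (j a) (ι₀ u)))
      (Sum.inr_injective.comp ((hEinj (j a)).comp ι₀.injective))
      (fun u b t => ⟨trivial, by
        rw [hcS, cE, (hδ' _ _ (heδ (g b t) x)).2 a]⟩)
    exact hmono ⟨_, ((w a).2 (e x)).2, F, hF⟩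
  -- the new copies of `A`
  have c2 : ∀ a j', j' < R → j' ≠ i →
      MonoP A p τ (fun x y => c (Sum.inr (E (j a) x)) (Sum.inr (E (j a) y))) j' := by
    intro a j' hj' hne
    by_contra hcon
    rcases hRich (fun x y => c (Sum.inr (E (j a) x)) (Sum.inr (E (j a) y))) (fun _ _ => hcS _ _)
      (fun x y hxy => hcb _ _ (sys_adjA hSp (by omega) (by omega) A Y (j a) hxy)) with
      ⟨i', hi', F, hF1, hF2⟩ | hcard
    · exact hmono ⟨i', hi', fun u => Sum.inr (E (j a) (F u)),
        Sum.inr_injective.comp ((hEinj (j a)).comp hF1), fun u v huv =>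
          ⟨sys_adjA hSp (by omega) (by omega) A Y (j a) (hF2 u v huv).1, (hF2 u v huv).2⟩⟩
    · have hi2 : ¬ MonoP A p τ
          (fun x y => c (Sum.inr (E (j a) x)) (Sum.inr (E (j a) y))) i := by
        rintro ⟨g, hg1, hg2⟩
        obtain ⟨F, hF⟩ := mono_of_multi (jn H (Sys E A Y)) B p τ hτ hc c hcS i
          (fun b t => Sum.inr (E (j a) (g b t)))
          (fun b => Sum.inr_injective.comp ((hEinj (j a)).comp (hg1 b)))
          (fun b b' hbb t t' => ⟨sys_adjA hSp (by omega) (by omega) A Y (j a)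
            (hg2 b b' hbb t t').1, (hg2 b b' hbb t t').2⟩)
          (fun u => Sum.inl (e (ι₀ u))) (Sum.inl_injective.comp (he.comp ι₀.injective))
          (fun u b t => ⟨trivial, by rw [cE, c1]⟩)
        exact hmono ⟨i, hi, F, hF⟩
      have : ({i, j'} : Finset ℕ) ⊆ (range R).filter (fun j'' => ¬ MonoP A p τ
          (fun x y => c (Sum.inr (E (j a) x)) (Sum.inr (E (j a) y))) j'') := by
        intro x hx
        rcases Finset.mem_insert.mp hx with rfl | hx
        · exact Finset.mem_filter.mpr ⟨Finset.mem_range.mpr hi, hi2⟩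
        · rw [Finset.mem_singleton.mp hx]
          exact Finset.mem_filter.mpr ⟨Finset.mem_range.mpr hj', hcon⟩
      have h2 := Finset.card_le_card this
      rw [Finset.card_pair (Ne.symm hne)] at h2
      omega
  -- colours between the embedded part and the new classes
  have c3 : ∀ x ∈ S, ∀ a, ((w a).2 (f x) : ℕ) = i := by
    intro x hx a
    by_contra hne
    obtain ⟨T, hT1, hT2⟩ := hfT x hx
    obtain ⟨g, hg1, hg2⟩ := c2 a _ ((w a).2 (f x)).2 hne
    obtain ⟨F, hF⟩ := mono_of_multi (jn H (Sys E A Y)) B p τ hτ hc c hcS ((w a).2 (f x) : ℕ)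
      (fun b t => Sum.inr (E (j a) (g b t)))
      (fun b => Sum.inr_injective.comp ((hEinj (j a)).comp (hg1 b)))
      (fun b b' hbb t t' => ⟨sys_adjA hSp (by omega) (by omega) A Y (j a)
        (hg2 b b' hbb t t').1, (hg2 b b' hbb t t').2⟩)
      (fun u => Sum.inl (T u)) (Sum.inl_injective.comp hT1)
      (fun u b t => ⟨trivial, by rw [cE, (hδ' _ _ (hT2 u)).2 a]⟩)
    exact hmono ⟨_, ((w a).2 (f x)).2, F, hF⟩
  -- the blocks
  let θ : Fin N × Fin nY → V ⊕ (Fin m × Fin nY) := fun z => Sum.inr (l z.1, z.2)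
  have hθ : Function.Injective θ := by
    intro z z' h
    have h1 := Sum.inr_injective h
    exact Prod.ext (hl (Prod.mk.inj h1).1) (Prod.mk.inj h1).2
  have hθA : ∀ z z', (cps N Y).Adj z z' → (jn H (Sys E A Y)).Adj (θ z) (θ z') := by
    rintro ⟨n, a⟩ ⟨n', a'⟩ ⟨h1, h2⟩
    have h1' : n = n' := h1
    subst h1'
    exact sys_adjY (E := E) A Y (l n) h2
  rcases hYS (fun z z' => c (θ z) (θ z')) (fun _ _ => hcS _ _)
    (fun z z' h => hcb _ _ (hθA z z' h)) with ⟨i', hi', F, hF1, hF2⟩ | hemb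
  · exact absurd ⟨i', hi', fun u => θ (F u), hθ.comp hF1, fun u v huv =>
      ⟨hθA _ _ (hF2 u v huv).1, (hF2 u v huv).2⟩⟩ hmono
  obtain ⟨f', hf'1, hf'2⟩ := hemb i hi
  refine ⟨i, hi, ⟨fun x => Sum.inl (e x), Sum.inl_injective.comp he, fun a b hab => heA a b hab,
    fun a b => (hδ' _ _ (heδ a b)).1, heM⟩, fun x => if x ∈ S then Sum.inl (f x) else θ (f' x),
    ⟨?_, ?_⟩, ?_⟩
  · intro x hx y hy hxy
    by_cases h1 : x ∈ S <;> by_cases h2 : y ∈ S <;> simp only [h1, h2, if_true, if_false] at hxy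
    · exact hf1 h1 h2 (Sum.inl_injective hxy)
    · exact absurd hxy (by simp [θ])
    · exact absurd hxy (by simp [θ])
    · exact hf'1 (hx.resolve_left h1) (hy.resolve_left h2) (hθ hxy)
  · intro x hx y hy hxy
    by_cases h1 : x ∈ S <;> by_cases h2 : y ∈ S <;> simp only [h1, h2, if_true, if_false]
    · exact hf2 x h1 y h2 hxy
    · refine ⟨trivial, ?_⟩
      show c (Sum.inl (f x)) (Sum.inr (l (f' y).1, (f' y).2)) = i
      rw [cl, c3 x h1]
    · refine ⟨trivial, ?_⟩
      show c (Sum.inr (l (f' x).1, (f' x).2)) (Sum.inl (f y)) = i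
      rw [hcS, cl, c3 y h2]
    · have := hf'2 x (hx.resolve_left h1) y (hy.resolve_left h2) hxy
      exact ⟨hθA _ _ this.1, this.2⟩
  · intro x hx
    by_cases h1 : x ∈ S
    · obtain ⟨T, hT1, hT2⟩ := hfT x h1
      refine ⟨fun u => Sum.inl (T u), Sum.inl_injective.comp hT1, fun u => ?_⟩
      simp only [h1, if_true]
      exact (hδ' _ _ (hT2 u)).1
    · refine ⟨fun u => Sum.inr (E (j (f' x).2) (ι₀ u)),
        Sum.inr_injective.comp ((hEinj _).comp ι₀.injective), fun u => ?_⟩
      simp only [h1, if_false]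
      show δ (Sum.inr (E (j (f' x).2) (ι₀ u))) = δ (Sum.inr (l (f' x).1, (f' x).2))
      rw [dE, dl]

end Pool.Agent.H65.RI
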