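import Pool.Agent.H65.RK.Defs
import Pool.Agent.H65.RI.Ind
import Pool.Agent.H65.RI.PrivL
import Pool.Agent.H65.RI.Fin

set_option autoImplicit false

/-!
Colourings in which the copies of `L` lie in small pieces.
-/

namespace Pool.Agent.H65.RI

open Finset Classical

theorem noSep_connected {W : Type} [Fintype W] (K : SimpleGraph W) (hK : NoSep K)
    (h2 : 2 ≤ Fintype.card W) : K.Connected := by
  obtain ⟨v⟩ : Nonempty W := Fintype.card_pos_iff.mp (by omega)
  have key : {w | K.Reachable v w} = Set.univ := by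
    rcases hK {w | K.Reachable v w} {w | ¬ K.Reachable v w} (by
      ext w
      simp [Classical.em]) (fun a b hab => by
        by_cases ha : K.Reachable v a
        · exact Or.inl ⟨ha, ha.trans hab.reachable⟩
        · refine Or.inr ⟨ha, fun hb => ha (hb.trans hab.symm.reachable)⟩) (by
      intro a ha
      exact absurd ha.1 ha.2) with h | h
    · exact h
    · exfalso
      have : v ∈ {w | ¬ K.Reachable v w} := by rw [h]; trivial
      exact this (SimpleGraph.Reachable.refl v)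
  rw [SimpleGraph.connected_iff]
  refine ⟨fun a b => ?_, ⟨v⟩⟩
  have ha : a ∈ {w | K.Reachable v w} := by rw [key]; trivial
  have hb : b ∈ {w | K.Reachable v w} := by rw [key]; trivial
  exact ha.symm.trans hb

/-- The base case. -/
theorem pcx_base {W WL : Type} (B : SimpleGraph W) (L : SimpleGraph WL)
    (hLe : ∃ u v, L.Adj u v) : PCX B 1 B L := by
  refine ⟨fun _ _ => 0, Set.univ, fun _ => 0, id, fun _ _ => rfl, fun _ _ _ => Nat.zero_lt_one,
    ?_, ?_, ?_⟩
  · intro j f hf
    obtain ⟨u, v, huv⟩ := hLe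
    exact ⟨((hf.2 u v huv).2).symm, fun _ => trivial⟩
  · intro x _ y hxy _
    exact ⟨trivial, rfl, hxy⟩
  · intro x _ y _ _ hxy
    exact hxy

/-- A connected monochromatic graph containing `L` is contained in `B`. -/
theorem pcx_sub {V W WL W' : Type} (G : SimpleGraph V) (q : ℕ) (B : SimpleGraph W)
    (L : SimpleGraph WL) (hLe : ∃ u v, L.Adj u v)
    (h : PCX G q B L) (H : SimpleGraph W') (hH : H.Connected) (hLH : Sub L H) :
    ∃ c : V → V → ℕ, Sm c ∧ (∀ a b, G.Adj a b → c a b < q) ∧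
      ∀ (j : ℕ) (F : W' → V), Mono G H c j F → Sub H B := by
  obtain ⟨c, D, κ, φ, hc, hb, h1, h2, h3⟩ := h
  refine ⟨c, hc, hb, fun j F hF => ?_⟩
  obtain ⟨g, hg, hg'⟩ := hLH
  obtain ⟨hj, hD⟩ := h1 j (fun w => F (g w)) ⟨hF.1.comp hg, fun u v huv => hF.2 _ _ (hg' u v huv)⟩
  subst hj
  obtain ⟨w0, -, -⟩ := hLe
  have key : ∀ v, F v ∈ D ∧ κ (F v) = κ (F (g w0)) := by
    intro v
    obtain ⟨p⟩ := hH.preconnected (g w0) v
    have : ∀ {a b : W'} (p : H.Walk a b), F a ∈ D ∧ κ (F a) = κ (F (g w0)) →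
        F b ∈ D ∧ κ (F b) = κ (F (g w0)) := by
      intro a b p
      induction p with
      | nil => exact id
      | cons hadj _ ih =>
        intro ha
        apply ih
        obtain ⟨e1, e2, -⟩ := h2 _ ha.1 _ (hF.2 _ _ hadj).1 (hF.2 _ _ hadj).2
        exact ⟨e1, e2.trans ha.2⟩
    exact this p ⟨hD w0, rfl⟩
  refine ⟨fun v => φ (F v), ?_, ?_⟩
  · intro u v huv
    exact hF.1 (h3 _ (key u).1 _ (key v).1 ((key u).2.trans (key v).2.symm) huv)
  · intro u v huv
    exact (h2 _ (key u).1 _ (hF.2 _ _ huv).1 (hF.2 _ _ huv).2).2.2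

/-- Recolouring the edges over a matching that meets all copies of `L`. -/
theorem pcx_recolour {V W WL : Type} (G : SimpleGraph V) (q : ℕ) (hq : 1 ≤ q)
    (B : SimpleGraph W) (L : SimpleGraph WL) (hLe : ∃ u v, L.Adj u v) (nL : L.Connected)
    (h : PCX G q B L) (M : W → W → Prop) (hM : HitM B L M) :
    ∃ c : V → V → ℕ, Sm c ∧ (∀ a b, G.Adj a b → c a b ≤ q) ∧
      (∀ j, j < q → ∀ f : WL → V, ¬ Mono G L c j f) ∧
      ∀ a b b', G.Adj a b → c a b = q → G.Adj a b' → c a b' = q → b = b' := by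
  obtain ⟨c, D, κ, φ, hc, hb, h1, h2, h3⟩ := h
  obtain ⟨m1, m2, m3⟩ := hM
  let P : V → V → Prop := fun x y => x ∈ D ∧ y ∈ D ∧ κ x = κ y ∧ c x y = 0 ∧ M (φ x) (φ y)
  let c' : V → V → ℕ := fun x y => if P x y then q else c x y
  have hP : ∀ x y, P x y ↔ P y x := by
    intro x y
    constructor
    · rintro ⟨a, b, d, e, f⟩
      exact ⟨b, a, d.symm, by rw [hc]; exact e, m1 _ _ f⟩
    · rintro ⟨a, b, d, e, f⟩
      exact ⟨b, a, d.symm, by rw [hc]; exact e, m1 _ _ f⟩
  refine ⟨c', ?_, ?_, ?_, ?_⟩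
  · intro x y
    simp only [c']
    by_cases h : P x y
    · rw [if_pos h, if_pos ((hP x y).mp h)]
    · rw [if_neg h, if_neg (fun h' => h ((hP x y).mpr h')), hc]
  · intro a b hab
    simp only [c']
    split_ifs
    · exact le_rfl
    · exact (hb a b hab).le
  · intro j hj f hf
    have hf' : Mono G L c j f ∧ ∀ u v, L.Adj u v → ¬ P (f u) (f v) := by
      refine ⟨⟨hf.1, fun u v huv => ⟨(hf.2 u v huv).1, ?_⟩⟩, fun u v huv hPf => ?_⟩
      · have := (hf.2 u v huv).2
        simp only [c'] at this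
        split_ifs at this
        · omega
        · exact this
      · have := (hf.2 u v huv).2
        simp only [c'] at this
        rw [if_pos hPf] at this
        omega
    obtain ⟨hj0, hD⟩ := h1 j f hf'.1
    subst hj0
    obtain ⟨w0, -, -⟩ := hLe
    have hκ : ∀ v, κ (f v) = κ (f w0) := by
      intro v
      refine h36_const L nL (fun v => κ (f v)) (fun u v huv => ?_) v w0
      exact (h2 _ (hD u) _ (hf'.1.2 u v huv).1 (hf'.1.2 u v huv).2).2.1.symm
    obtain ⟨u, v, huv, hMuv⟩ := m3 (fun w => φ (f w)) (fun a b hab =>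
      hf.1 (h3 _ (hD a) _ (hD b) ((hκ a).trans (hκ b).symm) hab)) (fun u v huv =>
        (h2 _ (hD u) _ (hf'.1.2 u v huv).1 (hf'.1.2 u v huv).2).2.2)
    exact hf'.2 u v huv ⟨hD u, hD v, (hκ u).trans (hκ v).symm, (hf'.1.2 u v huv).2, hMuv⟩
  · intro a b b' hab hcab hab' hcab'
    simp only [c'] at hcab hcab'
    have p1 : P a b := by
      by_contra h
      rw [if_neg h] at hcab
      have := hb a b hab
      omega
    have p2 : P a b' := by
      by_contra h
      rw [if_neg h] at hcab'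
      have := hb a b' hab'
      omega
    have e := m2 _ _ _ p1.2.2.2.2 p2.2.2.2.2
    exact h3 _ p1.2.1 _ p2.2.1 (p1.2.2.1.symm.trans p2.2.2.1) e

theorem pcx_comap {V V' W WL : Type} (G : SimpleGraph V) (σ : V' ≃ V) (q : ℕ)
    (B : SimpleGraph W) (L : SimpleGraph WL) (h : PCX G q B L) : PCX (G.comap σ) q B L := by
  obtain ⟨c, D, κ, φ, hc, hb, h1, h2, h3⟩ := h
  refine ⟨fun a b => c (σ a) (σ b), {x | σ x ∈ D}, fun x => κ (σ x), fun x => φ (σ x),
    fun a b => hc _ _, fun a b hab => hb _ _ hab, ?_, ?_, ?_⟩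
  · intro j f hf
    exact h1 j (fun w => σ (f w)) ⟨σ.injective.comp hf.1, fun u v huv => hf.2 u v huv⟩
  · intro x hx y hxy hcxy
    exact h2 _ hx _ hxy hcxy
  · intro x hx y hy h4 h5
    exact σ.injective (h3 _ hx _ hy h4 h5)

/-- Joining a side. -/
theorem pvx_join {W WL VH VZ : Type} (B : SimpleGraph W) (L : SimpleGraph WL) (n0 : NoSep L)
    (neH : Nonempty VH) (neZ : Nonempty VZ) (neW : Nonempty W) (H : SimpleGraph VH)
    (Z : SimpleGraph VZ) (q : ℕ) (hq : 1 ≤ q) (P : Set WL → Prop) (hH : PVX H q B L P) (t : Kind)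
    (cZ : VZ → VZ → ℕ) (hcZ : Sm cZ) (hZb : ∀ a b, Z.Adj a b → cZ a b ≤ q)
    (hZf : ∀ j, j < q → ∀ f : WL → VZ, ¬ Mono Z L cZ j f)
    (hZt : ∀ (S : Set WL) (f : WL → VZ), EmbS Z L cZ q S f → KOn t L S) :
    PVX (jn H Z) q B L (fun S => ∃ S₁ S₂ : Set WL, S = S₁ ∪ S₂ ∧ Disjoint S₁ S₂ ∧ P S₁ ∧
      KOn t L S₂) := by
  obtain ⟨cH, D, κ, φ, hcH, hHb, hH1, hH2, hH3, hHt⟩ := hH
  obtain ⟨v0⟩ := neH
  obtain ⟨z0⟩ := neZ
  obtain ⟨w0⟩ := neW
  let c : VH ⊕ VZ → VH ⊕ VZ → ℕ := fun x y => match x, y with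
    | Sum.inl a, Sum.inl b => cH a b
    | Sum.inr a, Sum.inr b => cZ a b
    | _, _ => q
  refine ⟨c, {x | ∃ a ∈ D, x = Sum.inl a}, fun x => x.elim κ (fun _ => 0),
    fun x => x.elim φ (fun _ => w0), ?_, ?_, ?_, ?_, ?_, ?_⟩
  · rintro (a | a) (b | b)
    · exact hcH a b
    · rfl
    · rfl
    · exact hcZ a b
  · rintro (a | a) (b | b) hab
    · exact hHb a b hab
    · exact le_rfl
    · exact le_rfl
    · exact hZb a b hab
  · rintro j hj f ⟨hf1, hf2⟩
    rcases one_side L n0 f (by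
      intro u v huv
      have := (hf2 u v huv).2
      cases hu : f u <;> cases hv : f v
      · rfl
      · rw [hu, hv] at this
        have h2 : q = j := this
        omega
      · rw [hu, hv] at this
        have h2 : q = j := this
        omega
      · rfl) with ⟨g, hg⟩ | ⟨g, hg⟩
    · have hgM : Mono H L cH j g := by
        refine ⟨fun a b hab => hf1 (by rw [hg, hg, hab]), fun u v huv => ?_⟩
        have := hf2 u v huv
        rw [hg, hg] at this
        exact this
      obtain ⟨e1, e2⟩ := hH1 j hj g hgM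
      exact ⟨e1, fun w => ⟨g w, e2 w, hg w⟩⟩
    · exfalso
      apply hZf j hj g
      refine ⟨fun a b hab => hf1 (by rw [hg, hg, hab]), fun u v huv => ?_⟩
      have := hf2 u v huv
      rw [hg, hg] at this
      exact this
  · rintro x ⟨a, ha, rfl⟩ (b | b) hxy hcxy
    · obtain ⟨e1, e2, e3⟩ := hH2 a ha b hxy hcxy
      exact ⟨⟨b, e1, rfl⟩, e2, e3⟩
    · have h2 : q = 0 := hcxy
      omega
  · rintro x ⟨a, ha, rfl⟩ y ⟨b, hb, rfl⟩ h4 h5
    rw [hH3 a ha b hb h4 h5]
  · rintro S f ⟨hf1, hf2⟩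
    refine ⟨{x | x ∈ S ∧ (f x).isLeft = true}, {x | x ∈ S ∧ ¬ (f x).isLeft = true}, ?_, ?_, ?_, ?_⟩
    · ext x
      constructor
      · intro hx
        by_cases h : (f x).isLeft = true
        · exact Or.inl ⟨hx, h⟩
        · exact Or.inr ⟨hx, h⟩
      · rintro (h | h) <;> exact h.1
    · rw [Set.disjoint_left]
      intro x hx hx'
      exact hx'.2 hx.2
    · apply hHt _ (fun x => (f x).elim id (fun _ => v0))
      have hl : ∀ x, x ∈ S ∧ (f x).isLeft = true →
          f x = Sum.inl ((f x).elim id (fun _ => v0)) := by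
        rintro x ⟨-, hx⟩
        cases h : f x with
        | inl a => rfl
        | inr a => rw [h] at hx; simp at hx
      constructor
      · intro x hx y hy hxy
        apply hf1 hx.1 hy.1
        rw [hl x hx, hl y hy]
        exact congrArg Sum.inl hxy
      · intro u hu v hv huv
        have := hf2 u hu.1 v hv.1 huv
        rw [hl u hu, hl v hv] at this
        exact this
    · apply hZt _ (fun x => (f x).elim (fun _ => z0) id)
      have hl : ∀ x, x ∈ S ∧ ¬ (f x).isLeft = true →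
          f x = Sum.inr ((f x).elim (fun _ => z0) id) := by
        rintro x ⟨-, hx⟩
        cases h : f x with
        | inl a => rw [h] at hx; simp at hx
        | inr a => rfl
      constructor
      · intro x hx y hy hxy
        apply hf1 hx.1 hy.1
        rw [hl x hx, hl y hy]
        exact congrArg Sum.inr hxy
      · intro u hu v hv huv
        have := hf2 u hu.1 v hv.1 huv
        rw [hl u hu, hl v hv] at this
        exact this

end Pool.Agent.H65.RI
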