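import Pool.Agent.H65.RK.Cln
import Pool.Agent.H65.RI.PrivL
import Pool.Agent.H65.RI.Misc
import Pool.Agent.H65.RK.Pcx

set_option autoImplicit false

/-!
Module BAS: the private side.
-/

namespace Pool.Agent.H65.RI

open Finset Classical

theorem base_qs {W WL VG : Type} [Fintype W] [Fintype WL] [Fintype VG] (B : SimpleGraph W)
    (cB : 1 ≤ Fintype.card W) (L : SimpleGraph WL) (n0 : NoSep L) (c0 : 2 ≤ Fintype.card WL)
    (p τ : ℕ) {nA : ℕ}
    (hA2 : 2 ≤ nA) (A : SimpleGraph (Fin nA)) (q : ℕ)
    (hRich : Rich A (q + 1) 2 B p τ) (hgA : Good A q L L) (G : SimpleGraph VG)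
    (hNB : NB G q B 1) (hP : PCX G q B L) (S : Set W) (hS : Deg1On B S) (K : ℕ) :
    ∃ (V : Type) (_ : Fintype V) (H : SimpleGraph V), QS H A (q + 1) K B p τ S ∧
      PVX H q B L (IndepOn L) := by
  obtain ⟨VZ, _, Z, hgZ, hvr⟩ := vr_side L L n0 n0 c0 c0 A q hgA (by simpa using hA2) K
  set N := Fintype.card W * (K ^ Fintype.card VG + 1) with hN
  have hN1 : 1 ≤ N := Nat.mul_pos (by omega) (Nat.succ_pos _)
  refine ⟨VZ ⊕ (Fin N × VG), inferInstance, ds Z (cps N G), ?_, ?_⟩
  · intro δ c hcS hcb
    by_cases hmono : ∃ i, i < q + 1 ∧ ∃ f : W → VZ ⊕ (Fin N × VG),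
        Mono (ds Z (cps N G)) B c i f
    · exact Or.inl hmono
    right
    -- the copy of `A`
    obtain ⟨e, he, heA, heδ⟩ := hvr (fun z => δ (Sum.inl z))
    have hi : ∃ i, i < q + 1 ∧ ∀ j, j < q + 1 → j ≠ i →
        MonoP A p τ (fun a b => c (Sum.inl (e a)) (Sum.inl (e b))) j := by
      rcases hRich (fun a b => c (Sum.inl (e a)) (Sum.inl (e b))) (fun _ _ => hcS _ _)
        (fun a b hab => hcb _ _ (heA a b hab)) with ⟨i, hi, f, hf1, hf2⟩ | hcard
      · exact absurd ⟨i, hi, fun w => Sum.inl (e (f w)),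
          Sum.inl_injective.comp (he.comp hf1), fun u v huv =>
            ⟨heA _ _ (hf2 u v huv).1, (hf2 u v huv).2⟩⟩ hmono
      · by_cases h : ∃ i, i < q + 1 ∧
            ¬ MonoP A p τ (fun a b => c (Sum.inl (e a)) (Sum.inl (e b))) i
        · obtain ⟨i, hi, hin⟩ := h
          refine ⟨i, hi, fun j hj hne => ?_⟩
          by_contra hjn
          have : ({i, j} : Finset ℕ) ⊆ (range (q + 1)).filter (fun j' => ¬ MonoP A p τ
              (fun a b => c (Sum.inl (e a)) (Sum.inl (e b))) j') := by
            intro x hx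
            rcases Finset.mem_insert.mp hx with rfl | hx
            · exact Finset.mem_filter.mpr ⟨Finset.mem_range.mpr hi, hin⟩
            · rw [Finset.mem_singleton.mp hx]
              exact Finset.mem_filter.mpr ⟨Finset.mem_range.mpr hj, hjn⟩
          have h2 := Finset.card_le_card this
          rw [Finset.card_pair (Ne.symm hne)] at h2
          omega
        · push Not at h
          exact ⟨0, by omega, fun j hj _ => h j hj⟩
    obtain ⟨i, hi, hiM⟩ := hi
    refine ⟨i, hi, ⟨fun a => Sum.inl (e a), Sum.inl_injective.comp he, fun a b hab => heA a b hab,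
      heδ, hiM⟩, ?_⟩
    -- copies of `G` of the same type
    obtain ⟨w, -, hw⟩ := Finset.exists_le_card_fiber_of_mul_le_card_of_maps_to
      (s := (univ : Finset (Fin N))) (t := (univ : Finset (VG → Fin K)))
      (f := fun n a => δ (Sum.inr (n, a))) (n := Fintype.card W)
      (fun _ _ => Finset.mem_univ _) ⟨fun a => δ (Sum.inr (⟨0, hN1⟩, a)), Finset.mem_univ _⟩ (by
        rw [Finset.card_univ, Finset.card_univ, Fintype.card_fun, Fintype.card_fin,
          Fintype.card_fin, hN]
        nlinarith)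
    obtain ⟨l, hl1, hl2⟩ := exists_inj_of_card' _ (Fintype.card W) hw
    have hlw : ∀ n a, δ (Sum.inr (l n, a)) = w a := fun n a =>
      congrFun (Finset.mem_filter.mp (hl2 n)).2 a
    -- edges of colour `i`
    have hedge : ∀ n, ∃ a b, G.Adj a b ∧ c (Sum.inr (l n, a)) (Sum.inr (l n, b)) = i := by
      intro n
      apply nb_all_colours B G q hNB (fun a b => c (Sum.inr (l n, a)) (Sum.inr (l n, b)))
        (fun _ _ => hcS _ _) (fun a b hab => Nat.lt_succ_iff.mp (hcb _ _ ⟨rfl, hab⟩)) _ i
        (Nat.lt_succ_iff.mp hi)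
      rintro j hj f ⟨hf1, hf2⟩
      refine hmono ⟨j, Nat.lt_succ_of_le hj, fun u => Sum.inr (l n, f u), ?_, fun u v huv =>
        ⟨⟨rfl, (hf2 u v huv).1⟩, (hf2 u v huv).2⟩⟩
      intro u v huv
      exact hf1 (Prod.mk.inj (Sum.inr_injective huv)).2
    choose a b hab hcab using hedge
    obtain ⟨rep, sd, r1, r2⟩ := match_embed B S hS
    let f : W → VZ ⊕ (Fin N × VG) := fun x =>
      Sum.inr (l (rep x), if sd x then a (rep x) else b (rep x))
    refine ⟨f, ⟨?_, ?_⟩, ?_⟩
    · intro x hx y hy hxy
      have h1 := Prod.mk.inj (Sum.inr_injective hxy)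
      have h2 : rep x = rep y := hl1 h1.1
      apply r1 x hx y hy h2
      have h3 := h1.2
      rw [h2] at h3
      cases hsx : sd x <;> cases hsy : sd y
      · rfl
      · rw [hsx, hsy] at h3
        simp only [if_true, Bool.false_eq_true, if_false] at h3
        exact absurd h3.symm (hab (rep y)).ne
      · rw [hsx, hsy] at h3
        simp only [if_true, Bool.false_eq_true, if_false] at h3
        exact absurd h3 (hab (rep y)).ne
      · rfl
    · intro x hx y hy hxy
      obtain ⟨h2, h3⟩ := r2 x hx y hy hxy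
      show (ds Z (cps N G)).Adj (Sum.inr (l (rep x), if sd x then a (rep x) else b (rep x)))
          (Sum.inr (l (rep y), if sd y then a (rep y) else b (rep y))) ∧
        c (Sum.inr (l (rep x), if sd x then a (rep x) else b (rep x)))
          (Sum.inr (l (rep y), if sd y then a (rep y) else b (rep y))) = i
      rw [h2]
      cases hsx : sd x <;> cases hsy : sd y
      · exact absurd (hsx.trans hsy.symm) h3
      · simp only [if_true, Bool.false_eq_true, if_false]
        exact ⟨⟨rfl, (hab (rep y)).symm⟩, by rw [hcS]; exact hcab (rep y)⟩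
      · simp only [if_true, Bool.false_eq_true, if_false]
        exact ⟨⟨rfl, hab (rep y)⟩, hcab (rep y)⟩
      · exact absurd (hsx.trans hsy.symm) h3
    · intro x _
      refine ⟨fun u => Sum.inr (l (Fintype.equivFin W u),
        if sd x then a (rep x) else b (rep x)), ?_, ?_⟩
      · intro u v huv
        exact (Fintype.equivFin W).injective (hl1 (Prod.mk.inj (Sum.inr_injective huv)).1)
      · intro u
        show δ (Sum.inr (l (Fintype.equivFin W u), if sd x then a (rep x) else b (rep x))) =
          δ (Sum.inr (l (rep x), if sd x then a (rep x) else b (rep x)))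
        rw [hlw, hlw]
  · obtain ⟨w0⟩ : Nonempty W := Fintype.card_pos_iff.mp cB
    have nL := noSep_connected L n0 c0
    obtain ⟨cZ, hcZ, hbZ, hZ0, hZ1⟩ := hgZ
    obtain ⟨c, D, κ, φ, hc, hb, h1, h2, h3⟩ := hP
    let c' : VZ ⊕ (Fin N × VG) → VZ ⊕ (Fin N × VG) → ℕ := fun x y => match x, y with
      | Sum.inl a, Sum.inl b => cZ a b
      | Sum.inr a, Sum.inr b => c a.2 b.2
      | _, _ => 0
    have hb' : ∀ a b, (ds Z (cps N G)).Adj a b → c' a b < q := by
      rintro (a | a) (b | b) hab
      · exact hbZ a b hab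
      · exact hab.elim
      · exact hab.elim
      · exact hb _ _ hab.2
    refine ⟨c', {x | ∃ n, ∃ a ∈ D, x = Sum.inr (n, a)},
      fun x => x.elim (fun _ => 0) (fun y => Nat.pair y.1 (κ y.2)),
      fun x => x.elim (fun _ => w0) (fun y => φ y.2), ?_, fun a b hab => (hb' a b hab).le, ?_, ?_,
      ?_, ?_⟩
    · rintro (a | a) (b | b)
      · exact hcZ a b
      · rfl
      · rfl
      · exact hc _ _
    · rintro j hj f ⟨hf1, hf2⟩
      rcases one_side L n0 f (by
        intro u v huv
        have := (hf2 u v huv).1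
        cases hu : f u <;> cases hv : f v
        · rfl
        · rw [hu, hv] at this
          exact this.elim
        · rw [hu, hv] at this
          exact this.elim
        · rfl) with ⟨g, hg⟩ | ⟨g, hg⟩
      · exfalso
        have hgM : Mono Z L cZ j g := by
          refine ⟨fun a b hab => hf1 (by rw [hg, hg, hab]), fun u v huv => ?_⟩
          have := hf2 u v huv
          rw [hg, hg] at this
          exact this
        by_cases hj0 : j = 0
        · subst hj0
          exact hZ0 g hgM
        · exact hZ1 j (by omega) hj g hgM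
      · have hg2 : ∀ u v, L.Adj u v → (cps N G).Adj (g u) (g v) ∧ c (g u).2 (g v).2 = j := by
          intro u v huv
          have := hf2 u v huv
          rw [hg, hg] at this
          exact this
        have hfst : ∀ u v, (g u).1 = (g v).1 :=
          h36_const L nL (fun u => (g u).1) (fun u v huv => (hg2 u v huv).1.1)
        obtain ⟨e1, e2⟩ := h1 j (fun u => (g u).2) ⟨fun u v huv => hf1 (by
          rw [hg, hg]
          exact congrArg Sum.inr (Prod.ext (hfst u v) huv)), fun u v huv =>
            ⟨(hg2 u v huv).1.2, (hg2 u v huv).2⟩⟩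
        exact ⟨e1, fun w => ⟨(g w).1, (g w).2, e2 w, hg w⟩⟩
    · rintro x ⟨n, a, ha, rfl⟩ (b | ⟨n', b⟩) hxy hcxy
      · exact hxy.elim
      · obtain ⟨e0, e1⟩ := hxy
        have e0' : n = n' := e0
        subst e0'
        obtain ⟨e2, e3, e4⟩ := h2 a ha b e1 hcxy
        refine ⟨⟨n, b, e2, rfl⟩, ?_, e4⟩
        show Nat.pair (n : ℕ) (κ b) = Nat.pair (n : ℕ) (κ a)
        rw [e3]
    · rintro x ⟨n, a, ha, rfl⟩ y ⟨n', b, hb2, rfl⟩ h4 h5
      have h4' : Nat.pair (n : ℕ) (κ a) = Nat.pair (n' : ℕ) (κ b) := h4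
      rw [Nat.pair_eq_pair] at h4'
      have e0 : n = n' := Fin.ext h4'.1
      subst e0
      rw [h3 a ha b hb2 h4'.2 h5]
    · rintro S' f ⟨-, hf⟩ u hu v hv huv
      have e1 := (hf u hu v hv huv).1
      have e2 := (hf u hu v hv huv).2
      have e3 := hb' _ _ e1
      omega

end Pool.Agent.H65.RI
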