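import Pool.Agent.H65.RK.Defs
import Pool.Agent.H65.RI.Blk
import Pool.Agent.H65.RI.Emb

set_option autoImplicit false

/-!
Module BLP: reduction to blocks for `p` classes.
-/

namespace Pool.Agent.H65.RI

open Finset Classical

/-- Partition of a vertex set into `p` forests. -/
def h21_FKon {W : Type} (H : SimpleGraph W) (p : ℕ) (S : Set W) : Prop :=
  ∃ col : W → Fin p, ∀ i, ForestOn H (S ∩ {w | col w = i})

/-- Colourability relative to a vertex set. -/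
def h21_Col {W : Type} (H : SimpleGraph W) (p : ℕ) (S : Set W) : Prop :=
  ∃ col : W → Fin p, ∀ u ∈ S, ∀ v ∈ S, H.Adj u v → col u ≠ col v

/-- Matching the colour of a common vertex by a permutation of the colours. -/
theorem h21_match {W : Type} {p : ℕ} (S₁ S₂ : Set W) (hI : (S₁ ∩ S₂).Subsingleton)
    (c₁ c₂ : W → Fin p) : ∃ σ : Equiv.Perm (Fin p), ∀ v ∈ S₁ ∩ S₂, c₁ v = σ (c₂ v) := by
  by_cases hne : (S₁ ∩ S₂).Nonempty
  · obtain ⟨v, hv⟩ := hne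
    refine ⟨Equiv.swap (c₂ v) (c₁ v), fun w hw => ?_⟩
    rw [hI hw hv, Equiv.swap_apply_left]
  · exact ⟨1, fun v hv => absurd ⟨v, hv⟩ hne⟩

theorem h21_fk_glue {W : Type} (H : SimpleGraph W) (p : ℕ) (S₁ S₂ : Set W)
    (hE : ∀ u ∈ S₁ ∪ S₂, ∀ v ∈ S₁ ∪ S₂, H.Adj u v →
      (u ∈ S₁ ∧ v ∈ S₁) ∨ (u ∈ S₂ ∧ v ∈ S₂)) (hI : (S₁ ∩ S₂).Subsingleton)
    (h1 : h21_FKon H p S₁) (h2 : h21_FKon H p S₂) : h21_FKon H p (S₁ ∪ S₂) := by
  obtain ⟨c₁, hc1⟩ := h1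
  obtain ⟨c₂, hc2⟩ := h2
  obtain ⟨σ, hσ⟩ := h21_match S₁ S₂ hI c₁ c₂
  refine ⟨fun w => if w ∈ S₁ then c₁ w else σ (c₂ w), fun i => ?_⟩
  have e1 : ∀ w ∈ S₁, (if w ∈ S₁ then c₁ w else σ (c₂ w)) = c₁ w := fun w hw => if_pos hw
  have e2 : ∀ w ∈ S₂, (if w ∈ S₁ then c₁ w else σ (c₂ w)) = σ (c₂ w) := by
    intro w hw
    split_ifs with hw1
    · exact hσ w ⟨hw1, hw⟩
    · rfl
  have hX2 : ForestOn H (S₂ ∩ {w | σ (c₂ w) = i}) := by
    have h3 : {w | σ (c₂ w) = i} = {w | c₂ w = σ.symm i} := by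
      ext w
      exact (Equiv.eq_symm_apply σ).symm
    rw [h3]
    exact hc2 _
  have hset : (S₁ ∪ S₂) ∩ {w | (if w ∈ S₁ then c₁ w else σ (c₂ w)) = i} =
      (S₁ ∩ {w | c₁ w = i}) ∪ (S₂ ∩ {w | σ (c₂ w) = i}) := by
    ext x
    constructor
    · rintro ⟨h | h, hx⟩
      · exact Or.inl ⟨h, (e1 x h).symm.trans hx⟩
      · exact Or.inr ⟨h, (e2 x h).symm.trans hx⟩
    · rintro (⟨h, hx⟩ | ⟨h, hx⟩)
      · exact ⟨Or.inl h, (e1 x h).trans hx⟩
      · exact ⟨Or.inr h, (e2 x h).trans hx⟩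
  rw [hset]
  refine h91_forestOn_union H _ _ (hc1 i) hX2 ?_ ?_
  · intro x hx y hy
    exact hI ⟨hx.1.1, hx.2.1⟩ ⟨hy.1.1, hy.2.1⟩
  · intro u hu v hv huv
    rw [← hset] at hu hv
    rcases hE u hu.1 v hv.1 huv with h | h
    · exact Or.inl ⟨⟨h.1, (e1 u h.1).symm.trans hu.2⟩, ⟨h.2, (e1 v h.2).symm.trans hv.2⟩⟩
    · exact Or.inr ⟨⟨h.1, (e2 u h.1).symm.trans hu.2⟩, ⟨h.2, (e2 v h.2).symm.trans hv.2⟩⟩

theorem fk_of_blocks {W : Type} [Fintype W] (H : SimpleGraph W) (p : ℕ) (hp : 1 ≤ p)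
    (h : ∀ S : Set W, 2 ≤ Fintype.card S → NoSep (H.induce S) → FK (H.induce S) p) : FK H p := by
  have key : h21_FKon H p Set.univ := by
    refine h91_glue H (h21_FKon H p) ?_ ?_ ?_ Set.univ
    · intro S hS
      exact ⟨fun _ => ⟨0, hp⟩, fun i =>
        h91_forestOn_subsingleton H _ (hS.anti Set.inter_subset_left)⟩
    · intro S hS hN
      obtain ⟨col, hcol⟩ := h S hS hN
      refine ⟨fun w => if hw : w ∈ S then col ⟨w, hw⟩ else ⟨0, hp⟩, fun i => ?_⟩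
      refine h91_forestOn_mono H _ _ ?_ (h91_forestOn_image H S _ (hcol i))
      rintro x ⟨hx, hx'⟩
      have h3 : (if hw : x ∈ S then col ⟨x, hw⟩ else ⟨0, hp⟩) = i := hx'
      rw [dif_pos hx] at h3
      exact ⟨⟨x, hx⟩, h3, rfl⟩
    · exact h21_fk_glue H p
  obtain ⟨col, hcol⟩ := key
  refine ⟨col, fun i => ?_⟩
  have := hcol i
  rwa [Set.univ_inter] at this

theorem fk_of_sub {W W' : Type} (H : SimpleGraph W) (H' : SimpleGraph W') (p : ℕ)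
    (hs : Sub H' H) (h : FK H p) : FK H' p := by
  obtain ⟨f, hf, hadj⟩ := hs
  obtain ⟨col, hcol⟩ := h
  refine ⟨fun w => col (f w), fun i => ?_⟩
  intro A hA hAX
  have key := hcol i (A.image f) (hA.image f) ?_
  · rw [Finset.card_image_of_injective A hf] at key
    refine le_trans (Nat.add_le_add_right ?_ 2) key
    apply Finset.card_le_card_of_injOn (fun q : W' × W' => (f q.1, f q.2))
    · rintro ⟨a, b⟩ hab
      rw [Finset.mem_coe, Finset.mem_filter, Finset.mem_product] at hab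
      rw [Finset.mem_coe, Finset.mem_filter, Finset.mem_product]
      exact ⟨⟨Finset.mem_image_of_mem f hab.1.1, Finset.mem_image_of_mem f hab.1.2⟩,
        hadj _ _ hab.2⟩
    · rintro ⟨a, b⟩ _ ⟨a', b'⟩ _ hab
      have h1 : f a = f a' := congrArg Prod.fst hab
      have h2 : f b = f b' := congrArg Prod.snd hab
      rw [hf h1, hf h2]
  · intro x hx
    rw [Finset.mem_coe, Finset.mem_image] at hx
    obtain ⟨a, ha, rfl⟩ := hx
    exact hAX ha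

theorem h21_col_glue {W : Type} (H : SimpleGraph W) (p : ℕ) (S₁ S₂ : Set W)
    (hE : ∀ u ∈ S₁ ∪ S₂, ∀ v ∈ S₁ ∪ S₂, H.Adj u v →
      (u ∈ S₁ ∧ v ∈ S₁) ∨ (u ∈ S₂ ∧ v ∈ S₂)) (hI : (S₁ ∩ S₂).Subsingleton)
    (h1 : h21_Col H p S₁) (h2 : h21_Col H p S₂) : h21_Col H p (S₁ ∪ S₂) := by
  obtain ⟨c₁, hc1⟩ := h1
  obtain ⟨c₂, hc2⟩ := h2
  obtain ⟨σ, hσ⟩ := h21_match S₁ S₂ hI c₁ c₂
  refine ⟨fun w => if w ∈ S₁ then c₁ w else σ (c₂ w), ?_⟩
  have e2 : ∀ w ∈ S₂, (if w ∈ S₁ then c₁ w else σ (c₂ w)) = σ (c₂ w) := by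
    intro w hw
    split_ifs with hw1
    · exact hσ w ⟨hw1, hw⟩
    · rfl
  intro u hu v hv huv
  rcases hE u hu v hv huv with h | h
  · simp only [h.1, h.2, if_true]
    exact hc1 u h.1 v h.2 huv
  · simp only [e2 u h.1, e2 v h.2]
    intro heq
    exact hc2 u h.1 v h.2 huv (σ.injective heq)

theorem noncol_block {W : Type} [Fintype W] (H : SimpleGraph W) (p : ℕ) (hp : 1 ≤ p)
    (h : ¬ H.Colorable p) :
    ∃ S : Set W, 2 ≤ Fintype.card S ∧ NoSep (H.induce S) ∧ ¬ (H.induce S).Colorable p := by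
  by_contra hcon
  push Not at hcon
  apply h
  have key : h21_Col H p Set.univ := by
    refine h91_glue H (h21_Col H p) ?_ ?_ ?_ Set.univ
    · intro S hS
      refine ⟨fun _ => ⟨0, hp⟩, fun u hu v hv huv => ?_⟩
      rw [hS hu hv] at huv
      exact absurd huv (H.loopless.irrefl v)
    · intro S hS hN
      obtain ⟨C⟩ := hcon S hS hN
      refine ⟨fun w => if hw : w ∈ S then C ⟨w, hw⟩ else ⟨0, hp⟩, ?_⟩
      intro u hu v hv huv
      simp only [hu, hv, dif_pos]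
      exact C.valid (by exact huv)
    · exact h21_col_glue H p
  obtain ⟨c, hc⟩ := key
  exact ⟨SimpleGraph.Coloring.mk c (fun {u v} huv => hc u trivial v trivial huv)⟩

end Pool.Agent.H65.RI
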