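import Pool.Agent.H65.RK.Kin
import Pool.Agent.H65.RK.Pcx

set_option autoImplicit false

/-!
Module KBL: block graphs for the three kinds.
-/

namespace Pool.Agent.H65.RI

open Finset Classical

/-- Independent sets: one vertex. -/
theorem h86_block_I {W : Type} [Fintype W] (B : SimpleGraph W) (q : ℕ) :
    ∃ (nY : ℕ) (Y : SimpleGraph (Fin nY)) (cY : Fin nY → Fin nY → ℕ) (N : ℕ), 1 ≤ nY ∧ Sm cY ∧
      (∀ a b, Y.Adj a b → cY a b ≤ q) ∧
      (∀ S : Set W, ∀ f : W → Fin nY, ∀ j, EmbS Y B cY j S f → IndepOn B S) ∧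
      ∀ (c : Fin N × Fin nY → Fin N × Fin nY → ℕ), ∀ i, ∀ S : Set W, IndepOn B S →
          ∃ f : W → Fin N × Fin nY, EmbS (cps N Y) B c i S f := by
  refine ⟨1, ⊥, fun _ _ => 0, Fintype.card W, le_rfl, fun _ _ => rfl, fun _ _ _ => Nat.zero_le _,
    ?_, ?_⟩
  · intro S f j hf u hu v hv huv
    exact (hf.2 u hu v hv huv).1
  · intro c i S hS
    refine ⟨fun w => (Fintype.equivFin W w, 0), ?_, ?_⟩
    · intro u _ v _ huv
      exact (Fintype.equivFin W).injective (congrArg Prod.fst huv)
    · intro u hu v hv huv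
      exact absurd huv (hS u hu v hv)

/-- Matchings in copies of a graph in which every copy has an edge of the given colour. -/
theorem h86_deg1 {W V : Type} [Fintype W] (B : SimpleGraph W) (Y : SimpleGraph V)
    (c : Fin (Fintype.card W) × V → Fin (Fintype.card W) × V → ℕ) (hc : Sm c) (i : ℕ)
    (h : ∀ n, ∃ a b, Y.Adj a b ∧ c (n, a) (n, b) = i) (S : Set W) (hS : Deg1On B S) :
    ∃ f : W → Fin (Fintype.card W) × V, EmbS (cps (Fintype.card W) Y) B c i S f := by
  choose a b hab hcab using h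
  let e := Fintype.equivFin W
  let p : W → W := fun w => if h : ∃ v ∈ S, B.Adj w v then h.choose else w
  have hp : ∀ u ∈ S, ∀ v ∈ S, B.Adj u v → p u = v := by
    intro u hu v hv huv
    have h : ∃ v ∈ S, B.Adj u v := ⟨v, hv, huv⟩
    simp only [p]
    rw [dif_pos h]
    exact hS u hu _ h.choose_spec.1 v hv h.choose_spec.2 huv
  have hp' : ∀ u, p u = u ∨ (p u ∈ S ∧ B.Adj u (p u)) := by
    intro u
    by_cases h : ∃ v ∈ S, B.Adj u v
    · right
      simp only [p]
      rw [dif_pos h]
      exact h.choose_spec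
    · left
      simp only [p]
      rw [dif_neg h]
  let k : W → Fin (Fintype.card W) := fun w => min (e w) (e (p w))
  let F : W → Fin (Fintype.card W) × V := fun w =>
    (k w, if e w = k w then a (k w) else b (k w))
  have hk : ∀ w, e w = k w ∨ (e w ≠ k w ∧ e (p w) = k w) := by
    intro w
    by_cases h1 : e w = k w
    · exact Or.inl h1
    · right
      refine ⟨h1, ?_⟩
      rcases min_choice (e w) (e (p w)) with h2 | h2
      · exact absurd h2.symm h1
      · exact h2.symm
  refine ⟨F, ?_, ?_⟩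
  · intro u hu v hv huv
    have h1 : k u = k v := congrArg Prod.fst huv
    have h2 : (if e u = k u then a (k u) else b (k u)) = (if e v = k v then a (k v) else b (k v)) :=
      congrArg Prod.snd huv
    rcases hk u with h3 | ⟨h3, h4⟩
    · rcases hk v with h5 | ⟨h5, h6⟩
      · exact e.injective (h3.trans (h1.trans h5.symm))
      · rw [if_pos h3, if_neg h5, h1] at h2
        exact absurd h2 (hab _).ne
    · rcases hk v with h5 | ⟨h5, h6⟩
      · rw [if_neg h3, if_pos h5, h1] at h2
        exact absurd h2.symm (hab _).ne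
      · have h7 : p u = p v := e.injective (h4.trans (h1.trans h6.symm))
        rcases hp' u with h8 | ⟨h8, h9⟩
        · rw [h8] at h4
          exact absurd h4 h3
        · rcases hp' v with h10 | ⟨h10, h11⟩
          · rw [h10] at h6
            exact absurd h6 h5
          · rw [h7] at h8 h9
            exact hS _ h8 u hu v hv h9.symm h11.symm
  · intro u hu v hv huv
    have hpu := hp u hu v hv huv
    have hpv := hp v hv u hu huv.symm
    have hne : e u ≠ e v := fun h => huv.ne (e.injective h)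
    have hku : k u = min (e u) (e v) := by simp only [k, hpu]
    have hkv : k v = min (e u) (e v) := by simp only [k, hpv, min_comm]
    rcases lt_or_gt_of_ne hne with h | h
    · have e1 : k u = e u := by rw [hku, min_eq_left h.le]
      have e2 : k v = e u := by rw [hkv, min_eq_left h.le]
      have f1 : F u = (e u, a (e u)) := by
        simp only [F]
        rw [if_pos e1.symm, e1]
      have f2 : F v = (e u, b (e u)) := by
        simp only [F]
        rw [if_neg (by rw [e2]; exact hne.symm), e2]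
      rw [f1, f2]
      exact ⟨⟨rfl, hab _⟩, hcab _⟩
    · have e1 : k u = e v := by rw [hku, min_eq_right h.le]
      have e2 : k v = e v := by rw [hkv, min_eq_right h.le]
      have f1 : F u = (e v, b (e v)) := by
        simp only [F]
        rw [if_neg (by rw [e1]; exact hne), e1]
      have f2 : F v = (e v, a (e v)) := by
        simp only [F]
        rw [if_pos e2.symm, e2]
      rw [f1, f2, hc]
      exact ⟨⟨rfl, (hab _).symm⟩, hcab _⟩

/-- Colour `q` of a system of copies of a graph in which this colour is a matching. -/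
theorem h86_forest {W ι : Type} [Fintype W] (B : SimpleGraph W) {n m R : ℕ} (hn : 2 ≤ n)
    (E : ι → Fin n → Fin m × Fin 1) (hS : Sparse E R) (hR : (Fintype.card W) ^ 2 ≤ R)
    (hR2 : 2 ≤ R)
    (Y : SimpleGraph (Fin n)) (cY : Fin n → Fin n → ℕ) (q : ℕ)
    (y4 : ∀ a b b', Y.Adj a b → cY a b = q → Y.Adj a b' → cY a b' = q → b = b')
    (cX : Fin m × Fin 1 → Fin m × Fin 1 → ℕ)
    (hcX : ∀ j a b, Y.Adj a b → cX (E j a) (E j b) = cY a b) (S : Set W) (f : W → Fin m × Fin 1)
    (hf : EmbS (Sys E Y ⊥) B cX q S f) : ForestOn B S := by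
  intro A hA hAS
  set P := (A ×ˢ A).filter (fun p => B.Adj p.1 p.2) with hP
  have hPm : ∀ p, p ∈ P ↔ (p.1 ∈ A ∧ p.2 ∈ A) ∧ B.Adj p.1 p.2 := by
    intro p
    rw [hP, Finset.mem_filter, Finset.mem_product]
  have hA1 : 1 ≤ A.card := hA.card_pos
  rcases P.eq_empty_or_nonempty with h0 | hne
  · rw [h0, Finset.card_empty]
    omega
  obtain ⟨p0, hp0⟩ := hne
  have inj := sparse_inj hS (by omega) (by omega)
  -- every pair lies on a hyperedge
  have hex : ∀ p ∈ P, ∃ j a b, Y.Adj a b ∧ cY a b = q ∧ E j a = f p.1 ∧ E j b = f p.2 := by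
    intro p hp
    obtain ⟨⟨h1, h2⟩, h3⟩ := (hPm p).mp hp
    obtain ⟨h4, h5⟩ := hf.2 p.1 (hAS h1) p.2 (hAS h2) h3
    rcases h4.2 with ⟨j, a, b, hab, e1, e2⟩ | ⟨l, a, b, hab, -, -⟩
    · refine ⟨j, a, b, hab, ?_, e1, e2⟩
      rw [← hcX j a b hab, e1, e2]
      exact h5
    · exact absurd hab (by simp)
  obtain ⟨j0, -⟩ := hex p0 hp0
  let jj : W × W → ι := fun p => if h : ∃ j a b, Y.Adj a b ∧ cY a b = q ∧ E j a = f p.1 ∧
    E j b = f p.2 then h.choose else j0
  have hjj : ∀ p ∈ P, ∃ a b, Y.Adj a b ∧ cY a b = q ∧ E (jj p) a = f p.1 ∧ E (jj p) b = f p.2 := by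
    intro p hp
    have h := hex p hp
    simp only [jj]
    rw [dif_pos h]
    exact h.choose_spec
  set J := P.image jj with hJ
  have hJ1 : 1 ≤ J.card := Finset.card_pos.mpr ⟨_, Finset.mem_image_of_mem jj hp0⟩
  have hJP : J.card ≤ P.card := Finset.card_image_le
  have hPR : P.card ≤ R := by
    calc P.card ≤ (univ : Finset (W × W)).card := Finset.card_le_card (Finset.subset_univ _)
      _ = (Fintype.card W) ^ 2 := by rw [Finset.card_univ, Fintype.card_prod, sq]
      _ ≤ R := hR
  have hsp := hS J ∅ (by simpa using hJ1) (by simpa using hJP.trans hPR)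
  simp only [Finset.card_empty, zero_mul, add_zero, Finset.empty_product,
    Finset.union_empty] at hsp
  -- the pairs of one hyperedge
  have hsum : P.card = ∑ j ∈ J, (P.filter (fun p => jj p = j)).card := by
    rw [hJ]
    exact Finset.card_eq_sum_card_image jj P
  -- both orientations
  have hswap : ∀ p ∈ P, (p.2, p.1) ∈ P ∧ jj (p.2, p.1) = jj p := by
    intro p hp
    obtain ⟨⟨h1, h2⟩, h3⟩ := (hPm p).mp hp
    have hp' : (p.2, p.1) ∈ P := (hPm _).mpr ⟨⟨h2, h1⟩, h3.symm⟩
    refine ⟨hp', ?_⟩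
    obtain ⟨a, b, hab, -, e1, e2⟩ := hjj p hp
    obtain ⟨a', b', hab', -, e1', e2'⟩ := hjj _ hp'
    have := hyper_uniq hS hR2 (by omega) le_rfl (j := jj p) (j' := jj (p.2, p.1)) (a := a) (b := b)
      (a' := b') (b' := a') hab.ne (e2'.trans e1.symm) (e1'.trans e2.symm)
    exact this.1
  have htwo : ∀ j ∈ J, 2 ≤ (P.filter (fun p => jj p = j)).card := by
    intro j hj
    obtain ⟨p, hp, hpj⟩ := Finset.mem_image.mp hj
    obtain ⟨h1, h2⟩ := hswap p hp
    have hne : p ≠ (p.2, p.1) := by
      intro h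
      exact ((hPm p).mp hp).2.ne (congrArg Prod.fst h)
    rw [← Finset.card_pair hne]
    apply Finset.card_le_card
    intro r hr
    rw [Finset.mem_insert, Finset.mem_singleton] at hr
    rw [Finset.mem_filter]
    rcases hr with rfl | rfl
    · exact ⟨hp, hpj⟩
    · exact ⟨h1, h2.trans hpj⟩
  have hP2 : 2 * J.card ≤ P.card := by
    rw [hsum, mul_comm, ← smul_eq_mul, ← Finset.sum_const]
    exact Finset.sum_le_sum htwo
  -- vertices of one hyperedge outside the image
  have hone : ∀ j ∈ J, ((univ.image (E j)) \ (A.image f)).card +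
      (P.filter (fun p => jj p = j)).card ≤ n := by
    intro j _
    have hinj : Set.InjOn (fun p : W × W => f p.1) (↑(P.filter (fun p => jj p = j)) : Set (W × W)) := by
      intro p hp r hr hpr
      obtain ⟨hp1, hp2⟩ := Finset.mem_filter.mp (Finset.mem_coe.mp hp)
      obtain ⟨hr1, hr2⟩ := Finset.mem_filter.mp (Finset.mem_coe.mp hr)
      have m1 := (hPm p).mp hp1
      have m2 := (hPm r).mp hr1
      have h1 : p.1 = r.1 := hf.1 (hAS m1.1.1) (hAS m2.1.1) hpr
      obtain ⟨a, b, hab, hq, e1, e2⟩ := hjj p hp1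
      obtain ⟨a', b', hab', hq', e1', e2'⟩ := hjj r hr1
      rw [hp2] at e1 e2
      rw [hr2] at e1' e2'
      have haa : a = a' := inj j (by rw [e1, e1', h1])
      subst haa
      have hbb := y4 a b b' hab hq hab' hq'
      subst hbb
      have h2 : p.2 = r.2 := hf.1 (hAS m1.1.2) (hAS m2.1.2) (by rw [← e2, ← e2'])
      exact Prod.ext h1 h2
    rw [← Finset.card_image_of_injOn hinj, ← Finset.card_union_of_disjoint]
    · refine (Finset.card_le_card (?_ : _ ⊆ univ.image (E j))).trans
        (Finset.card_image_le.trans (by simp))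
      intro x hx
      rcases Finset.mem_union.mp hx with hx | hx
      · exact (Finset.mem_sdiff.mp hx).1
      · obtain ⟨p, hp, rfl⟩ := Finset.mem_image.mp hx
        obtain ⟨hp1, hp2⟩ := Finset.mem_filter.mp hp
        obtain ⟨a, b, -, -, e1, -⟩ := hjj p hp1
        rw [hp2] at e1
        exact Finset.mem_image.mpr ⟨a, Finset.mem_univ _, e1⟩
    · rw [Finset.disjoint_left]
      intro x hx hx'
      obtain ⟨p, hp, rfl⟩ := Finset.mem_image.mp hx'
      obtain ⟨hp1, -⟩ := Finset.mem_filter.mp hp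
      exact (Finset.mem_sdiff.mp hx).2 (Finset.mem_image_of_mem f ((hPm p).mp hp1).1.1)
  have hun : (J.biUnion (fun j => univ.image (E j))).card ≤
      A.card + ∑ j ∈ J, ((univ.image (E j)) \ (A.image f)).card := by
    have hsub : J.biUnion (fun j => univ.image (E j)) ⊆
        A.image f ∪ J.biUnion (fun j => (univ.image (E j)) \ (A.image f)) := by
      intro x hx
      obtain ⟨j, hj, hxj⟩ := Finset.mem_biUnion.mp hx
      by_cases h : x ∈ A.image f
      · exact Finset.mem_union_left _ h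
      · exact Finset.mem_union_right _ (Finset.mem_biUnion.mpr
          ⟨j, hj, Finset.mem_sdiff.mpr ⟨hxj, h⟩⟩)
    refine (Finset.card_le_card hsub).trans ((Finset.card_union_le _ _).trans ?_)
    exact Nat.add_le_add Finset.card_image_le Finset.card_biUnion_le
  have hall : ∑ j ∈ J, ((univ.image (E j)) \ (A.image f)).card + P.card ≤ J.card * n := by
    rw [hsum, ← Finset.sum_add_distrib, ← smul_eq_mul, ← Finset.sum_const]
    exact Finset.sum_le_sum hone
  have hmul : J.card * n = J.card * (n - 1) + J.card := by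
    obtain ⟨n', rfl⟩ : ∃ n', n = n' + 1 := ⟨n - 1, by omega⟩
    simp
    ring
  omega

/-- Block graphs for the three kinds: `L` is avoided in the intended colouring, `B` is forced. -/
theorem kind_block {W WL : Type} [Fintype W] [Fintype WL] (B : SimpleGraph W)
    (c1 : 2 ≤ Fintype.card W) (L : SimpleGraph WL)
    (n0 : NoSep L) (c0 : 2 ≤ Fintype.card WL) (t : Kind) (q : ℕ)
    (hY : t = Kind.I ∨ ∃ (n : ℕ) (Y : SimpleGraph (Fin n)) (cY : Fin n → Fin n → ℕ), 2 ≤ n ∧
      NB Y q B 1 ∧ Sm cY ∧ (∀ a b, Y.Adj a b → cY a b ≤ q) ∧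
      (∀ j, j < q → ∀ f : WL → Fin n, ¬ Mono Y L cY j f) ∧
      ∀ a b b', Y.Adj a b → cY a b = q → Y.Adj a b' → cY a b' = q → b = b') :
    ∃ (nY : ℕ) (Y : SimpleGraph (Fin nY)) (cY : Fin nY → Fin nY → ℕ) (N : ℕ), 1 ≤ nY ∧ Sm cY ∧
      (∀ a b, Y.Adj a b → cY a b ≤ q) ∧
      (∀ j, j < q → ∀ f : WL → Fin nY, ¬ Mono Y L cY j f) ∧
      (∀ (S : Set WL) (f : WL → Fin nY), EmbS Y L cY q S f → KOn t L S) ∧
      ∀ c : Fin N × Fin nY → Fin N × Fin nY → ℕ, Sm c →
        (∀ a b, (cps N Y).Adj a b → c a b < q + 1) →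
        (∃ i, i < q + 1 ∧ ∃ f : W → Fin N × Fin nY, Mono (cps N Y) B c i f) ∨
        ∀ i, i < q + 1 → ∀ S : Set W, KOn t B S →
          ∃ f : W → Fin N × Fin nY, EmbS (cps N Y) B c i S f := by
  obtain ⟨b₁, b₂, hb12⟩ := noSep_edge L n0 c0
  rcases hY with rfl | ⟨n, Y, cY, hn2, hYn, hcY, hYb, hYf, y4⟩
  · refine ⟨1, ⊥, fun _ _ => 0, Fintype.card W, le_rfl, fun _ _ => rfl, fun _ _ _ => Nat.zero_le _,
      ?_, ?_, ?_⟩
    · intro j _ f hf
      exact absurd (hf.2 _ _ hb12).1 (by simp)
    · intro S f hf u hu v hv huv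
      exact absurd (hf.2 u hu v hv huv).1 (by simp)
    · intro c _ _
      right
      intro i _ S hS
      refine ⟨fun w => (Fintype.equivFin W w, 0), ?_, ?_⟩
      · intro u _ v _ huv
        exact (Fintype.equivFin W).injective (congrArg Prod.fst huv)
      · intro u hu v hv huv
        exact absurd huv (hS u hu v hv)
  cases t with
  | I =>
    refine ⟨1, ⊥, fun _ _ => 0, Fintype.card W, le_rfl, fun _ _ => rfl, fun _ _ _ => Nat.zero_le _,
      ?_, ?_, ?_⟩
    · intro j _ f hf
      exact absurd (hf.2 _ _ hb12).1 (by simp)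
    · intro S f hf u hu v hv huv
      exact absurd (hf.2 u hu v hv huv).1 (by simp)
    · intro c _ _
      right
      intro i _ S hS
      refine ⟨fun w => (Fintype.equivFin W w, 0), ?_, ?_⟩
      · intro u _ v _ huv
        exact (Fintype.equivFin W).injective (congrArg Prod.fst huv)
      · intro u hu v hv huv
        exact absurd huv (hS u hu v hv)
  | D =>
    refine ⟨n, Y, cY, Fintype.card W, by omega, hcY, hYb, hYf, ?_, ?_⟩
    · intro S f hf u hu v hv v' hv' huv huv'
      have h1 := hf.2 u hu v hv huv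
      have h2 := hf.2 u hu v' hv' huv'
      exact hf.1 hv hv' (y4 _ _ _ h1.1 h1.2 h2.1 h2.2)
    · intro c hc hcb
      by_cases hm : ∃ i, i < q + 1 ∧ ∃ f : W → Fin (Fintype.card W) × Fin n,
          Mono (cps (Fintype.card W) Y) B c i f
      · exact Or.inl hm
      · right
        intro i hi S hS
        refine h86_deg1 B Y c hc i ?_ S hS
        intro k
        refine nb_all_colours B Y q hYn (fun a b => c (k, a) (k, b)) (fun a b => hc _ _)
          (fun a b hab => Nat.lt_succ_iff.mp (hcb _ _ ⟨rfl, hab⟩)) ?_ i (Nat.lt_succ_iff.mp hi)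
        intro i' hi' f hf
        refine hm ⟨i', Nat.lt_succ_iff.mpr hi', fun w => (k, f w), ?_, ?_⟩
        · intro u v huv
          exact hf.1 (congrArg Prod.snd huv)
        · intro u v huv
          obtain ⟨h1, h2⟩ := hf.2 u v huv
          exact ⟨⟨rfl, h1⟩, h2⟩
  | F =>
    set w := Fintype.card W with hw
    obtain ⟨m, ι, _, E, hm1, hSp, hD⟩ := hyp n 1 ((Fintype.card WL) ^ 2) w 1 hn2 le_rfl le_rfl
    have hR2 : 2 ≤ (Fintype.card WL) ^ 2 := by nlinarith
    obtain ⟨cX, hcX, hcXA, -⟩ := sys_col hSp hR2 hn2 le_rfl Y ⊥ cY (fun _ _ => 0) hcY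
      (fun _ _ => rfl)
    set X := Sys E Y ⊥ with hX
    let τ : Fin m → Fin m × Fin 1 := fun l => (l, 0)
    have hτ : Function.Injective τ := fun a b hab => congrArg Prod.fst hab
    have hτ1 : ∀ x : Fin m × Fin 1, τ x.1 = x := fun x => Prod.ext rfl (Subsingleton.elim _ _)
    have hXb : ∀ x y, X.Adj x y → ∃ j a b, Y.Adj a b ∧ E j a = x ∧ E j b = y := by
      intro x y hxy
      rcases hxy.2 with h | ⟨l, a, b, hab, -, -⟩
      · exact h
      · exact absurd hab (by simp)
    refine ⟨m, X.comap τ, fun a b => cX (τ a) (τ b), 1, hm1, fun a b => hcX _ _, ?_, ?_, ?_, ?_⟩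
    · intro a b hab
      obtain ⟨j, a', b', h1, h2, h3⟩ := hXb _ _ hab
      show cX (τ a) (τ b) ≤ q
      rw [← h2, ← h3, hcXA j a' b' h1]
      exact hYb _ _ h1
    · intro j hj f hf
      rcases sys_local L n0 c0 hSp le_rfl hn2 le_rfl Y ⊥ (fun w => τ (f w)) (hτ.comp hf.1)
        (fun u v huv => (hf.2 u v huv).1) with ⟨l, g, hg1, hg2, hg3⟩ | ⟨l, g, hg1, hg2, hg3⟩
      · refine hYf j hj g ⟨hg1, fun u v huv => ⟨hg3 u v huv, ?_⟩⟩
        rw [← hcXA l _ _ (hg3 u v huv), hg2, hg2]
        exact (hf.2 u v huv).2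
      · exact absurd (hg3 _ _ hb12) (by simp)
    · intro S f hf
      refine h86_forest L hn2 E hSp le_rfl hR2 Y cY q y4 cX hcXA S (fun w => τ (f w)) ⟨?_, ?_⟩
      · intro u hu v hv huv
        exact hf.1 hu hv (hτ huv)
      · intro u hu v hv huv
        exact hf.2 u hu v hv huv
    · intro c hc hcb
      by_cases hm : ∃ i, i < q + 1 ∧ ∃ f : W → Fin 1 × Fin m, Mono (cps 1 (X.comap τ)) B c i f
      · exact Or.inl hm
      · right
        intro i hi S hS
        have hcX' : ∀ j, ∃ a b, Y.Adj a b ∧ c (0, (E j a).1) (0, (E j b).1) = i := by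
          intro j
          have hadj : ∀ a b, Y.Adj a b → (X.comap τ).Adj (E j a).1 (E j b).1 := by
            intro a b hab
            show X.Adj (τ (E j a).1) (τ (E j b).1)
            rw [hτ1, hτ1]
            exact sys_adjA hSp (by omega) (by omega) Y ⊥ j hab
          have inj := sparse_inj hSp (by omega) (by omega) j
          refine nb_all_colours B Y q hYn (fun a b => c (0, (E j a).1) (0, (E j b).1))
            (fun a b => hc _ _) (fun a b hab => Nat.lt_succ_iff.mp (hcb _ _ ⟨rfl, hadj a b hab⟩))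
            ?_ i (Nat.lt_succ_iff.mp hi)
          intro i' hi' f hf
          refine hm ⟨i', Nat.lt_succ_iff.mpr hi', fun w => (0, (E j (f w)).1), ?_, ?_⟩
          · intro u v huv
            have h1 : (E j (f u)).1 = (E j (f v)).1 := congrArg Prod.snd huv
            exact hf.1 (inj (by rw [← hτ1 (E j (f u)), ← hτ1 (E j (f v)), h1]))
          · intro u v huv
            obtain ⟨h1, h2⟩ := hf.2 u v huv
            exact ⟨⟨rfl, hadj _ _ h1⟩, h2⟩
        let Γ : SimpleGraph (Fin 1 × Fin m) :=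
          { Adj := fun x y => (cps 1 (X.comap τ)).Adj x y ∧ c x y = i
            symm := ⟨fun x y h => ⟨h.1.symm, by rw [hc]; exact h.2⟩⟩
            loopless := ⟨fun x h => (cps 1 (X.comap τ)).loopless.irrefl x h.1⟩ }
        have hΓ : ¬ ∃ φ : Fin 1 × Fin m → Fin w, ∀ u v, Γ.Adj u v → φ u ≠ φ v := by
          rintro ⟨φ, hφ⟩
          obtain ⟨j, hj⟩ := dense_mono hD hm1 le_rfl (fun x => φ (0, x.1))
          obtain ⟨a, b, hab, hcab⟩ := hcX' j
          refine hφ (0, (E j a).1) (0, (E j b).1) ⟨⟨rfl, ?_⟩, hcab⟩ (hj a b)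
          show X.Adj (τ (E j a).1) (τ (E j b).1)
          rw [hτ1, hτ1]
          exact sys_adjA hSp (by omega) (by omega) Y ⊥ j hab
        obtain ⟨f, hf1, hf2, -⟩ := emb_forest B S hS Γ w le_rfl (by omega) hΓ
        exact ⟨f, hf1, hf2⟩

end Pool.Agent.H65.RI
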