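import Pool.Agent.H65.RK.Em
import Pool.Agent.H65.RK.KBl

set_option autoImplicit false

/-!
Block graphs and sides, with a distinguished set of edges.
-/

namespace Pool.Agent.H65.RI

open Finset Classical

theorem phK_self {T : Kind} (hT : T ≠ Kind.I) : phK T T = Kind.I := by
  cases T with
  | I => exact absurd rfl hT
  | D => rfl
  | F => rfl

theorem phK_ne {T t : Kind} (h : t ≠ T) : phK T t = t := by
  cases T <;> cases t <;> first | rfl | exact absurd rfl h

theorem em_emb {V W : Type} (T : Kind) (H : SimpleGraph W) (G : SimpleGraph V) (c : V → V → ℕ)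
    (q : ℕ) (h : EM T H (fun a b => G.Adj a b ∧ c a b = q)) (S : Set W) (f : W → V)
    (hf : EmbS G H c q S f) : KOn T H S := h S f hf.1 hf.2

/-- Data of a block graph or a side of kind `t`. -/
def SideM {V WL W' : Type} (Y : SimpleGraph V) (cY : V → V → ℕ) (M : V → V → Prop)
    (q : ℕ) (T t : Kind) (L : SimpleGraph WL) (H' : SimpleGraph W') : Prop :=
  Sm cY ∧ (∀ a b, Y.Adj a b → cY a b ≤ q) ∧
    (∀ j, j < q → ∀ f : WL → V, ¬ Mono Y L cY j f) ∧
    (∀ a b, M a b → M b a) ∧ EM T L M ∧ EM T H' M ∧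
    (∀ (S : Set WL) (f : WL → V), EmbS Y L cY q S f →
      (∀ u ∈ S, ∀ v ∈ S, L.Adj u v → ¬ M (f u) (f v)) → KOn (phK T t) L S) ∧
    ∀ (S : Set W') (f : W' → V), EmbS Y H' cY q S f → KOn t H' S

theorem block_m {W WL W' : Type} [Fintype W] [Fintype WL] [Fintype W'] (B : SimpleGraph W)
    (c1 : 2 ≤ Fintype.card W) (L : SimpleGraph WL) (n0 : NoSep L) (c0 : 2 ≤ Fintype.card WL)
    (H' : SimpleGraph W') (T t : Kind) (ht : t = Kind.I ∨ t = T ∨ t = Kind.F)
    (hT : T ≠ Kind.I) (q : ℕ) {n : ℕ} (Y : SimpleGraph (Fin n)) (cY : Fin n → Fin n → ℕ)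
    (hn2 : 2 ≤ n) (hYn : NB Y q B 1) (hcY : Sm cY) (hYb : ∀ a b, Y.Adj a b → cY a b ≤ q)
    (hYf : ∀ j, j < q → ∀ f : WL → Fin n, ¬ Mono Y L cY j f)
    (hEL : EM T L (fun a b => Y.Adj a b ∧ cY a b = q))
    (hEH : EM T H' (fun a b => Y.Adj a b ∧ cY a b = q)) :
    ∃ (nY : ℕ) (Y' : SimpleGraph (Fin nY)) (cY' : Fin nY → Fin nY → ℕ)
      (M' : Fin nY → Fin nY → Prop) (N : ℕ), 1 ≤ nY ∧ SideM Y' cY' M' q T t L H' ∧
      ∀ c : Fin N × Fin nY → Fin N × Fin nY → ℕ, Sm c →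
        (∀ a b, (cps N Y').Adj a b → c a b < q + 1) →
        (∃ i, i < q + 1 ∧ ∃ f : W → Fin N × Fin nY, Mono (cps N Y') B c i f) ∨
        ∀ i, i < q + 1 → ∀ S : Set W, KOn t B S →
          ∃ f : W → Fin N × Fin nY, EmbS (cps N Y') B c i S f := by
  obtain ⟨b₁, b₂, hb12⟩ := noSep_edge L n0 c0
  have hI : ∃ (nY : ℕ) (Y' : SimpleGraph (Fin nY)) (cY' : Fin nY → Fin nY → ℕ)
      (M' : Fin nY → Fin nY → Prop) (N : ℕ), 1 ≤ nY ∧ SideM Y' cY' M' q T Kind.I L H' ∧
      ∀ c : Fin N × Fin nY → Fin N × Fin nY → ℕ, Sm c →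
        (∀ a b, (cps N Y').Adj a b → c a b < q + 1) →
        (∃ i, i < q + 1 ∧ ∃ f : W → Fin N × Fin nY, Mono (cps N Y') B c i f) ∨
        ∀ i, i < q + 1 → ∀ S : Set W, KOn Kind.I B S →
          ∃ f : W → Fin N × Fin nY, EmbS (cps N Y') B c i S f := by
    refine ⟨1, ⊥, fun _ _ => 0, fun _ _ => False, Fintype.card W, le_rfl,
      ⟨fun _ _ => rfl, fun _ _ _ => Nat.zero_le _, ?_, fun _ _ h => h, em_false T L,
        em_false T H', ?_, ?_⟩, ?_⟩
    · intro j _ f hf
      exact absurd (hf.2 _ _ hb12).1 (by simp)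
    · intro S f hf _
      apply h97_indep_KOn
      intro u hu v hv huv
      exact absurd (hf.2 u hu v hv huv).1 (by simp)
    · intro S f hf
      apply h97_indep_KOn
      intro u hu v hv huv
      exact absurd (hf.2 u hu v hv huv).1 (by simp)
    · intro c _ _
      right
      intro i _ S hS
      refine ⟨fun w => (Fintype.equivFin W w, 0), ?_, ?_⟩
      · intro u _ v _ huv
        exact (Fintype.equivFin W).injective (congrArg Prod.fst huv)
      · intro u hu v hv huv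
        exact absurd huv (hS u hu v hv)
  cases t with
  | I => exact hI
  | D =>
    have hTD : T = Kind.D := by
      rcases ht with h | h | h
      · exact absurd h (by simp)
      · exact h.symm
      · exact absurd h (by simp)
    subst hTD
    refine ⟨n, Y, cY, fun a b => Y.Adj a b ∧ cY a b = q, Fintype.card W, by omega,
      ⟨hcY, hYb, hYf, fun a b h => ⟨h.1.symm, by rw [hcY]; exact h.2⟩, hEL, hEH, ?_, ?_⟩, ?_⟩
    · intro S f hf hM u hu v hv huv
      exact hM u hu v hv huv (hf.2 u hu v hv huv)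
    · intro S f hf
      exact em_emb Kind.D H' Y cY q hEH S f hf
    · intro c hc hcb
      by_cases hm : ∃ i, i < q + 1 ∧ ∃ f : W → Fin (Fintype.card W) × Fin n,
          Mono (cps (Fintype.card W) Y) B c i f
      · exact Or.inl hm
      · right
        intro i hi S hS
        refine h86_deg1 B Y c hc i ?_ S hS
        intro k
        refine nb_all_colours B Y q hYn (fun a b => c (k, a) (k, b)) (fun a b => hc _ _)
          (fun a b hab => Nat.lt_succ_iff.mp (hcb _ _ ⟨rfl, hab⟩)) ?_ i (Nat.lt_succ_iff.mp hi)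
        intro i' hi' f hf
        refine hm ⟨i', Nat.lt_succ_iff.mpr hi', fun w => (k, f w), ?_, ?_⟩
        · intro u v huv
          exact hf.1 (congrArg Prod.snd huv)
        · intro u v huv
          obtain ⟨h1, h2⟩ := hf.2 u v huv
          exact ⟨⟨rfl, h1⟩, h2⟩
  | F =>
    set w := Fintype.card W with hw
    have hFL : EM Kind.F L (fun a b => Y.Adj a b ∧ cY a b = q) := by
      cases T with
      | I => exact absurd rfl hT
      | D => exact em_DF L _ hEL
      | F => exact hEL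
    have hFH : EM Kind.F H' (fun a b => Y.Adj a b ∧ cY a b = q) := by
      cases T with
      | I => exact absurd rfl hT
      | D => exact em_DF H' _ hEH
      | F => exact hEH
    set R := (Fintype.card WL) ^ 2 + (Fintype.card W') ^ 2 with hRdef
    obtain ⟨m, ι, _, E, hm1, hSp, hD⟩ := hyp n 1 R w 1 hn2 le_rfl le_rfl
    have hR2 : 2 ≤ R := by nlinarith
    obtain ⟨cX, hcX, hcXA, -⟩ := sys_col hSp hR2 hn2 le_rfl Y ⊥ cY (fun _ _ => 0) hcY
      (fun _ _ => rfl)
    set X := Sys E Y ⊥ with hX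
    let τ : Fin m → Fin m × Fin 1 := fun l => (l, 0)
    have hτ : Function.Injective τ := fun a b hab => congrArg Prod.fst hab
    have hτ1 : ∀ x : Fin m × Fin 1, τ x.1 = x := fun x => Prod.ext rfl (Subsingleton.elim _ _)
    have hXb : ∀ x y, X.Adj x y → ∃ j a b, Y.Adj a b ∧ E j a = x ∧ E j b = y := by
      intro x y hxy
      rcases hxy.2 with h | ⟨l, a, b, hab, -, -⟩
      · exact h
      · exact absurd hab (by simp)
    have eL : ∀ (S : Set WL) (f : WL → Fin m), EmbS (X.comap τ) L (fun a b => cX (τ a) (τ b)) q S f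
        → ForestOn L S := fun S f hf => forest_sys L hn2 E hSp (by omega) hR2 Y cY q hFL cX hcXA S
          (fun w => τ (f w)) ⟨fun u hu v hv huv => hf.1 hu hv (hτ huv), hf.2⟩
    have eH : ∀ (S : Set W') (f : W' → Fin m), EmbS (X.comap τ) H' (fun a b => cX (τ a) (τ b)) q S f
        → ForestOn H' S := fun S f hf => forest_sys H' hn2 E hSp (by omega) hR2 Y cY q hFH cX hcXA S
          (fun w => τ (f w)) ⟨fun u hu v hv huv => hf.1 hu hv (hτ huv), hf.2⟩
    have hM' : ∃ M' : Fin m → Fin m → Prop, (∀ a b, M' a b → M' b a) ∧ EM T L M' ∧ EM T H' M' ∧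
        ∀ (S : Set WL) (f : WL → Fin m), EmbS (X.comap τ) L (fun a b => cX (τ a) (τ b)) q S f →
          (∀ u ∈ S, ∀ v ∈ S, L.Adj u v → ¬ M' (f u) (f v)) → KOn (phK T Kind.F) L S := by
      by_cases hTF : T = Kind.F
      · subst hTF
        refine ⟨fun a b => (X.comap τ).Adj a b ∧ cX (τ a) (τ b) = q,
          fun a b h => ⟨h.1.symm, by rw [hcX]; exact h.2⟩, fun S f h1 h2 => eL S f ⟨h1, h2⟩,
          fun S f h1 h2 => eH S f ⟨h1, h2⟩, ?_⟩
        intro S f hf hM u hu v hv huv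
        exact hM u hu v hv huv (hf.2 u hu v hv huv)
      · refine ⟨fun _ _ => False, fun _ _ h => h, em_false T L, em_false T H', ?_⟩
        intro S f hf _
        rw [phK_ne (Ne.symm hTF)]
        exact eL S f hf
    obtain ⟨M', m1, m2, m3, m4⟩ := hM'
    refine ⟨m, X.comap τ, fun a b => cX (τ a) (τ b), M', 1, hm1,
      ⟨fun a b => hcX _ _, ?_, ?_, m1, m2, m3, m4, eH⟩, ?_⟩
    · intro a b hab
      obtain ⟨j, a', b', h1, h2, h3⟩ := hXb _ _ hab
      show cX (τ a) (τ b) ≤ q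
      rw [← h2, ← h3, hcXA j a' b' h1]
      exact hYb _ _ h1
    · intro j hj f hf
      rcases sys_local L n0 c0 hSp (by omega) hn2 le_rfl Y ⊥ (fun w => τ (f w)) (hτ.comp hf.1)
        (fun u v huv => (hf.2 u v huv).1) with ⟨l, g, hg1, hg2, hg3⟩ | ⟨l, g, hg1, hg2, hg3⟩
      · refine hYf j hj g ⟨hg1, fun u v huv => ⟨hg3 u v huv, ?_⟩⟩
        rw [← hcXA l _ _ (hg3 u v huv), hg2, hg2]
        exact (hf.2 u v huv).2
      · exact absurd (hg3 _ _ hb12) (by simp)
    · intro c hc hcb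
      by_cases hm : ∃ i, i < q + 1 ∧ ∃ f : W → Fin 1 × Fin m, Mono (cps 1 (X.comap τ)) B c i f
      · exact Or.inl hm
      · right
        intro i hi S hS
        have hcX' : ∀ j, ∃ a b, Y.Adj a b ∧ c (0, (E j a).1) (0, (E j b).1) = i := by
          intro j
          have hadj : ∀ a b, Y.Adj a b → (X.comap τ).Adj (E j a).1 (E j b).1 := by
            intro a b hab
            show X.Adj (τ (E j a).1) (τ (E j b).1)
            rw [hτ1, hτ1]
            exact sys_adjA hSp (by omega) (by omega) Y ⊥ j hab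
          have inj := sparse_inj hSp (by omega) (by omega) j
          refine nb_all_colours B Y q hYn (fun a b => c (0, (E j a).1) (0, (E j b).1))
            (fun a b => hc _ _) (fun a b hab => Nat.lt_succ_iff.mp (hcb _ _ ⟨rfl, hadj a b hab⟩))
            ?_ i (Nat.lt_succ_iff.mp hi)
          intro i' hi' f hf
          refine hm ⟨i', Nat.lt_succ_iff.mpr hi', fun w => (0, (E j (f w)).1), ?_, ?_⟩
          · intro u v huv
            have h1 : (E j (f u)).1 = (E j (f v)).1 := congrArg Prod.snd huv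
            exact hf.1 (inj (by rw [← hτ1 (E j (f u)), ← hτ1 (E j (f v)), h1]))
          · intro u v huv
            obtain ⟨h1, h2⟩ := hf.2 u v huv
            exact ⟨⟨rfl, hadj _ _ h1⟩, h2⟩
        let Γ : SimpleGraph (Fin 1 × Fin m) :=
          { Adj := fun x y => (cps 1 (X.comap τ)).Adj x y ∧ c x y = i
            symm := ⟨fun x y h => ⟨h.1.symm, by rw [hc]; exact h.2⟩⟩
            loopless := ⟨fun x h => (cps 1 (X.comap τ)).loopless.irrefl x h.1⟩ }
        have hΓ : ¬ ∃ φ : Fin 1 × Fin m → Fin w, ∀ u v, Γ.Adj u v → φ u ≠ φ v := by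
          rintro ⟨φ, hφ⟩
          obtain ⟨j, hj⟩ := dense_mono hD hm1 le_rfl (fun x => φ (0, x.1))
          obtain ⟨a, b, hab, hcab⟩ := hcX' j
          refine hφ (0, (E j a).1) (0, (E j b).1) ⟨⟨rfl, ?_⟩, hcab⟩ (hj a b)
          show X.Adj (τ (E j a).1) (τ (E j b).1)
          rw [hτ1, hτ1]
          exact sys_adjA hSp (by omega) (by omega) Y ⊥ j hab
        obtain ⟨f, hf1, hf2, -⟩ := emb_forest B S hS Γ w le_rfl (by omega) hΓ
        exact ⟨f, hf1, hf2⟩

/-- The intended colouring of a side. -/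
theorem sys_side_m {WL W' : Type} [Fintype WL] [Fintype W'] (L : SimpleGraph WL) (n0 : NoSep L)
    (c0 : 2 ≤ Fintype.card WL) (H' : SimpleGraph W') (T t : Kind)
    {ι : Type} {nA nB m R : ℕ} (E : ι → Fin nA → Fin m × Fin nB)
    (hS : Sparse E R) (hR : (Fintype.card WL) ^ 2 ≤ R) (hA : 2 ≤ nA) (hB : 1 ≤ nB)
    (A : SimpleGraph (Fin nA)) (q : ℕ) (hgA : Good A q L L) (Y : SimpleGraph (Fin nB))
    (cY : Fin nB → Fin nB → ℕ) (M : Fin nB → Fin nB → Prop) (hY : SideM Y cY M q T t L H') :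
    ∃ cZ : (Fin m × Fin nB) → (Fin m × Fin nB) → ℕ,
      SideM (Sys E A Y) cZ (cpsM M) q T t L H' := by
  have hR2 : 2 ≤ R := by nlinarith
  have hA1 : 1 ≤ nA := by omega
  obtain ⟨hcY, hYb, hYf, m1, m2, m3, m4, m5⟩ := hY
  obtain ⟨cA, hcA, hbA, h0, h1⟩ := hgA
  obtain ⟨cZ, hcZ, hcZA, hcZY⟩ := sys_col hS hR2 hA hB A Y cA cY hcA hcY
  -- an edge of colour `q` lies in a block
  have key : ∀ x y, (Sys E A Y).Adj x y → cZ x y = q →
      x.1 = y.1 ∧ Y.Adj x.2 y.2 ∧ cY x.2 y.2 = q := by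
    rintro x y ⟨hne, ⟨j, a, b, hab, rfl, rfl⟩ | ⟨l, a, b, hab, rfl, rfl⟩⟩ hq
    · rw [hcZA j a b hab] at hq
      exact absurd hq (hbA a b hab).ne
    · rw [hcZY l a b hab] at hq
      exact ⟨rfl, hab, hq⟩
  refine ⟨cZ, hcZ, ?_, ?_, cpsM_symm M m1, em_cps T L M m2, em_cps T H' M m3, ?_, ?_⟩
  · rintro x y ⟨hne, ⟨j, a, b, hab, rfl, rfl⟩ | ⟨l, a, b, hab, rfl, rfl⟩⟩
    · rw [hcZA j a b hab]
      exact (hbA a b hab).le
    · rw [hcZY l a b hab]
      exact hYb a b hab
  · intro j hj f hf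
    rcases sys_local L n0 c0 hS hR hA hB A Y f hf.1 (fun u v huv => (hf.2 u v huv).1) with
      ⟨i, g, hg1, hg2, hg3⟩ | ⟨l, g, hg1, hg2, hg3⟩
    · have hm : Mono A L cA j g := by
        refine ⟨hg1, fun u v huv => ⟨hg3 u v huv, ?_⟩⟩
        rw [← hcZA i _ _ (hg3 u v huv), hg2, hg2]
        exact (hf.2 u v huv).2
      rcases Nat.eq_zero_or_pos j with rfl | hj0
      · exact h0 g hm
      · exact h1 j hj0 hj g hm
    · refine hYf j hj g ⟨hg1, fun u v huv => ⟨hg3 u v huv, ?_⟩⟩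
      rw [← hcZY l _ _ (hg3 u v huv), hg2, hg2]
      exact (hf.2 u v huv).2
  · rintro S f ⟨hf1, hf2⟩ hM
    refine kOn_union (phK T t) L S (fun u => (f u).1) ?_ ?_
    · intro u hu v hv huv
      exact (key _ _ (hf2 u hu v hv huv).1 (hf2 u hu v hv huv).2).1
    · intro l
      refine m4 _ (fun u => (f u).2) ⟨?_, ?_⟩ ?_
      · rintro u ⟨hu, hul⟩ v ⟨hv, hvl⟩ huv
        exact hf1 hu hv (Prod.ext (hul.trans hvl.symm) huv)
      · rintro u ⟨hu, hul⟩ v ⟨hv, hvl⟩ huv
        exact (key _ _ (hf2 u hu v hv huv).1 (hf2 u hu v hv huv).2).2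
      · rintro u ⟨hu, hul⟩ v ⟨hv, hvl⟩ huv hM'
        exact hM u hu v hv huv ⟨hul.trans hvl.symm, hM'⟩
  · rintro S f ⟨hf1, hf2⟩
    refine kOn_union t H' S (fun u => (f u).1) ?_ ?_
    · intro u hu v hv huv
      exact (key _ _ (hf2 u hu v hv huv).1 (hf2 u hu v hv huv).2).1
    · intro l
      refine m5 _ (fun u => (f u).2) ⟨?_, ?_⟩
      · rintro u ⟨hu, hul⟩ v ⟨hv, hvl⟩ huv
        exact hf1 hu hv (Prod.ext (hul.trans hvl.symm) huv)
      · rintro u ⟨hu, hul⟩ v ⟨hv, hvl⟩ huv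
        exact (key _ _ (hf2 u hu v hv huv).1 (hf2 u hu v hv huv).2).2

end Pool.Agent.H65.RI
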