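import Pool.Agent.H65.RK.Defs
import Pool.Agent.H65.RI.SysL
import Pool.Agent.H65.RI.Hyp
import Pool.Agent.H65.RI.Ind
import Pool.Agent.H65.RI.Adv

set_option autoImplicit false

/-!
Module CLN: vertex-Ramsey systems, and many sides at once.
-/

namespace Pool.Agent.H65.RI

open Finset Classical

theorem sys_good {W0 W1 : Type} [Fintype W0] [Fintype W1] (L0 : SimpleGraph W0)
    (L1 : SimpleGraph W1) (n0 : NoSep L0) (n1 : NoSep L1) (c0 : 2 ≤ Fintype.card W0)
    (c1 : 2 ≤ Fintype.card W1) {ι : Type} {nA m' R : ℕ} (E : ι → Fin nA → Fin m' × Fin 1)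
    (hS : Sparse E R) (hR : (Fintype.card W0) ^ 2 + (Fintype.card W1) ^ 2 ≤ R) (hA : 2 ≤ nA)
    (X : SimpleGraph (Fin nA)) (m : ℕ) (hX : Good X m L0 L1) :
    Good (Sys E X ⊥) m L0 L1 := by
  have hR2 : 2 ≤ R := by nlinarith
  obtain ⟨c, hc, hb, h0, h1⟩ := hX
  obtain ⟨d, hd, hdA, -⟩ := sys_col hS hR2 hA le_rfl X ⊥ c (fun _ _ => 0) hc (fun _ _ => rfl)
  have key : ∀ {W : Type} [Fintype W] (L : SimpleGraph W), NoSep L → 2 ≤ Fintype.card W →
      (Fintype.card W) ^ 2 ≤ R → ∀ (j : ℕ) (f : W → Fin m' × Fin 1), Mono (Sys E X ⊥) L d j f →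
      ∃ g : W → Fin nA, Mono X L c j g := by
    intro W _ L hL hW hWR j f hf
    rcases sys_local L hL hW hS hWR hA le_rfl X ⊥ f hf.1 (fun u v huv => (hf.2 u v huv).1) with
      ⟨j', g, hg1, hg2, hg3⟩ | ⟨l, g, hg1, hg2, hg3⟩
    · refine ⟨g, hg1, fun u v huv => ⟨hg3 u v huv, ?_⟩⟩
      rw [← hdA j' _ _ (hg3 u v huv), hg2, hg2]
      exact (hf.2 u v huv).2
    · obtain ⟨u, v, huv⟩ := noSep_edge L hL hW
      exact absurd (hg3 u v huv) (by simp)
  refine ⟨d, hd, ?_, ?_, ?_⟩
  · rintro x y ⟨-, ⟨j, a, b, hab, rfl, rfl⟩ | ⟨l, a, b, hab, -, -⟩⟩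
    · rw [hdA j a b hab]
      exact hb a b hab
    · exact absurd hab (by simp)
  · intro f hf
    obtain ⟨g, hg⟩ := key L0 n0 c0 (by omega) 0 f hf
    exact h0 g hg
  · intro j hj1 hj2 f hf
    obtain ⟨g, hg⟩ := key L1 n1 c1 (by omega) j f hf
    exact h1 j hj1 hj2 g hg

theorem vr_side {VX W0 W1 : Type} [Fintype VX] [Fintype W0] [Fintype W1] (L0 : SimpleGraph W0)
    (L1 : SimpleGraph W1) (n0 : NoSep L0) (n1 : NoSep L1) (c0 : 2 ≤ Fintype.card W0)
    (c1 : 2 ≤ Fintype.card W1) (X : SimpleGraph VX) (m : ℕ) (hX : Good X m L0 L1)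
    (h2 : 2 ≤ Fintype.card VX) (K : ℕ) :
    ∃ (V : Type) (_ : Fintype V) (Z : SimpleGraph V), Good Z m L0 L1 ∧
      ∀ φ : V → Fin K, ∃ e : VX → V, Function.Injective e ∧
        (∀ a b, X.Adj a b → Z.Adj (e a) (e b)) ∧ ∀ a b, φ (e a) = φ (e b) := by
  obtain ⟨m', ι, _, E, hm, hS, hD⟩ := hyp (Fintype.card VX) 1
    ((Fintype.card W0) ^ 2 + (Fintype.card W1) ^ 2 + 2) K 1 h2 le_rfl le_rfl
  refine ⟨Fin m' × Fin 1, inferInstance, Sys E (X.comap (Fintype.equivFin VX).symm) ⊥,
    sys_good L0 L1 n0 n1 c0 c1 E hS (by omega) h2 _ m (good_comap X _ m L0 L1 hX), ?_⟩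
  intro φ
  obtain ⟨j, hj⟩ := dense_mono hD hm le_rfl φ
  refine ⟨fun x => E j (Fintype.equivFin VX x),
    (sparse_inj hS (by omega) (by omega) j).comp (Fintype.equivFin VX).injective, ?_,
    fun a b => hj _ _⟩
  intro a b hab
  apply sys_adjA hS (by omega) (by omega)
  simpa using hab

theorem ds_good {V₁ V₂ W0 W1 : Type} (L0 : SimpleGraph W0) (L1 : SimpleGraph W1)
    (n0 : NoSep L0) (n1 : NoSep L1) (G₁ : SimpleGraph V₁) (G₂ : SimpleGraph V₂) (m : ℕ)
    (h1 : Good G₁ m L0 L1) (h2 : Good G₂ m L0 L1) : Good (ds G₁ G₂) m L0 L1 := by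
  obtain ⟨c₁, hs1, hb1, h10, h1j⟩ := h1
  obtain ⟨c₂, hs2, hb2, h20, h2j⟩ := h2
  let c : V₁ ⊕ V₂ → V₁ ⊕ V₂ → ℕ := fun x y => match x, y with
    | Sum.inl a, Sum.inl b => c₁ a b
    | Sum.inr a, Sum.inr b => c₂ a b
    | _, _ => 0
  have key : ∀ {W : Type} (L : SimpleGraph W), NoSep L → ∀ (j : ℕ) (f : W → V₁ ⊕ V₂),
      Mono (ds G₁ G₂) L c j f → (∃ g : W → V₁, Mono G₁ L c₁ j g) ∨
        ∃ g : W → V₂, Mono G₂ L c₂ j g := by
    intro W L hL j f ⟨hf1, hf2⟩
    rcases one_side L hL f (by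
      intro u v huv
      have := (hf2 u v huv).1
      cases hu : f u <;> cases hv : f v
      · rfl
      · rw [hu, hv] at this
        exact this.elim
      · rw [hu, hv] at this
        exact this.elim
      · rfl) with ⟨g, hg⟩ | ⟨g, hg⟩
    · left
      refine ⟨g, fun a b hab => hf1 (by rw [hg, hg, hab]), fun u v huv => ?_⟩
      have := hf2 u v huv
      rw [hg, hg] at this
      exact this
    · right
      refine ⟨g, fun a b hab => hf1 (by rw [hg, hg, hab]), fun u v huv => ?_⟩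
      have := hf2 u v huv
      rw [hg, hg] at this
      exact this
  refine ⟨c, ?_, ?_, ?_, ?_⟩
  · rintro (a | a) (b | b)
    · exact hs1 a b
    · rfl
    · rfl
    · exact hs2 a b
  · rintro (a | a) (b | b) hab
    · exact hb1 a b hab
    · exact hab.elim
    · exact hab.elim
    · exact hb2 a b hab
  · intro f hf
    rcases key L0 n0 0 f hf with ⟨g, hg⟩ | ⟨g, hg⟩
    · exact h10 g hg
    · exact h20 g hg
  · intro j hj1 hj2 f hf
    rcases key L1 n1 j f hf with ⟨g, hg⟩ | ⟨g, hg⟩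
    · exact h1j j hj1 hj2 g hg
    · exact h2j j hj1 hj2 g hg

theorem clean {VX W0 W1 : Type} [Fintype VX] [Fintype W0] [Fintype W1] (L0 : SimpleGraph W0)
    (L1 : SimpleGraph W1) (n0 : NoSep L0) (n1 : NoSep L1) (c0 : 2 ≤ Fintype.card W0)
    (c1 : 2 ≤ Fintype.card W1) (X : SimpleGraph VX) (m : ℕ) (hX : Good X m L0 L1)
    (h2 : 2 ≤ Fintype.card VX) (R : ℕ) (hR : 1 ≤ R) (g : ℕ) : ∀ K : ℕ,
    ∃ (V : Type) (_ : Fintype V) (π : V → Fin g) (I : SimpleGraph V),
      (∀ u v, I.Adj u v → π u = π v) ∧ Good I m L0 L1 ∧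
      ∀ (δ : V → Fin K) (c : V → V → Fin R), (∀ a b, c a b = c b a) →
        ∃ (e : Fin g → VX → V) (κ : Fin g → Fin g → Fin R),
          (∀ v x, π (e v x) = v) ∧ (∀ v, Function.Injective (e v)) ∧
          (∀ v a b, X.Adj a b → I.Adj (e v a) (e v b)) ∧ (∀ v a b, δ (e v a) = δ (e v b)) ∧
          ∀ v w, v ≠ w → ∀ a b, c (e v a) (e w b) = κ v w := by
  obtain ⟨x₀⟩ : Nonempty VX := Fintype.card_pos_iff.mp (by omega)
  induction g with
  | zero =>
    intro K
    have hL0 : Nonempty W0 := Fintype.card_pos_iff.mp (by omega)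
    have hL1 : Nonempty W1 := Fintype.card_pos_iff.mp (by omega)
    refine ⟨Empty, inferInstance, fun x => x.elim, ⊥, fun u => u.elim, ⟨fun u => u.elim,
      fun u => u.elim, fun u => u.elim, ?_, ?_⟩, ?_⟩
    · intro f
      obtain ⟨w⟩ := hL0
      exact (f w).elim
    · intro j _ _ f
      obtain ⟨w⟩ := hL1
      exact (f w).elim
    · intro δ c _
      exact ⟨fun v => v.elim0, fun v => v.elim0, fun v => v.elim0, fun v => v.elim0,
        fun v => v.elim0, fun v => v.elim0, fun v => v.elim0⟩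
  | succ g ih =>
    intro K
    obtain ⟨V₁, _, π₁, I₁, hI₁, hG₁, h₁⟩ := ih (Fintype.card (Fin K × Fin R))
    obtain ⟨VZ, _, Z, hZ, h₂⟩ := vr_side L0 L1 n0 n1 c0 c1 X m hX h2
      (Fintype.card (Fin K × (V₁ → Fin R)))
    refine ⟨V₁ ⊕ VZ, inferInstance, Sum.elim (fun v => (π₁ v).castSucc) (fun _ => Fin.last g),
      ds I₁ Z, ?_, ds_good L0 L1 n0 n1 I₁ Z m hG₁ hZ, ?_⟩
    · rintro (a | a) (b | b) hab
      · exact congrArg Fin.castSucc (hI₁ a b hab)
      · exact hab.elim
      · exact hab.elim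
      · rfl
    · intro δ c hc
      obtain ⟨e₂, he1, he2, he3⟩ := h₂ (fun z => Fintype.equivFin (Fin K × (V₁ → Fin R))
        (δ (Sum.inr z), fun v => c (Sum.inl v) (Sum.inr z)))
      have he3' : ∀ a b, (δ (Sum.inr (e₂ a)), fun v => c (Sum.inl v) (Sum.inr (e₂ a))) =
          (δ (Sum.inr (e₂ b)), fun v => c (Sum.inl v) (Sum.inr (e₂ b))) := fun a b =>
        (Fintype.equivFin (Fin K × (V₁ → Fin R))).injective (he3 a b)
      obtain ⟨e₁, κ₁, k1, k2, k3, k4, k5⟩ := h₁ (fun v => Fintype.equivFin (Fin K × Fin R)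
        (δ (Sum.inl v), c (Sum.inl v) (Sum.inr (e₂ x₀)))) (fun a b => c (Sum.inl a) (Sum.inl b))
        (fun a b => hc _ _)
      have k4' : ∀ v a b, (δ (Sum.inl (e₁ v a)), c (Sum.inl (e₁ v a)) (Sum.inr (e₂ x₀))) =
          (δ (Sum.inl (e₁ v b)), c (Sum.inl (e₁ v b)) (Sum.inr (e₂ x₀))) := fun v a b =>
        (Fintype.equivFin (Fin K × Fin R)).injective (k4 v a b)
      have cross : ∀ v a b, c (Sum.inl (e₁ v a)) (Sum.inr (e₂ b)) =
          c (Sum.inl (e₁ v x₀)) (Sum.inr (e₂ x₀)) := by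
        intro v a b
        have h3 := congrFun (congrArg Prod.snd (he3' b x₀)) (e₁ v a)
        simp only at h3
        rw [h3]
        exact congrArg Prod.snd (k4' v a x₀)
      refine ⟨Fin.lastCases (fun x => Sum.inr (e₂ x)) (fun v x => Sum.inl (e₁ v x)),
        Fin.lastCases (Fin.lastCases (⟨0, hR⟩) (fun w => c (Sum.inl (e₁ w x₀)) (Sum.inr (e₂ x₀))))
          (fun v => Fin.lastCases (c (Sum.inl (e₁ v x₀)) (Sum.inr (e₂ x₀))) (fun w => κ₁ v w)),
        ?_, ?_, ?_, ?_, ?_⟩
      · intro v x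
        induction v using Fin.lastCases with
        | last => simp
        | cast v => simp [k1 v x]
      · intro v
        induction v using Fin.lastCases with
        | last =>
          simp only [Fin.lastCases_last]
          exact Sum.inr_injective.comp he1
        | cast v =>
          simp only [Fin.lastCases_castSucc]
          exact Sum.inl_injective.comp (k2 v)
      · intro v a b hab
        induction v using Fin.lastCases with
        | last =>
          simp only [Fin.lastCases_last]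
          exact he2 a b hab
        | cast v =>
          simp only [Fin.lastCases_castSucc]
          exact k3 v a b hab
      · intro v a b
        induction v using Fin.lastCases with
        | last =>
          simp only [Fin.lastCases_last]
          exact congrArg Prod.fst (he3' a b)
        | cast v =>
          simp only [Fin.lastCases_castSucc]
          exact congrArg Prod.fst (k4' v a b)
      · intro v w hvw a b
        induction v using Fin.lastCases with
        | last =>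
          induction w using Fin.lastCases with
          | last => exact absurd rfl hvw
          | cast w =>
            simp only [Fin.lastCases_castSucc, Fin.lastCases_last]
            rw [hc, cross]
        | cast v =>
          induction w using Fin.lastCases with
          | last =>
            simp only [Fin.lastCases_castSucc, Fin.lastCases_last]
            rw [cross]
          | cast w =>
            simp only [Fin.lastCases_castSucc]
            exact k5 v w (fun h => hvw (by rw [h])) a b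

end Pool.Agent.H65.RI
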