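import Pool.Agent.H65.RI.Defs

set_option autoImplicit false

/-!
Definitions for the general isolation theorem (chromatic number `p + 1`, every number of colours).
Everything lives in the namespace of `RI/Defs.lean`, whose definitions are reused.
-/

namespace Pool.Agent.H65.RI

open Finset Classical

/-- Complete `p`-partite graph with parts of size `τ` in colour `i`. -/
def MonoP {V : Type} (G : SimpleGraph V) (p τ : ℕ) (c : V → V → ℕ) (i : ℕ) : Prop :=
  ∃ g : Fin p → Fin τ → V, (∀ a, Function.Injective (g a)) ∧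
    ∀ a b, a ≠ b → ∀ x y, G.Adj (g a x) (g b y) ∧ c (g a x) (g b y) = i

/-- In every colouring with `R` colours there is a monochromatic copy of `B`, or there are fewer
than `t` colours without a complete `p`-partite graph. -/
def Rich {V W : Type} (G : SimpleGraph V) (R t : ℕ) (B : SimpleGraph W) (p τ : ℕ) : Prop :=
  ∀ c : V → V → ℕ, Sm c → (∀ a b, G.Adj a b → c a b < R) →
    (∃ i, i < R ∧ ∃ f : W → V, Mono G B c i f) ∨
      ((range R).filter (fun j => ¬ MonoP G p τ c j)).card < t

/-- `f` embeds the graph induced by `B` on `S` in colour `i`. -/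
def EmbS {V W : Type} (G : SimpleGraph V) (B : SimpleGraph W) (c : V → V → ℕ) (i : ℕ)
    (S : Set W) (f : W → V) : Prop :=
  Set.InjOn f S ∧ ∀ u ∈ S, ∀ v ∈ S, B.Adj u v → G.Adj (f u) (f v) ∧ c (f u) (f v) = i

/-- Every set of at most `n` vertices induces a `p`-colourable graph. -/
def LocCol {V : Type} (G : SimpleGraph V) (n p : ℕ) : Prop :=
  ∀ S : Finset V, S.card ≤ n → ∃ χ : V → Fin p, ∀ u ∈ S, ∀ v ∈ S, G.Adj u v → χ u ≠ χ v

/-- Every edge colouring with `R` colours has a monochromatic clique on `p` vertices. -/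
def KArr {V : Type} (G : SimpleGraph V) (p R : ℕ) : Prop :=
  ∀ κ : V → V → Fin R, (∀ a b, κ a b = κ b a) → ∃ l, ∃ v : Fin p → V,
    ∀ a b, a ≠ b → G.Adj (v a) (v b) ∧ κ (v a) (v b) = l

/-- Blow-up of `Γ`: the fibres of `π` carry the graph `I`, and fibres over adjacent vertices are
joined completely. -/
def Blow {V : Type} {g : ℕ} (Γ : SimpleGraph (Fin g)) (π : V → Fin g) (I : SimpleGraph V) :
    SimpleGraph V where
  Adj u v := I.Adj u v ∨ Γ.Adj (π u) (π v)
  symm := ⟨fun _ _ h => h.elim (fun h => Or.inl h.symm) (fun h => Or.inr h.symm)⟩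
  loopless := ⟨fun u h => h.elim (fun h => I.loopless.irrefl u h)
    (fun h => Γ.loopless.irrefl _ h)⟩

/-- The three kinds of parts. -/
inductive Kind where
  | I | D | F

/-- `B` induces on `S` a graph without edges (`I`), of maximum degree at most one (`D`), a forest
(`F`). -/
def KOn {W : Type} (t : Kind) (B : SimpleGraph W) (S : Set W) : Prop :=
  match t with
  | Kind.I => IndepOn B S
  | Kind.D => Deg1On B S
  | Kind.F => ForestOn B S

/-- `S` is the union of a set with the property `P0` and of sets of the kinds in the list. -/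
def PL {W : Type} (B : SimpleGraph W) (P0 : Set W → Prop) : List Kind → Set W → Prop
  | [], S => P0 S
  | t :: ts, S => ∃ S₁ S₂ : Set W, S = S₁ ∪ S₂ ∧ Disjoint S₁ S₂ ∧ PL B P0 ts S₁ ∧ KOn t B S₂

/-- Vertex partition into `p` sets inducing forests. -/
def FK {W : Type} (B : SimpleGraph W) (p : ℕ) : Prop :=
  ∃ col : W → Fin p, ∀ i, ForestOn B {w | col w = i}

/-- Colouring of `G` with `q` colours in which all monochromatic copies of `L` have colour `0` and
lie in the set `D`, whose components in colour `0` are embedded in `B` by `φ`. -/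
def PCX {V W WL : Type} (G : SimpleGraph V) (q : ℕ) (B : SimpleGraph W) (L : SimpleGraph WL) :
    Prop :=
  ∃ (c : V → V → ℕ) (D : Set V) (κ : V → ℕ) (φ : V → W), Sm c ∧
    (∀ a b, G.Adj a b → c a b < q) ∧
    (∀ (j : ℕ) (f : WL → V), Mono G L c j f → j = 0 ∧ ∀ w, f w ∈ D) ∧
    (∀ x ∈ D, ∀ y, G.Adj x y → c x y = 0 → y ∈ D ∧ κ y = κ x ∧ B.Adj (φ x) (φ y)) ∧
    ∀ x ∈ D, ∀ y ∈ D, κ x = κ y → φ x = φ y → x = y

/-- As `PCX`, with the additional colour `q`; sets of vertices of `L` which embed in colour `q`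
have the property `P`. -/
def PVX {V W WL : Type} (H : SimpleGraph V) (q : ℕ) (B : SimpleGraph W) (L : SimpleGraph WL)
    (P : Set WL → Prop) : Prop :=
  ∃ (c : V → V → ℕ) (D : Set V) (κ : V → ℕ) (φ : V → W), Sm c ∧
    (∀ a b, H.Adj a b → c a b ≤ q) ∧
    (∀ j : ℕ, j < q → ∀ f : WL → V, Mono H L c j f → j = 0 ∧ ∀ w, f w ∈ D) ∧
    (∀ x ∈ D, ∀ y, H.Adj x y → c x y = 0 → y ∈ D ∧ κ y = κ x ∧ B.Adj (φ x) (φ y)) ∧
    (∀ x ∈ D, ∀ y ∈ D, κ x = κ y → φ x = φ y → x = y) ∧
    ∀ (S : Set WL) (f : WL → V), EmbS H L c q S f → P S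

/-- `M` is a matching of `B` which meets every copy of `L` in `B`. -/
def HitM {W WL : Type} (B : SimpleGraph W) (L : SimpleGraph WL) (M : W → W → Prop) : Prop :=
  (∀ u v, M u v → M v u) ∧ (∀ u v v', M u v → M u v' → v = v') ∧
    ∀ f : WL → W, Function.Injective f → (∀ u v, L.Adj u v → B.Adj (f u) (f v)) →
      ∃ u v, L.Adj u v ∧ M (f u) (f v)

/-- For every vertex colouring with `K` colours and every edge colouring with `R` colours there is
a monochromatic copy of `B`, or a colour `i`, a copy of `A` (on vertices of one colour) in which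
all other colours contain complete `p`-partite graphs, and an embedding of the part `S` of `B` in
colour `i`, each of whose vertices has `|W|` twins. -/
def QS {V VA W : Type} (H : SimpleGraph V) (A : SimpleGraph VA) (R K : ℕ) (B : SimpleGraph W)
    (p τ : ℕ) (S : Set W) : Prop :=
  ∀ (δ : V → Fin K) (c : V → V → ℕ), Sm c → (∀ a b, H.Adj a b → c a b < R) →
    (∃ i, i < R ∧ ∃ f : W → V, Mono H B c i f) ∨
    ∃ i, i < R ∧
      (∃ e : VA → V, Function.Injective e ∧ (∀ a b, A.Adj a b → H.Adj (e a) (e b)) ∧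
        (∀ a b, δ (e a) = δ (e b)) ∧
        ∀ j, j < R → j ≠ i → MonoP A p τ (fun a b => c (e a) (e b)) j) ∧
      ∃ f : W → V, EmbS H B c i S f ∧
        ∀ x ∈ S, ∃ T : W → V, Function.Injective T ∧ ∀ a, δ (T a) = δ (f x)

end Pool.Agent.H65.RI
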