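import Pool.Agent.H65.RK.Defs
import Pool.Agent.H65.RI.Emb
import Pool.Agent.H65.RI.Misc

set_option autoImplicit false

/-!
Module PRT: partitions into parts of small degree, and lists of kinds.
-/

namespace Pool.Agent.H65.RI

open Finset Classical

/-- Maximum degree at most `2 p - 1`: partition into `p` sets of maximum degree at most one. -/
theorem lovasz_part {W : Type} [Fintype W] (B : SimpleGraph W) (p : ℕ) (hp : 1 ≤ p)
    (h : ∀ v, (univ.filter (fun w => B.Adj v w)).card ≤ 2 * p - 1) :
    ∃ col : W → Fin p, ∀ i, Deg1On B {w | col w = i} := by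
  haveI : NeZero p := ⟨by omega⟩
  let F : (W → Fin p) → W → W → ℕ := fun s a b => if B.Adj a b ∧ s a = s b then 1 else 0
  let Φ : (W → Fin p) → ℕ := fun s => ∑ a, ∑ b, F s a b
  obtain ⟨s, hs⟩ := Finite.exists_min Φ
  have key : ∀ (s : W → Fin p) (u : W), Φ s =
      2 * (univ.filter (fun b => B.Adj u b ∧ s u = s b)).card +
        ∑ a ∈ univ.erase u, ∑ b ∈ univ.erase u, F s a b := by
    intro s u
    have hsym : ∀ a b, F s a b = F s b a := by
      intro a b
      simp only [F, B.adj_comm a b, eq_comm (a := s a)]
    have huu : F s u u = 0 := by simp [F]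
    have hrow : ∑ b, F s u b = (univ.filter (fun b => B.Adj u b ∧ s u = s b)).card := by
      rw [Finset.card_filter]
    have h1 : Φ s = ∑ b, F s u b + ∑ a ∈ univ.erase u, ∑ b, F s a b :=
      (Finset.add_sum_erase univ (fun a => ∑ b, F s a b) (Finset.mem_univ u)).symm
    have h2 : ∑ a ∈ univ.erase u, ∑ b, F s a b =
        ∑ a ∈ univ.erase u, F s a u + ∑ a ∈ univ.erase u, ∑ b ∈ univ.erase u, F s a b := by
      rw [← Finset.sum_add_distrib]
      apply Finset.sum_congr rfl
      intro a _
      exact (Finset.add_sum_erase univ (fun b => F s a b) (Finset.mem_univ u)).symm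
    have h3 : ∑ a ∈ univ.erase u, F s a u = ∑ b, F s u b := by
      rw [← Finset.add_sum_erase univ (fun b => F s u b) (Finset.mem_univ u), huu, zero_add]
      exact Finset.sum_congr rfl (fun a _ => hsym a u)
    rw [h1, h2, h3, hrow]
    ring
  have hdeg : ∀ u, (univ.filter (fun b => B.Adj u b ∧ s u = s b)).card ≤ 1 := by
    intro u
    by_contra hcon
    push Not at hcon
    have hall : ∀ i : Fin p, 2 ≤ (univ.filter (fun b => B.Adj u b ∧ i = s b)).card := by
      intro i
      let s' : W → Fin p := Function.update s u i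
      have hk := key s u
      have hk' := key s' u
      have hR : ∑ a ∈ univ.erase u, ∑ b ∈ univ.erase u, F s' a b =
          ∑ a ∈ univ.erase u, ∑ b ∈ univ.erase u, F s a b := by
        apply Finset.sum_congr rfl
        intro a ha
        apply Finset.sum_congr rfl
        intro b hb
        have ha' := Finset.ne_of_mem_erase ha
        have hb' := Finset.ne_of_mem_erase hb
        simp only [F, s', Function.update_of_ne ha', Function.update_of_ne hb']
      have hE : (univ.filter (fun b => B.Adj u b ∧ s' u = s' b)) =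
          (univ.filter (fun b => B.Adj u b ∧ i = s b)) := by
        ext b
        simp only [Finset.mem_filter, Finset.mem_univ, true_and]
        constructor
        · rintro ⟨h1, h2⟩
          have hne : b ≠ u := fun hbu => B.loopless.irrefl u (hbu ▸ h1)
          simp only [s', Function.update_self, Function.update_of_ne hne] at h2
          exact ⟨h1, h2⟩
        · rintro ⟨h1, h2⟩
          have hne : b ≠ u := fun hbu => B.loopless.irrefl u (hbu ▸ h1)
          refine ⟨h1, ?_⟩
          simp only [s', Function.update_self, Function.update_of_ne hne]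
          exact h2
      have hmin := hs s'
      rw [hk, hk', hR, hE] at hmin
      omega
    have hsum : (univ.filter (fun b => B.Adj u b)).card =
        ∑ i : Fin p, (univ.filter (fun b => B.Adj u b ∧ i = s b)).card := by
      rw [Finset.card_eq_sum_card_fiberwise (f := s) (t := univ) (fun _ _ => Finset.mem_coe.2 (Finset.mem_univ _))]
      apply Finset.sum_congr rfl
      intro i _
      congr 1
      ext b
      simp [eq_comm]
    have hge : 2 * p ≤ ∑ i : Fin p, (univ.filter (fun b => B.Adj u b ∧ i = s b)).card := by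
      calc 2 * p = ∑ _i : Fin p, 2 := by simp [mul_comm]
        _ ≤ _ := Finset.sum_le_sum (fun i _ => hall i)
    have := h u
    omega
  refine ⟨s, ?_⟩
  intro β u hu v hv v' hv' huv huv'
  by_contra hne
  have h1 : ({v, v'} : Finset W) ⊆ univ.filter (fun b => B.Adj u b ∧ s u = s b) := by
    intro b hb
    rw [Finset.mem_insert, Finset.mem_singleton] at hb
    simp only [Set.mem_setOf_eq] at hu hv hv'
    rcases hb with rfl | rfl
    · exact Finset.mem_filter.2 ⟨Finset.mem_univ _, huv, by rw [hu, hv]⟩
    · exact Finset.mem_filter.2 ⟨Finset.mem_univ _, huv', by rw [hu, hv']⟩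
  have h2 := Finset.card_le_card h1
  rw [Finset.card_pair hne] at h2
  have := hdeg u
  omega

theorem h97_PL_append {W : Type} (B : SimpleGraph W) (P0 : Set W → Prop) (ts us : List Kind) :
    ∀ S : Set W, PL B P0 (ts ++ us) S ↔ PL B (fun T => PL B P0 us T) ts S := by
  induction ts with
  | nil => intro S; exact Iff.rfl
  | cons t ts ih =>
    intro S
    constructor
    · rintro ⟨S₁, S₂, h1, h2, h3, h4⟩
      exact ⟨S₁, S₂, h1, h2, (ih S₁).1 h3, h4⟩
    · rintro ⟨S₁, S₂, h1, h2, h3, h4⟩
      exact ⟨S₁, S₂, h1, h2, (ih S₁).2 h3, h4⟩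

theorem h97_PL_mono {W : Type} (B : SimpleGraph W) (P0 Q0 : Set W → Prop)
    (h : ∀ S, P0 S → Q0 S) (ts : List Kind) : ∀ S : Set W, PL B P0 ts S → PL B Q0 ts S := by
  induction ts with
  | nil => intro S hS; exact h S hS
  | cons t ts ih =>
    rintro S ⟨S₁, S₂, h1, h2, h3, h4⟩
    exact ⟨S₁, S₂, h1, h2, ih S₁ h3, h4⟩

theorem h97_PL_perm {W : Type} (B : SimpleGraph W) (P0 : Set W → Prop) {ts us : List Kind}
    (h : ts.Perm us) : ∀ S : Set W, PL B P0 ts S → PL B P0 us S := by
  induction h with
  | nil => exact fun S hS => hS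
  | cons t _ ih =>
    rintro S ⟨S₁, S₂, h1, h2, h3, h4⟩
    exact ⟨S₁, S₂, h1, h2, ih S₁ h3, h4⟩
  | swap x y l =>
    rintro S ⟨S₁, S₂, h1, h2, ⟨S₃, S₄, h3, h4, h5, h6⟩, h7⟩
    subst h1
    subst h3
    rw [Set.disjoint_union_left] at h2
    refine ⟨S₃ ∪ S₂, S₄, ?_, ?_, ⟨S₃, S₂, rfl, h2.1, h5, h7⟩, h6⟩
    · rw [Set.union_right_comm]
    · rw [Set.disjoint_union_left]
      exact ⟨h4, h2.2.symm⟩
  | trans _ _ ih1 ih2 => exact fun S hS => ih2 S (ih1 S hS)

theorem h97_PL_swap {W : Type} (B : SimpleGraph W) (ts : List Kind) (S : Set W)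
    (h : PL B (IndepOn B) (ts ++ [Kind.D]) S) : PL B (Deg1On B) (ts ++ [Kind.I]) S := by
  rw [h97_PL_append] at h ⊢
  refine h97_PL_mono B _ _ ?_ ts S h
  rintro T ⟨S₁, S₂, h1, h2, h3, h4⟩
  exact ⟨S₂, S₁, by rw [h1, Set.union_comm], h2.symm, h4, h3⟩

theorem h97_PL_of_col {W : Type} (B : SimpleGraph W) (P0 : Set W → Prop) (col : W → ℕ)
    (h0 : P0 {w | col w = 0}) (ts : List Kind)
    (h : ∀ t ∈ ts, ∀ i, KOn t B {w | col w = i}) :
    PL B P0 ts {w | col w ≤ ts.length} := by
  induction ts with
  | nil =>
    have : {w | col w ≤ ([] : List Kind).length} = {w | col w = 0} := by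
      ext w; simp
    show P0 _
    rw [this]; exact h0
  | cons t ts ih =>
    refine ⟨{w | col w ≤ ts.length}, {w | col w = ts.length + 1}, ?_, ?_,
      ih (fun t ht i => h t (List.mem_cons_of_mem _ ht) i), h t List.mem_cons_self _⟩
    · ext w
      simp only [List.length_cons, Set.mem_setOf_eq, Set.mem_union]
      omega
    · rw [Set.disjoint_left]
      intro w hw hw'
      simp only [Set.mem_setOf_eq] at hw hw'
      omega

theorem h97_col_of_PL {W : Type} (B : SimpleGraph W) (P0 Q : Set W → Prop)
    (hQ : ∀ S, P0 S → Q S) (ts : List Kind) (hk : ∀ t ∈ ts, ∀ S, KOn t B S → Q S)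
    (hemp : Q ∅) :
    ∀ S : Set W, PL B P0 ts S → ∃ col : W → ℕ, (∀ w, col w ≤ ts.length) ∧
      ∀ i, Q {w | w ∈ S ∧ col w = i} := by
  induction ts with
  | nil =>
    intro S hS
    refine ⟨fun _ => 0, fun _ => le_rfl, ?_⟩
    intro i
    by_cases hi : i = 0
    · subst hi
      have : {w | w ∈ S ∧ (0 : ℕ) = 0} = S := by ext w; simp
      rw [this]; exact hQ S hS
    · have : {w | w ∈ S ∧ (0 : ℕ) = i} = ∅ := by
        ext w; simp [Ne.symm hi]
      rw [this]; exact hemp
  | cons t ts ih =>
    rintro S ⟨S₁, S₂, h1, h2, h3, h4⟩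
    obtain ⟨col, hc1, hc2⟩ := ih (fun t ht => hk t (List.mem_cons_of_mem _ ht)) S₁ h3
    refine ⟨fun w => if w ∈ S₂ then ts.length + 1 else col w, ?_, ?_⟩
    · intro w
      have := hc1 w
      simp only [List.length_cons]
      split_ifs <;> omega
    · intro i
      by_cases hi : i = ts.length + 1
      · have : {w | w ∈ S ∧ (if w ∈ S₂ then ts.length + 1 else col w) = i} = S₂ := by
          ext w
          simp only [Set.mem_setOf_eq]
          constructor
          · rintro ⟨hw, hw'⟩
            by_contra hn
            rw [if_neg hn] at hw'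
            have := hc1 w
            omega
          · intro hw
            rw [if_pos hw]
            exact ⟨h1 ▸ Set.mem_union_right _ hw, hi.symm⟩
        rw [this]
        exact hk t List.mem_cons_self _ h4
      · have : {w | w ∈ S ∧ (if w ∈ S₂ then ts.length + 1 else col w) = i} =
            {w | w ∈ S₁ ∧ col w = i} := by
          ext w
          simp only [Set.mem_setOf_eq]
          constructor
          · rintro ⟨hw, hw'⟩
            by_cases hn : w ∈ S₂
            · rw [if_pos hn] at hw'
              exact absurd hw'.symm hi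
            · rw [if_neg hn] at hw'
              rw [h1] at hw
              rcases hw with hw | hw
              · exact ⟨hw, hw'⟩
              · exact absurd hw hn
          · rintro ⟨hw, hw'⟩
            have hn : w ∉ S₂ := fun h => (Set.disjoint_left.1 h2) hw h
            rw [if_neg hn]
            exact ⟨h1 ▸ Set.mem_union_left _ hw, hw'⟩
        rw [this]
        exact hc2 i

/-- From a partition into `p` sets of maximum degree at most one to a list of kinds. -/
theorem list_of_part {W : Type} [Fintype W] (B : SimpleGraph W) (p : ℕ)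
    (hn : ¬ B.Colorable p) (col : W → Fin p) (h : ∀ i, Deg1On B {w | col w = i}) :
    ∃ ts : List Kind, PL B (Deg1On B) ts Set.univ ∧ ¬ PL B (IndepOn B) ts Set.univ := by
  have hp : 1 ≤ p := by
    by_contra hp
    have hp0 : p = 0 := by omega
    subst hp0
    exact hn ⟨SimpleGraph.Coloring.mk col (fun {v w} _ => (col v).elim0)⟩
  let L : ℕ → List Kind := fun b => List.replicate b Kind.D ++ List.replicate (p - 1 - b) Kind.I
  have hex : ∃ b, b ≤ p - 1 ∧ PL B (Deg1On B) (L b) Set.univ := by
    refine ⟨p - 1, le_rfl, ?_⟩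
    have h1 : L (p - 1) = List.replicate (p - 1) Kind.D := by
      simp [L]
    rw [h1]
    have hc : ∀ i : ℕ, Deg1On B {w | (col w : ℕ) = i} := by
      intro i
      by_cases hi : i < p
      · have : {w | (col w : ℕ) = i} = {w | col w = ⟨i, hi⟩} := by
          ext w
          simp only [Set.mem_setOf_eq]
          exact ⟨fun hw => Fin.ext hw, fun hw => by rw [hw]⟩
        rw [this]; exact h _
      · have : {w | (col w : ℕ) = i} = ∅ := by
          ext w
          simp only [Set.mem_setOf_eq, Set.mem_empty_iff_false, iff_false]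
          have := (col w).2
          omega
        rw [this]
        intro u hu
        exact absurd hu (Set.notMem_empty _)
    have h2 := h97_PL_of_col B (Deg1On B) (fun w => (col w : ℕ)) (hc 0)
      (List.replicate (p - 1) Kind.D) (by
        intro t ht i
        rw [List.eq_of_mem_replicate ht]
        exact hc i)
    have h3 : {w | (col w : ℕ) ≤ (List.replicate (p - 1) Kind.D).length} = Set.univ := by
      ext w
      simp only [List.length_replicate, Set.mem_setOf_eq, Set.mem_univ, iff_true]
      have := (col w).2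
      omega
    rw [h3] at h2
    exact h2
  obtain ⟨hb1, hb2⟩ := Nat.find_spec hex
  set b := Nat.find hex with hb
  refine ⟨L b, hb2, ?_⟩
  intro hcon
  by_cases hb0 : b = 0
  · have hL : L b = List.replicate (p - 1) Kind.I := by
      simp [L, hb0]
    rw [hL] at hcon
    obtain ⟨c, hc1, hc2⟩ := h97_col_of_PL B (IndepOn B) (IndepOn B) (fun _ h => h)
      (List.replicate (p - 1) Kind.I) (by
        intro t ht S hS
        rw [List.eq_of_mem_replicate ht] at hS
        exact hS) (fun u hu => absurd hu (Set.notMem_empty _)) Set.univ hcon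
    simp only [List.length_replicate] at hc1
    apply hn
    refine ⟨SimpleGraph.Coloring.mk (fun w => (⟨c w, by have := hc1 w; omega⟩ : Fin p)) ?_⟩
    intro v w hvw heq
    have heq' : c v = c w := by
      have := congrArg Fin.val heq
      exact this
    exact hc2 (c v) v ⟨Set.mem_univ _, rfl⟩ w ⟨Set.mem_univ _, heq'.symm⟩ hvw
  · have hlt : b - 1 < b := by omega
    refine Nat.find_min hex (hb ▸ hlt) ⟨by omega, ?_⟩
    have hperm : (L b).Perm ((List.replicate (b - 1) Kind.D ++
        List.replicate (p - 1 - b) Kind.I) ++ [Kind.D]) := by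
      have h1 : L b = Kind.D :: (List.replicate (b - 1) Kind.D ++
          List.replicate (p - 1 - b) Kind.I) := by
        have hb' : b = (b - 1) + 1 := by omega
        simp only [L]
        conv_lhs => rw [hb', List.replicate_succ]
        rw [← hb']
        rfl
      rw [h1]
      exact (List.perm_append_singleton _ _).symm
    have h1 := h97_PL_perm B (IndepOn B) hperm _ hcon
    have h2 := h97_PL_swap B _ _ h1
    have h3 : L (b - 1) = (List.replicate (b - 1) Kind.D ++
        List.replicate (p - 1 - b) Kind.I) ++ [Kind.I] := by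
      simp only [L]
      have : p - 1 - (b - 1) = (p - 1 - b) + 1 := by omega
      rw [this, List.replicate_succ', List.append_assoc]
    rw [h3]
    exact h2

theorem h97_indep_KOn {W : Type} (B : SimpleGraph W) (S : Set W) (h : IndepOn B S) (t : Kind) :
    KOn t B S := by
  cases t with
  | I => exact h
  | D => exact fun u hu v hv _ _ huv _ => absurd huv (h u hu v hv)
  | F =>
    intro A hA hAS
    have h0 : (A ×ˢ A).filter (fun p => B.Adj p.1 p.2) = ∅ := by
      apply Finset.filter_eq_empty_iff.2
      intro x hx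
      rw [Finset.mem_product] at hx
      exact h _ (hAS hx.1) _ (hAS hx.2)
    rw [h0]
    have := hA.card_pos
    simp only [Finset.card_empty]
    omega

theorem h97_KOn_forest {W : Type} (B : SimpleGraph W) (S : Set W) (t : Kind) (h : KOn t B S) :
    ForestOn B S := by
  cases t with
  | I => exact h97_indep_KOn B S h Kind.F
  | D => exact forestOn_of_deg1 B S h
  | F => exact h

/-- A list of kinds as in the isolation theorem gives a partition into `p` forests. -/
theorem fk_of_pl {W : Type} [Fintype W] (B : SimpleGraph W) (p : ℕ)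
    (hc : B.Colorable (p + 1)) (ts : List Kind) (h1 : PL B (Deg1On B) ts Set.univ)
    (h2 : ¬ PL B (IndepOn B) ts Set.univ) : FK B p := by
  have hlen : ts.length < p := by
    by_contra hge
    push Not at hge
    apply h2
    obtain ⟨C⟩ := hc
    have hi : ∀ i : ℕ, IndepOn B {w | ((C w : Fin (p + 1)) : ℕ) = i} := by
      intro i u hu v hv huv
      simp only [Set.mem_setOf_eq] at hu hv
      exact C.valid huv (Fin.ext (hu.trans hv.symm))
    have h3 := h97_PL_of_col B (IndepOn B) (fun w => ((C w : Fin (p + 1)) : ℕ)) (hi 0) ts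
      (fun t _ i => h97_indep_KOn B _ (hi i) t)
    have h4 : {w | ((C w : Fin (p + 1)) : ℕ) ≤ ts.length} = Set.univ := by
      ext w
      simp only [Set.mem_setOf_eq, Set.mem_univ, iff_true]
      have := (C w).2
      omega
    rw [h4] at h3
    exact h3
  obtain ⟨col, hc1, hc2⟩ := h97_col_of_PL B (Deg1On B) (ForestOn B)
    (fun S hS => forestOn_of_deg1 B S hS) ts (fun t _ S hS => h97_KOn_forest B S t hS)
    (by
      intro A hA hAS
      obtain ⟨a, ha⟩ := hA
      exact absurd (hAS ha) (Set.notMem_empty _)) Set.univ h1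
  refine ⟨fun w => ⟨col w, by have := hc1 w; omega⟩, ?_⟩
  intro i
  have h5 : {w | (⟨col w, by have := hc1 w; omega⟩ : Fin p) = i} =
      {w | w ∈ Set.univ ∧ col w = (i : ℕ)} := by
    ext w
    simp only [Set.mem_setOf_eq, Set.mem_univ, true_and]
    exact ⟨fun hw => by rw [← hw], fun hw => Fin.ext hw⟩
  rw [h5]
  exact hc2 i

end Pool.Agent.H65.RI
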