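import Pool.Agent.H65.RK.Kin
import Pool.Agent.H65.RK.Prt
import Pool.Agent.H65.RI.Blk

set_option autoImplicit false

/-!
Sets of edges which carry only small parts, and block graphs.
-/

namespace Pool.Agent.H65.RI

open Finset Classical

/-- Replace the kind `T` by `I`. -/
def phK (T t : Kind) : Kind := match T, t with
  | Kind.D, Kind.D => Kind.I
  | Kind.F, Kind.F => Kind.I
  | _, t => t

/-- Sets of vertices of `H` embedded with all their edges into `M` have the kind `T`. -/
def EM {V W : Type} (T : Kind) (H : SimpleGraph W) (M : V → V → Prop) : Prop :=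
  ∀ (S : Set W) (f : W → V), Set.InjOn f S →
    (∀ u ∈ S, ∀ v ∈ S, H.Adj u v → M (f u) (f v)) → KOn T H S

theorem kOn_mono {W : Type} (t : Kind) (H : SimpleGraph W) (S S' : Set W) (h : S' ⊆ S)
    (hS : KOn t H S) : KOn t H S' := by
  cases t with
  | I => exact fun u hu v hv => hS u (h hu) v (h hv)
  | D => exact fun u hu v hv v' hv' => hS u (h hu) v (h hv) v' (h hv')
  | F => exact h91_forestOn_mono H S S' h hS

theorem kOn_emb {W WL : Type} (t : Kind) (B : SimpleGraph W) (L : SimpleGraph WL) (S : Set W)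
    (X : Set WL) (f : WL → W) (hf : Set.InjOn f X) (hX : ∀ u ∈ X, f u ∈ S)
    (hadj : ∀ u ∈ X, ∀ v ∈ X, L.Adj u v → B.Adj (f u) (f v)) (h : KOn t B S) : KOn t L X := by
  cases t with
  | I => exact fun u hu v hv huv => h _ (hX u hu) _ (hX v hv) (hadj u hu v hv huv)
  | D =>
    intro u hu v hv v' hv' huv huv'
    exact hf hv hv' (h _ (hX u hu) _ (hX v hv) _ (hX v' hv') (hadj u hu v hv huv)
      (hadj u hu v' hv' huv'))
  | F =>
    intro A hA hAX
    have key := h (A.image f) (hA.image f) (by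
      intro x hx
      obtain ⟨a, ha, rfl⟩ := Finset.mem_image.mp (Finset.mem_coe.mp hx)
      exact hX a (hAX ha))
    rw [Finset.card_image_of_injOn (hf.mono hAX)] at key
    have : ((A ×ˢ A).filter (fun p => L.Adj p.1 p.2)).card ≤
        ((A.image f ×ˢ A.image f).filter (fun p => B.Adj p.1 p.2)).card := by
      apply Finset.card_le_card_of_injOn (fun p => (f p.1, f p.2))
      · intro p hp
        obtain ⟨h1, h2⟩ := Finset.mem_filter.mp (Finset.mem_coe.mp hp)
        rw [Finset.mem_product] at h1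
        exact Finset.mem_coe.mpr (Finset.mem_filter.mpr ⟨Finset.mem_product.mpr
          ⟨Finset.mem_image_of_mem f h1.1, Finset.mem_image_of_mem f h1.2⟩,
            hadj _ (hAX h1.1) _ (hAX h1.2) h2⟩)
      · intro p hp p' hp' hpp
        obtain ⟨h1, -⟩ := Finset.mem_filter.mp (Finset.mem_coe.mp hp)
        obtain ⟨h1', -⟩ := Finset.mem_filter.mp (Finset.mem_coe.mp hp')
        rw [Finset.mem_product] at h1 h1'
        exact Prod.ext (hf (hAX h1.1) (hAX h1'.1) (congrArg Prod.fst hpp))
          (hf (hAX h1.2) (hAX h1'.2) (congrArg Prod.snd hpp))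
    omega

theorem kOn_empty {W : Type} (t : Kind) (H : SimpleGraph W) : KOn t H ∅ :=
  h97_indep_KOn H ∅ (fun _ hu => absurd hu (Set.notMem_empty _)) t

theorem em_false {V W : Type} (T : Kind) (H : SimpleGraph W) :
    EM T H (fun _ _ : V => False) := by
  intro S f _ h
  exact h97_indep_KOn H S (fun u hu v hv huv => h u hu v hv huv) T

theorem em_DF {V W : Type} (H : SimpleGraph W) (M : V → V → Prop) (h : EM Kind.D H M) :
    EM Kind.F H M := fun S f hf hM => forestOn_of_deg1 H S (h S f hf hM)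

/-- Sum of two relations. -/
def sumM {V₁ V₂ : Type} (M₁ : V₁ → V₁ → Prop) (M₂ : V₂ → V₂ → Prop) :
    V₁ ⊕ V₂ → V₁ ⊕ V₂ → Prop := fun x y => match x, y with
  | Sum.inl a, Sum.inl b => M₁ a b
  | Sum.inr a, Sum.inr b => M₂ a b
  | _, _ => False

theorem sumM_symm {V₁ V₂ : Type} (M₁ : V₁ → V₁ → Prop) (M₂ : V₂ → V₂ → Prop)
    (h₁ : ∀ u v, M₁ u v → M₁ v u) (h₂ : ∀ u v, M₂ u v → M₂ v u) :
    ∀ u v, sumM M₁ M₂ u v → sumM M₁ M₂ v u := by
  rintro (u | u) (v | v) h
  · exact h₁ u v h
  · exact h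
  · exact h
  · exact h₂ u v h

theorem em_sum {V₁ V₂ W : Type} [Fintype W] (T : Kind) (H : SimpleGraph W)
    (M₁ : V₁ → V₁ → Prop) (M₂ : V₂ → V₂ → Prop) (h₁ : EM T H M₁) (h₂ : EM T H M₂) :
    EM T H (sumM M₁ M₂) := by
  intro S f hf hM
  refine kOn_union T H S (fun u => (f u).isLeft) ?_ ?_
  · intro u hu v hv huv
    have := hM u hu v hv huv
    cases h1 : f u <;> cases h2 : f v <;> rw [h1, h2] at this
    · rfl
    · exact this.elim
    · exact this.elim
    · rfl
  · rintro (_ | _)
    · rcases Set.eq_empty_or_nonempty {u | u ∈ S ∧ (f u).isLeft = false} with h0 | ⟨w, hw⟩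
      · rw [h0]
        exact kOn_empty T H
      · obtain ⟨v0, hv0⟩ : ∃ v0, f w = Sum.inr v0 := by
          cases h : f w with
          | inl a => rw [Set.mem_setOf_eq, h] at hw; simp at hw
          | inr a => exact ⟨a, rfl⟩
        have hl : ∀ x, x ∈ S ∧ (f x).isLeft = false →
            f x = Sum.inr ((f x).elim (fun _ => v0) id) := by
          rintro x ⟨-, hx⟩
          cases h : f x with
          | inl a => rw [h] at hx; simp at hx
          | inr a => rfl
        apply h₂ _ (fun u => (f u).elim (fun _ => v0) id)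
        · intro x hx y hy hxy
          apply hf hx.1 hy.1
          rw [hl x hx, hl y hy]
          exact congrArg Sum.inr hxy
        · intro u hu v hv huv
          have := hM u hu.1 v hv.1 huv
          rw [hl u hu, hl v hv] at this
          exact this
    · rcases Set.eq_empty_or_nonempty {u | u ∈ S ∧ (f u).isLeft = true} with h0 | ⟨w, hw⟩
      · rw [h0]
        exact kOn_empty T H
      · obtain ⟨v0, hv0⟩ : ∃ v0, f w = Sum.inl v0 := by
          cases h : f w with
          | inl a => exact ⟨a, rfl⟩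
          | inr a => rw [Set.mem_setOf_eq, h] at hw; simp at hw
        have hl : ∀ x, x ∈ S ∧ (f x).isLeft = true →
            f x = Sum.inl ((f x).elim id (fun _ => v0)) := by
          rintro x ⟨-, hx⟩
          cases h : f x with
          | inl a => rfl
          | inr a => rw [h] at hx; simp at hx
        apply h₁ _ (fun u => (f u).elim id (fun _ => v0))
        · intro x hx y hy hxy
          apply hf hx.1 hy.1
          rw [hl x hx, hl y hy]
          exact congrArg Sum.inl hxy
        · intro u hu v hv huv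
          have := hM u hu.1 v hv.1 huv
          rw [hl u hu, hl v hv] at this
          exact this

/-- Copies of a relation. -/
def cpsM {α V : Type} (M : V → V → Prop) : α × V → α × V → Prop :=
  fun x y => x.1 = y.1 ∧ M x.2 y.2

theorem cpsM_symm {α V : Type} (M : V → V → Prop) (h : ∀ u v, M u v → M v u) :
    ∀ u v : α × V, cpsM M u v → cpsM M v u := fun _ _ huv => ⟨huv.1.symm, h _ _ huv.2⟩

theorem em_cps {α V W : Type} [Fintype W] (T : Kind) (H : SimpleGraph W) (M : V → V → Prop)
    (h : EM T H M) : EM T H (cpsM (α := α) M) := by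
  intro S f hf hM
  refine kOn_union T H S (fun u => (f u).1) (fun u hu v hv huv => (hM u hu v hv huv).1) ?_
  intro a
  refine h _ (fun u => (f u).2) ?_ (fun u hu v hv huv => (hM u hu.1 v hv.1 huv).2)
  intro u hu v hv huv
  exact hf hu.1 hv.1 (Prod.ext (hu.2.trans hv.2.symm) huv)

theorem em_comap {V V' W : Type} (T : Kind) (H : SimpleGraph W) (M : V → V → Prop) (σ : V' → V)
    (hσ : Function.Injective σ) (h : EM T H M) : EM T H (fun a b => M (σ a) (σ b)) :=
  fun S f hf hM => h S (fun u => σ (f u)) (fun _ hu _ hv huv => hf hu hv (hσ huv)) hM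

theorem em_sub {V W : Type} (T : Kind) (H : SimpleGraph W) (M M' : V → V → Prop)
    (hM : ∀ a b, M' a b → M a b) (h : EM T H M) : EM T H M' :=
  fun S f hf h' => h S f hf (fun u hu v hv huv => hM _ _ (h' u hu v hv huv))

/-- Colour `q` of a system of copies of a graph in which this colour contains only forests. -/
theorem forest_sys {W ι : Type} [Fintype W] (B : SimpleGraph W) {n m R : ℕ} (hn : 2 ≤ n)
    (E : ι → Fin n → Fin m × Fin 1) (hS : Sparse E R) (hR : (Fintype.card W) ^ 2 ≤ R)
    (hR2 : 2 ≤ R)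
    (Y : SimpleGraph (Fin n)) (cY : Fin n → Fin n → ℕ) (q : ℕ)
    (hEM : EM Kind.F B (fun a b => Y.Adj a b ∧ cY a b = q))
    (cX : Fin m × Fin 1 → Fin m × Fin 1 → ℕ)
    (hcX : ∀ j a b, Y.Adj a b → cX (E j a) (E j b) = cY a b) (S : Set W) (f : W → Fin m × Fin 1)
    (hf : EmbS (Sys E Y ⊥) B cX q S f) : ForestOn B S := by
  intro A hA hAS
  set P := (A ×ˢ A).filter (fun p => B.Adj p.1 p.2) with hP
  have hPm : ∀ p, p ∈ P ↔ (p.1 ∈ A ∧ p.2 ∈ A) ∧ B.Adj p.1 p.2 := by
    intro p
    rw [hP, Finset.mem_filter, Finset.mem_product]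
  have hA1 : 1 ≤ A.card := hA.card_pos
  rcases P.eq_empty_or_nonempty with h0 | hne
  · rw [h0, Finset.card_empty]
    omega
  obtain ⟨p0, hp0⟩ := hne
  have inj := sparse_inj hS (by omega) (by omega)
  -- every pair lies on a hyperedge
  have hex : ∀ p ∈ P, ∃ j a b, Y.Adj a b ∧ cY a b = q ∧ E j a = f p.1 ∧ E j b = f p.2 := by
    intro p hp
    obtain ⟨⟨h1, h2⟩, h3⟩ := (hPm p).mp hp
    obtain ⟨h4, h5⟩ := hf.2 p.1 (hAS h1) p.2 (hAS h2) h3
    rcases h4.2 with ⟨j, a, b, hab, e1, e2⟩ | ⟨l, a, b, hab, -, -⟩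
    · refine ⟨j, a, b, hab, ?_, e1, e2⟩
      rw [← hcX j a b hab, e1, e2]
      exact h5
    · exact absurd hab (by simp)
  obtain ⟨j0, a0, -⟩ := hex p0 hp0
  let jj : W × W → ι := fun p => if h : ∃ j a b, Y.Adj a b ∧ cY a b = q ∧ E j a = f p.1 ∧
    E j b = f p.2 then h.choose else j0
  have hjj : ∀ p ∈ P, ∃ a b, Y.Adj a b ∧ cY a b = q ∧ E (jj p) a = f p.1 ∧ E (jj p) b = f p.2 := by
    intro p hp
    have h := hex p hp
    simp only [jj]
    rw [dif_pos h]
    exact h.choose_spec
  set J := P.image jj with hJ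
  have hJ1 : 1 ≤ J.card := Finset.card_pos.mpr ⟨_, Finset.mem_image_of_mem jj hp0⟩
  have hJP : J.card ≤ P.card := Finset.card_image_le
  have hPR : P.card ≤ R := by
    calc P.card ≤ (univ : Finset (W × W)).card := Finset.card_le_card (Finset.subset_univ _)
      _ = (Fintype.card W) ^ 2 := by rw [Finset.card_univ, Fintype.card_prod, sq]
      _ ≤ R := hR
  have hsp := hS J ∅ (by simpa using hJ1) (by simpa using hJP.trans hPR)
  simp only [Finset.card_empty, zero_mul, add_zero, Finset.empty_product,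
    Finset.union_empty] at hsp
  -- the pairs of one hyperedge
  have hsum : P.card = ∑ j ∈ J, (P.filter (fun p => jj p = j)).card := by
    rw [hJ]
    exact Finset.card_eq_sum_card_image jj P
  -- the vertices of one hyperedge
  let Aj : ι → Finset W := fun j => (P.filter (fun p => jj p = j)).image Prod.fst
  have hswap : ∀ p ∈ P, (p.2, p.1) ∈ P ∧ jj (p.2, p.1) = jj p := by
    intro p hp
    obtain ⟨⟨h1, h2⟩, h3⟩ := (hPm p).mp hp
    have hp' : (p.2, p.1) ∈ P := (hPm _).mpr ⟨⟨h2, h1⟩, h3.symm⟩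
    refine ⟨hp', ?_⟩
    obtain ⟨a, b, hab, -, e1, e2⟩ := hjj p hp
    obtain ⟨a', b', hab', -, e1', e2'⟩ := hjj _ hp'
    have := hyper_uniq hS hR2 (by omega) le_rfl (j := jj p) (j' := jj (p.2, p.1)) (a := a) (b := b)
      (a' := b') (b' := a') hab.ne (e2'.trans e1.symm) (e1'.trans e2.symm)
    exact this.1
  have hAj : ∀ j, ∀ u ∈ Aj j, u ∈ A ∧ ∃ a, E j a = f u := by
    intro j u hu
    obtain ⟨p, hp, rfl⟩ := Finset.mem_image.mp hu
    obtain ⟨hp1, hp2⟩ := Finset.mem_filter.mp hp
    obtain ⟨a, b, -, -, e1, -⟩ := hjj p hp1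
    rw [hp2] at e1
    exact ⟨((hPm p).mp hp1).1.1, a, e1⟩
  have htwo : ∀ j ∈ J, (P.filter (fun p => jj p = j)).card + 2 ≤ 2 * (Aj j).card := by
    intro j hj
    obtain ⟨p, hp, hpj⟩ := Finset.mem_image.mp hj
    have hne : (Aj j).Nonempty :=
      ⟨p.1, Finset.mem_image.mpr ⟨p, Finset.mem_filter.mpr ⟨hp, hpj⟩, rfl⟩⟩
    let g : W → Fin n := fun u => if h : ∃ a, E j a = f u then h.choose else a0
    have hg : ∀ u ∈ Aj j, E j (g u) = f u := by
      intro u hu
      have h := (hAj j u hu).2
      simp only [g]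
      rw [dif_pos h]
      exact h.choose_spec
    have hF : ForestOn B (↑(Aj j) : Set W) := by
      apply hEM _ g
      · intro u hu v hv huv
        have h1 := hAj j u hu
        have h2 := hAj j v hv
        exact hf.1 (hAS h1.1) (hAS h2.1) (by rw [← hg u hu, ← hg v hv, huv])
      · intro u hu v hv huv
        have h1 := hAj j u hu
        have h2 := hAj j v hv
        have hP' : (u, v) ∈ P := (hPm _).mpr ⟨⟨h1.1, h2.1⟩, huv⟩
        obtain ⟨a, b, hab, hq, e1, e2⟩ := hjj _ hP'
        obtain ⟨-, e3, e4⟩ := hyper_uniq hS hR2 (by omega) le_rfl (j := jj (u, v)) (j' := j)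
          (a := a) (b := b) (a' := g u) (b' := g v) hab.ne ((hg u hu).trans e1.symm)
          ((hg v hv).trans e2.symm)
        rw [e3, e4]
        exact ⟨hab, hq⟩
    have h2 := hF (Aj j) hne (fun _ h => h)
    refine le_trans (Nat.add_le_add_right (Finset.card_le_card ?_) 2) h2
    intro r hr
    obtain ⟨hr1, hr2⟩ := Finset.mem_filter.mp hr
    obtain ⟨hs1, hs2⟩ := hswap r hr1
    refine Finset.mem_filter.mpr ⟨Finset.mem_product.mpr ⟨?_, ?_⟩, ((hPm r).mp hr1).2⟩
    · exact Finset.mem_image.mpr ⟨r, hr, rfl⟩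
    · exact Finset.mem_image.mpr ⟨(r.2, r.1), Finset.mem_filter.mpr ⟨hs1, hs2.trans hr2⟩, rfl⟩
  -- vertices of one hyperedge outside the image
  have hone : ∀ j ∈ J, ((univ.image (E j)) \ (A.image f)).card + (Aj j).card ≤ n := by
    intro j _
    have hinj : Set.InjOn f (↑(Aj j) : Set W) := by
      intro u hu v hv huv
      exact hf.1 (hAS (hAj j u hu).1) (hAS (hAj j v hv).1) huv
    rw [← Finset.card_image_of_injOn hinj, ← Finset.card_union_of_disjoint]
    · refine (Finset.card_le_card (?_ : _ ⊆ univ.image (E j))).trans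
        (Finset.card_image_le.trans (by simp))
      intro x hx
      rcases Finset.mem_union.mp hx with hx | hx
      · exact (Finset.mem_sdiff.mp hx).1
      · obtain ⟨u, hu, rfl⟩ := Finset.mem_image.mp hx
        obtain ⟨-, a, ha⟩ := hAj j u hu
        exact Finset.mem_image.mpr ⟨a, Finset.mem_univ _, ha⟩
    · rw [Finset.disjoint_left]
      intro x hx hx'
      obtain ⟨u, hu, rfl⟩ := Finset.mem_image.mp hx'
      exact (Finset.mem_sdiff.mp hx).2 (Finset.mem_image_of_mem f (hAj j u hu).1)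
  have hun : (J.biUnion (fun j => univ.image (E j))).card ≤
      A.card + ∑ j ∈ J, ((univ.image (E j)) \ (A.image f)).card := by
    have hsub : J.biUnion (fun j => univ.image (E j)) ⊆
        A.image f ∪ J.biUnion (fun j => (univ.image (E j)) \ (A.image f)) := by
      intro x hx
      obtain ⟨j, hj, hxj⟩ := Finset.mem_biUnion.mp hx
      by_cases h : x ∈ A.image f
      · exact Finset.mem_union_left _ h
      · exact Finset.mem_union_right _ (Finset.mem_biUnion.mpr
          ⟨j, hj, Finset.mem_sdiff.mpr ⟨hxj, h⟩⟩)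
    refine (Finset.card_le_card hsub).trans ((Finset.card_union_le _ _).trans ?_)
    exact Nat.add_le_add Finset.card_image_le Finset.card_biUnion_le
  have hall : ∑ j ∈ J, ((univ.image (E j)) \ (A.image f)).card + ∑ j ∈ J, (Aj j).card ≤
      J.card * n := by
    rw [← Finset.sum_add_distrib, ← smul_eq_mul, ← Finset.sum_const]
    exact Finset.sum_le_sum hone
  have hall2 : P.card + 2 * J.card ≤ 2 * ∑ j ∈ J, (Aj j).card := by
    rw [hsum, mul_comm 2 J.card, ← smul_eq_mul J.card, ← Finset.sum_const, Finset.mul_sum,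
      ← Finset.sum_add_distrib]
    exact Finset.sum_le_sum htwo
  have hmul : J.card * n = J.card * (n - 1) + J.card := by
    obtain ⟨n', rfl⟩ : ∃ n', n = n' + 1 := ⟨n - 1, by omega⟩
    simp
    ring
  omega

end Pool.Agent.H65.RI
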