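import Pool.Agent.H65.RK.Src
import Pool.Agent.H65.RK.Cln

set_option autoImplicit false

/-!
Module RCH: blow-ups and rich graphs.
-/

namespace Pool.Agent.H65.RI

open Finset Classical

/-- Poor colours can only disappear when a complete multipartite graph is transported. -/
theorem h29_monoP_map {V V' : Type} (G : SimpleGraph V) (G' : SimpleGraph V') (e : V → V')
    (he : Function.Injective e) (hadj : ∀ a b, G.Adj a b → G'.Adj (e a) (e b)) (p τ : ℕ)
    (c : V' → V' → ℕ) (j : ℕ) (h : MonoP G p τ (fun a b => c (e a) (e b)) j) :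
    MonoP G' p τ c j := by
  obtain ⟨g, hg, hg2⟩ := h
  exact ⟨fun a x => e (g a x), fun a => he.comp (hg a),
    fun a b hab x y => ⟨hadj _ _ (hg2 a b hab x y).1, (hg2 a b hab x y).2⟩⟩

/-- Transport along an equivalence. -/
theorem rich_comap {V V' W : Type} (G : SimpleGraph V) (σ : V' ≃ V) (R t p τ : ℕ)
    (B : SimpleGraph W) (h : Rich G R t B p τ) : Rich (G.comap σ) R t B p τ := by
  intro c hS hc
  have h1 := h (fun a b => c (σ.symm a) (σ.symm b)) (fun a b => hS _ _) (fun a b hab => by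
    apply hc
    rw [SimpleGraph.comap_adj]
    simpa using hab)
  have hadj : ∀ a b, G.Adj a b → (G.comap σ).Adj (σ.symm a) (σ.symm b) := by
    intro a b hab
    rw [SimpleGraph.comap_adj]
    simpa using hab
  rcases h1 with ⟨i, hi, f, hf, hf2⟩ | h1
  · exact Or.inl ⟨i, hi, σ.symm ∘ f, σ.symm.injective.comp hf,
      fun u v huv => ⟨hadj _ _ (hf2 u v huv).1, (hf2 u v huv).2⟩⟩
  · refine Or.inr (lt_of_le_of_lt (card_le_card ?_) h1)
    intro j hj
    rw [mem_filter] at hj ⊢
    exact ⟨hj.1, fun h2 => hj.2 (h29_monoP_map G (G.comap σ) σ.symm σ.symm.injective hadj p τ c j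
      h2)⟩

/-- A complete `p`-partite graph in colour `l` together with `|W|` further vertices joined to it
in colour `l` contains `B` if `B` is `p + 1`-colourable. -/
theorem mono_of_multi {V W : Type} [Fintype W] (G : SimpleGraph V) (B : SimpleGraph W)
    (p τ : ℕ) (hτ : Fintype.card W ≤ τ) (hc : B.Colorable (p + 1)) (c : V → V → ℕ) (hS : Sm c)
    (l : ℕ) (g : Fin p → Fin τ → V) (hg : ∀ a, Function.Injective (g a))
    (hg2 : ∀ a b, a ≠ b → ∀ x y, G.Adj (g a x) (g b y) ∧ c (g a x) (g b y) = l)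
    (T : W → V) (hT : Function.Injective T)
    (hT2 : ∀ w a x, G.Adj (T w) (g a x) ∧ c (T w) (g a x) = l) :
    ∃ f : W → V, Mono G B c l f := by
  obtain ⟨C⟩ := hc
  obtain ⟨emb⟩ : Nonempty (W ↪ Fin τ) :=
    Function.Embedding.nonempty_of_card_le (by simpa using hτ)
  let f : W → V := fun w => if h : (C w).1 < p then g ⟨(C w).1, h⟩ (emb w) else T w
  have key : ∀ u v, C u ≠ C v → G.Adj (f u) (f v) ∧ c (f u) (f v) = l := by
    intro u v huv
    by_cases hu : (C u).1 < p
    · by_cases hv : (C v).1 < p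
      · simp only [f, dif_pos hu, dif_pos hv]
        exact hg2 _ _ (fun h => huv (Fin.ext (by simpa using h))) _ _
      · simp only [f, dif_pos hu, dif_neg hv]
        have := hT2 v ⟨(C u).1, hu⟩ (emb u)
        exact ⟨this.1.symm, by rw [hS]; exact this.2⟩
    · by_cases hv : (C v).1 < p
      · simp only [f, dif_neg hu, dif_pos hv]
        exact hT2 u ⟨(C v).1, hv⟩ (emb v)
      · exfalso
        apply huv
        apply Fin.ext
        have := (C u).2
        have := (C v).2
        omega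
  refine ⟨f, ?_, fun u v huv => key u v (C.valid huv)⟩
  intro u v huv
  by_cases hC : C u = C v
  · by_cases hu : (C u).1 < p
    · have hv : (C v).1 < p := by rw [← hC]; exact hu
      simp only [f, dif_pos hu, dif_pos hv] at huv
      have h2 : (⟨(C u).1, hu⟩ : Fin p) = ⟨(C v).1, hv⟩ := by
        apply Fin.ext
        simp [hC]
      rw [h2] at huv
      exact emb.injective (hg _ huv)
    · have hv : ¬ (C v).1 < p := by rw [← hC]; exact hu
      simp only [f, dif_neg hu, dif_neg hv] at huv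
      exact hT huv
  · exact absurd huv (key u v hC).1.ne

theorem blow_good {V W0 W1 : Type} [Fintype W0] [Fintype W1] (L0 : SimpleGraph W0)
    (L1 : SimpleGraph W1) (n0 : NoSep L0) (n1 : NoSep L1) (c0 : 2 ≤ Fintype.card W0)
    (c1 : 2 ≤ Fintype.card W1) {g : ℕ} (Γ : SimpleGraph (Fin g)) (π : V → Fin g)
    (I : SimpleGraph V) (hI : ∀ u v, I.Adj u v → π u = π v) (m p n : ℕ) (hG : Good I m L0 L1)
    (hΓ : LocCol Γ n p) (hn : Fintype.card W0 ≤ n ∧ Fintype.card W1 ≤ n)
    (h0 : 1 ≤ m ∨ ¬ L0.Colorable p) (h1 : ¬ L1.Colorable p) :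
    Good (Blow Γ π I) (m + 1) L0 L1 := by
  obtain ⟨c, hS, hc, hc0, hc1⟩ := hG
  let c' : V → V → ℕ := fun u v => if π u = π v then c u v else m
  -- edges in a colour below `m` are edges of `I`
  have low : ∀ j, j ≠ m → ∀ u v, (Blow Γ π I).Adj u v → c' u v = j → I.Adj u v ∧ c u v = j := by
    intro j hj u v huv h
    by_cases hp : π u = π v
    · simp only [c', if_pos hp] at h
      rcases huv with huv | huv
      · exact ⟨huv, h⟩
      · exact absurd hp huv.ne
    · simp only [c', if_neg hp] at h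
      exact absurd h.symm hj
  have top : ∀ u v, (Blow Γ π I).Adj u v → c' u v = m → Γ.Adj (π u) (π v) := by
    intro u v huv h
    rcases huv with huv | huv
    · have hp := hI u v huv
      simp only [c', if_pos hp] at h
      exact absurd h (hc u v huv).ne
    · exact huv
  have colr : ∀ {W : Type} [Fintype W] (L : SimpleGraph W), Fintype.card W ≤ n →
      ∀ f : W → V, Mono (Blow Γ π I) L c' m f → L.Colorable p := by
    intro W _ L hW f hf
    obtain ⟨χ, hχ⟩ := hΓ (univ.image (fun w => π (f w)))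
      (card_image_le.trans (by simpa using hW))
    exact ⟨SimpleGraph.Coloring.mk (fun w => χ (π (f w))) (fun {u v} huv =>
      hχ _ (mem_image_of_mem _ (mem_univ u)) _ (mem_image_of_mem _ (mem_univ v))
        (top _ _ (hf.2 u v huv).1 (hf.2 u v huv).2))⟩
  refine ⟨c', ?_, ?_, ?_, ?_⟩
  · intro a b
    simp only [c']
    by_cases hp : π a = π b
    · rw [if_pos hp, if_pos hp.symm, hS]
    · rw [if_neg hp, if_neg (Ne.symm hp)]
  · intro a b hab
    rcases hab with hab | hab
    · have hp := hI a b hab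
      simp only [c', if_pos hp]
      exact (hc a b hab).trans (Nat.lt_succ_self m)
    · simp only [c', if_neg hab.ne]
      exact Nat.lt_succ_self m
  · intro f hf
    rcases Nat.eq_zero_or_pos m with hm | hm
    · rcases h0 with h0 | h0
      · omega
      · exact h0 (colr L0 hn.1 f (by rw [hm]; exact hf))
    · exact hc0 f ⟨hf.1, fun u v huv =>
        low 0 (by omega) _ _ (hf.2 u v huv).1 (hf.2 u v huv).2⟩
  · intro j hj1 hj2 f hf
    by_cases hjm : j = m
    · subst hjm
      exact h1 (colr L1 hn.2 f hf)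
    · exact hc1 j hj1 (by omega) f ⟨hf.1, fun u v huv =>
        low j hjm _ _ (hf.2 u v huv).1 (hf.2 u v huv).2⟩

theorem rich_step {W WL VX : Type} [Fintype W] [Fintype WL] [Fintype VX] (B : SimpleGraph W)
    (L : SimpleGraph WL) (p τ R t m : ℕ)
    (hp : 2 ≤ p) (hτ : Fintype.card W ≤ τ) (hτ2 : 2 ≤ τ) (n0 : NoSep L)
    (c0 : 2 ≤ Fintype.card WL)
    (hc : B.Colorable (p + 1)) (hn : ¬ L.Colorable p) (hR : 1 ≤ R) (X : SimpleGraph VX)
    (hX : Rich X R (t + 1) B p τ) (hg : Good X m L L) (hX2 : τ ≤ Fintype.card VX) :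
    ∃ (V : Type) (_ : Fintype V) (A : SimpleGraph V), Rich A R t B p τ ∧ Good A (m + 1) L L ∧
      τ ≤ Fintype.card V := by
  obtain ⟨g, Γ, hΓ1, hΓ2⟩ := src p R (Fintype.card WL) hp hR
  obtain ⟨V, hV, π, I, hI, hIg, hcl⟩ := clean L L n0 n0 c0 c0 X m hg (by omega) R hR g 1
  obtain ⟨embT⟩ : Nonempty (Fin τ ↪ VX) :=
    Function.Embedding.nonempty_of_card_le (by simpa using hX2)
  obtain ⟨embW⟩ : Nonempty (W ↪ VX) :=
    Function.Embedding.nonempty_of_card_le (hτ.trans hX2)
  have hVX : 0 < Fintype.card VX := by omega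
  obtain ⟨x0⟩ : Nonempty VX := Fintype.card_pos_iff.1 hVX
  let A := Blow Γ π I
  have main : ∀ c : V → V → ℕ, Sm c → (∀ a b, A.Adj a b → c a b < R) →
      ∃ (e : Fin g → VX → V) (l : ℕ) (v : Fin p → Fin g), l < R ∧
        (∀ v x, π (e v x) = v) ∧ (∀ v, Function.Injective (e v)) ∧
        (∀ v a b, X.Adj a b → I.Adj (e v a) (e v b)) ∧
        ∀ a b, a ≠ b → ∀ x y, A.Adj (e (v a) x) (e (v b) y) ∧ c (e (v a) x) (e (v b) y) = l := by
    intro c hS hcR
    let c'' : V → V → Fin R := fun a b => if h : A.Adj a b then ⟨c a b, hcR a b h⟩ else ⟨0, hR⟩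
    have hsym : ∀ a b, c'' a b = c'' b a := by
      intro a b
      by_cases h : A.Adj a b
      · simp only [c'', dif_pos h, dif_pos h.symm]
        exact Fin.ext (hS a b)
      · have h' : ¬ A.Adj b a := fun h2 => h h2.symm
        simp only [c'', dif_neg h, dif_neg h']
    obtain ⟨e, κ, he1, he2, he3, -, he5⟩ := hcl (fun _ => 0) c'' hsym
    let κ' : Fin g → Fin g → Fin R := fun v w => if v = w then ⟨0, hR⟩ else κ v w
    have hκ : ∀ v w, κ' v w = κ' w v := by
      intro v w
      by_cases h : v = w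
      · rw [h]
      · simp only [κ', if_neg h, if_neg (Ne.symm h)]
        rw [← he5 v w h x0 x0, ← he5 w v (Ne.symm h) x0 x0, hsym]
    obtain ⟨l, v, hv⟩ := hΓ1 κ' hκ
    refine ⟨e, l.1, v, l.2, he1, he2, he3, fun a b hab x y => ?_⟩
    obtain ⟨h1, h2⟩ := hv a b hab
    have hadj : A.Adj (e (v a) x) (e (v b) y) := by
      refine Or.inr ?_
      rw [he1, he1]
      exact h1
    refine ⟨hadj, ?_⟩
    simp only [κ', if_neg h1.ne] at h2
    rw [← he5 _ _ h1.ne x y] at h2
    simp only [c'', dif_pos hadj] at h2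
    exact congrArg Fin.val h2
  refine ⟨V, hV, A, ?_, blow_good L L n0 n0 c0 c0 Γ π I hI m p _ hIg hΓ2 ⟨le_refl _, le_refl _⟩
    (Or.inr hn) hn, ?_⟩
  · intro c hS hcR
    obtain ⟨e, l, v, hl, he1, he2, he3, he4⟩ := main c hS hcR
    have hp0 : 0 < p := by omega
    have hp1 : 1 < p := by omega
    have hadjA : ∀ v a b, X.Adj a b → A.Adj (e v a) (e v b) := fun v a b h => Or.inl (he3 v a b h)
    have hXc := hX (fun a b => c (e (v ⟨0, hp0⟩) a) (e (v ⟨0, hp0⟩) b)) (fun a b => hS _ _)
      (fun a b hab => hcR _ _ (hadjA _ _ _ hab))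
    rcases hXc with ⟨i, hi, f, hf, hf2⟩ | hpoor
    · exact Or.inl ⟨i, hi, fun w => e (v ⟨0, hp0⟩) (f w), (he2 _).comp hf,
        fun u w huw => ⟨hadjA _ _ _ (hf2 u w huw).1, (hf2 u w huw).2⟩⟩
    · by_cases hlP : MonoP X p τ (fun a b => c (e (v ⟨0, hp0⟩) a) (e (v ⟨0, hp0⟩) b)) l
      · obtain ⟨gg, hgg, hgg2⟩ := hlP
        refine Or.inl ⟨l, hl, ?_⟩
        exact mono_of_multi A B p τ hτ hc c hS l (fun a x => e (v ⟨0, hp0⟩) (gg a x))
          (fun a => (he2 _).comp (hgg a))
          (fun a b hab x y => ⟨hadjA _ _ _ (hgg2 a b hab x y).1, (hgg2 a b hab x y).2⟩)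
          (fun w => e (v ⟨1, hp1⟩) (embW w)) ((he2 _).comp embW.injective)
          (fun w a x => he4 ⟨1, hp1⟩ ⟨0, hp0⟩ (by simp) _ _)
      · refine Or.inr ?_
        have hsub : (range R).filter (fun j => ¬ MonoP A p τ c j) ⊆
            ((range R).filter (fun j => ¬ MonoP X p τ
              (fun a b => c (e (v ⟨0, hp0⟩) a) (e (v ⟨0, hp0⟩) b)) j)).erase l := by
          intro j hj
          rw [mem_filter] at hj
          rw [mem_erase, mem_filter]
          refine ⟨?_, hj.1, fun h2 => hj.2 (h29_monoP_map X A (e (v ⟨0, hp0⟩)) (he2 _)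
            (hadjA _) p τ c j h2)⟩
          rintro rfl
          exact hj.2 ⟨fun a x => e (v a) (embT x), fun a => (he2 _).comp embT.injective,
            fun a b hab x y => he4 a b hab _ _⟩
        have hmem : l ∈ (range R).filter (fun j => ¬ MonoP X p τ
              (fun a b => c (e (v ⟨0, hp0⟩) a) (e (v ⟨0, hp0⟩) b)) j) :=
          mem_filter.2 ⟨mem_range.2 hl, hlP⟩
        have h3 := card_le_card hsub
        rw [card_erase_of_mem hmem] at h3
        have h4 := card_pos.2 ⟨l, hmem⟩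
        omega
  · obtain ⟨e, l, v, hl, he1, he2, -⟩ := main (fun _ _ => 0) (fun _ _ => rfl)
      (fun _ _ _ => hR)
    have := Fintype.card_le_of_injective _ (he2 (v ⟨0, by omega⟩))
    omega

theorem rich_all {W WL : Type} [Fintype W] [Fintype WL] (B : SimpleGraph W)
    (L : SimpleGraph WL) (p τ R m : ℕ)
    (hp : 2 ≤ p) (hτ : Fintype.card W ≤ τ) (hτ2 : 2 ≤ τ) (n0 : NoSep L)
    (c0 : 2 ≤ Fintype.card WL)
    (hc : B.Colorable (p + 1)) (hn : ¬ L.Colorable p) (hR : 1 ≤ R) (hm : m ≤ R + 1) :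
    ∃ (V : Type) (_ : Fintype V) (A : SimpleGraph V), Rich A R (R + 1 - m) B p τ ∧
      Good A m L L ∧ τ ≤ Fintype.card V := by
  induction m with
  | zero =>
    refine ⟨Fin τ, inferInstance, ⊥, ?_, ⟨fun _ _ => 0, fun _ _ => rfl, ?_, ?_, ?_⟩, by simp⟩
    · intro c _ _
      refine Or.inr ?_
      have := card_filter_le (range R) (fun j => ¬ MonoP (⊥ : SimpleGraph (Fin τ)) p τ c j)
      rw [card_range] at this
      omega
    · intro a b hab
      exact absurd hab (by simp)
    · intro f hf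
      apply hn
      refine ⟨SimpleGraph.Coloring.mk (fun _ => ⟨0, by omega⟩) (fun {u v} huv => ?_)⟩
      exact absurd (hf.2 u v huv).1 (by simp)
    · intro j hj1 hj2
      omega
  | succ m ih =>
    obtain ⟨V, hV, A, h1, h2, h3⟩ := ih (by omega)
    have e : R + 1 - m = (R + 1 - (m + 1)) + 1 := by omega
    rw [e] at h1
    exact rich_step B L p τ R (R + 1 - (m + 1)) m hp hτ hτ2 n0 c0 hc hn hR A h1 h2 h3

end Pool.Agent.H65.RI
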