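import Pool.Agent.H65.RK.Src
import Pool.Agent.H65.RK.Cln
import Pool.Agent.H65.RK.Rch
import Pool.Agent.H65.RI.Emb
import Pool.Agent.H65.RI.Ind
import Pool.Agent.H65.RI.Misc

set_option autoImplicit false

/-!
Module THB: forests in all colours, the separation theorem for all chromatic numbers.
-/

namespace Pool.Agent.H65.RI

open Finset Classical

/-- Systems of copies of a good graph are good. -/
theorem h59_sys_good {W0 W1 : Type} [Fintype W0] [Fintype W1] (L0 : SimpleGraph W0)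
    (L1 : SimpleGraph W1) (n0 : NoSep L0) (n1 : NoSep L1) (c0 : 2 ≤ Fintype.card W0)
    (c1 : 2 ≤ Fintype.card W1) {n : ℕ} (hn : 2 ≤ n) (G : SimpleGraph (Fin n)) (m : ℕ)
    (hG : Good G m L0 L1) {R m₁ : ℕ} {ι : Type} (E : ι → Fin n → Fin m₁ × Fin 1)
    (hS : Sparse E R) (hR : (Fintype.card W0) ^ 2 + (Fintype.card W1) ^ 2 + 2 ≤ R) :
    Good (Sys E G ⊥) m L0 L1 := by
  obtain ⟨c, hc, hb, h0, h1⟩ := hG
  obtain ⟨d, hd, hdA, -⟩ := sys_col hS (by omega) hn le_rfl G ⊥ c (fun _ _ => 0) hc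
    (fun _ _ => rfl)
  have loc : ∀ {W : Type} [Fintype W] (L : SimpleGraph W), NoSep L → 2 ≤ Fintype.card W →
      (Fintype.card W) ^ 2 ≤ R → ∀ (j : ℕ), (∀ g : W → Fin n, ¬ Mono G L c j g) →
      ∀ g : W → Fin m₁ × Fin 1, ¬ Mono (Sys E G ⊥) L d j g := by
    intro W _ L hL h2 hRW j hno g hg
    obtain ⟨u0, v0, huv0⟩ := noSep_edge L hL h2
    rcases sys_local L hL h2 hS hRW hn le_rfl G ⊥ g hg.1 (fun u v huv => (hg.2 u v huv).1) with
      ⟨j', g', hg'1, hg'2, hg'3⟩ | ⟨l, g', -, -, hg'3⟩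
    · apply hno g'
      refine ⟨hg'1, fun u v huv => ⟨hg'3 u v huv, ?_⟩⟩
      rw [← hdA j' _ _ (hg'3 u v huv), hg'2, hg'2]
      exact (hg.2 u v huv).2
    · exact absurd (hg'3 u0 v0 huv0) (by simp)
  refine ⟨d, hd, ?_, loc L0 n0 c0 (by omega) 0 h0, ?_⟩
  · intro x y hxy
    rcases hxy.2 with ⟨j, a, b, hab, rfl, rfl⟩ | ⟨l, a, b, hab, -, -⟩
    · rw [hdA j a b hab]
      exact hb a b hab
    · exact absurd hab (by simp)
  · intro j hj1 hj2
    exact loc L1 n1 c1 (by omega) j (h1 j hj1 hj2)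

/-- All forests in all colours. -/
theorem forest_rich {V W W0 W1 : Type} [Fintype V] [Fintype W] [Fintype W0] [Fintype W1]
    (B : SimpleGraph W) (hBe : ∃ u v, B.Adj u v) (L0 : SimpleGraph W0) (L1 : SimpleGraph W1)
    (n0 : NoSep L0) (n1 : NoSep L1) (c0 : 2 ≤ Fintype.card W0) (c1 : 2 ≤ Fintype.card W1)
    (G : SimpleGraph V) (q m : ℕ) (hNB : NB G q B 1) (hG : Good G m L0 L1) :
    ∃ (V' : Type) (_ : Fintype V') (X : SimpleGraph V'), Good X m L0 L1 ∧ 2 ≤ Fintype.card V' ∧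
      ∀ c : V' → V' → ℕ, Sm c → (∀ a b, X.Adj a b → c a b < q + 1) →
        (∃ i, i < q + 1 ∧ ∃ f : W → V', Mono X B c i f) ∨
        ∀ i, i < q + 1 → ∀ S : Set W, ForestOn B S → ∃ f : W → V', EmbS X B c i S f := by
  set n := Fintype.card V with hn
  let σ := (Fintype.equivFin V).symm
  have hn2 : 2 ≤ n := by
    obtain ⟨a, b, hab⟩ := nb_edge G q 1 B hBe le_rfl hNB
    exact Fintype.one_lt_card_iff.mpr ⟨a, b, hab.ne⟩
  have hNB' := nb_comap G σ q 1 B hNB
  have hG' := good_comap G σ m L0 L1 hG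
  set R := (Fintype.card W0) ^ 2 + (Fintype.card W1) ^ 2 + 2 with hR
  have hW : 1 ≤ Fintype.card W := by
    obtain ⟨u, v, huv⟩ := hBe
    exact Fintype.card_pos_iff.mpr ⟨u⟩
  obtain ⟨m₁, ι₁, _, E, hm₁, hS, hD⟩ := hyp n 1 R (Fintype.card W) 1 hn2 le_rfl le_rfl
  have inj := sparse_inj hS (by omega) (by omega : 1 ≤ n)
  refine ⟨Fin m₁ × Fin 1, inferInstance, Sys E (G.comap σ) ⊥,
    h59_sys_good L0 L1 n0 n1 c0 c1 hn2 _ m hG' E hS le_rfl, ?_, ?_⟩
  · obtain ⟨j, -⟩ := dense_mono hD hm₁ le_rfl (fun _ => ⟨0, hW⟩)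
    have := Fintype.card_le_of_injective (E j) (inj j)
    rw [Fintype.card_fin] at this
    exact hn2.trans this
  · intro c hc hb
    by_cases h : ∃ i, i < q + 1 ∧ ∃ f : W → Fin m₁ × Fin 1, Mono (Sys E (G.comap σ) ⊥) B c i f
    · exact Or.inl h
    right
    intro i hi S hSf
    let Γ : SimpleGraph (Fin m₁ × Fin 1) :=
      { Adj := fun z z' => (Sys E (G.comap σ) ⊥).Adj z z' ∧ c z z' = i
        symm := ⟨fun z z' h => ⟨h.1.symm, by rw [hc]; exact h.2⟩⟩
        loopless := ⟨fun z h => h.1.ne rfl⟩ }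
    obtain ⟨f, fi, fa, -⟩ := emb_forest B S hSf Γ (Fintype.card W) le_rfl hW (by
      rintro ⟨φ, hφ⟩
      obtain ⟨j, hj⟩ := dense_mono hD hm₁ le_rfl φ
      obtain ⟨a, b, hab, hcab⟩ := nb_all_colours B (G.comap σ) q hNB'
        (fun a b => c (E j a) (E j b)) (fun a b => hc _ _)
        (fun a b hab => Nat.lt_succ_iff.mp (hb _ _ (sys_adjA hS (by omega) (by omega) _ ⊥ j hab)))
        (fun i' hi' f hf => h ⟨i', Nat.lt_succ_iff.mpr hi', fun w => E j (f w),
          (inj j).comp hf.1, fun u v huv => ⟨sys_adjA hS (by omega) (by omega) _ ⊥ j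
            (hf.2 u v huv).1, (hf.2 u v huv).2⟩⟩) i (Nat.lt_succ_iff.mp hi)
      exact hφ (E j a) (E j b) ⟨sys_adjA hS (by omega) (by omega) _ ⊥ j hab, hcab⟩ (hj a b))
    exact ⟨f, fi, fun u hu v hv huv => fa u hu v hv huv⟩

/-- The complete graph on two vertices has no separation. -/
theorem h59_top_noSep : NoSep (⊤ : SimpleGraph (Fin 2)) := by
  intro S₁ S₂ h1 h2 h3
  have h01 : (⊤ : SimpleGraph (Fin 2)).Adj 0 1 := by simp
  rcases h2 0 1 h01 with ⟨a, b⟩ | ⟨a, b⟩
  · left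
    ext x
    fin_cases x
    · simpa using a
    · simpa using b
  · right
    ext x
    fin_cases x
    · simpa using a
    · simpa using b

/-- The structure found in the blow-up in every colouring without the last colour. -/
theorem h59_blow {VX : Type} {p q g : ℕ} {V : Type} (hVX : Nonempty VX)
    (X : SimpleGraph VX)
    (Γ : SimpleGraph (Fin g)) (hΓ : KArr Γ p q) (π : V → Fin g) (I : SimpleGraph V)
    (hq : 1 ≤ q)
    (hcl : ∀ (δ : V → Fin 1) (c : V → V → Fin q), (∀ a b, c a b = c b a) →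
        ∃ (e : Fin g → VX → V) (κ : Fin g → Fin g → Fin q),
          (∀ v x, π (e v x) = v) ∧ (∀ v, Function.Injective (e v)) ∧
          (∀ v a b, X.Adj a b → I.Adj (e v a) (e v b)) ∧ (∀ v a b, δ (e v a) = δ (e v b)) ∧
          ∀ v w, v ≠ w → ∀ a b, c (e v a) (e w b) = κ v w)
    (c : V → V → ℕ) (hc : Sm c) (hb : ∀ a b, (Blow Γ π I).Adj a b → c a b < q) :
    ∃ (l : ℕ) (e : Fin p → VX → V), l < q ∧ (∀ a, Function.Injective (e a)) ∧
      (∀ a b x y, e a x = e b y → a = b) ∧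
      (∀ a x y, X.Adj x y → (Blow Γ π I).Adj (e a x) (e a y)) ∧
      ∀ a b x y, a ≠ b → (Blow Γ π I).Adj (e a x) (e b y) ∧ c (e a x) (e b y) = l := by
  obtain ⟨x0⟩ := hVX
  obtain ⟨e, κ, h1, h2, h3, -, h5⟩ := hcl (fun _ => 0)
    (fun a b => if h : c a b < q then ⟨c a b, h⟩ else ⟨0, hq⟩) (fun a b => by rw [hc a b])
  have hκ : ∀ a b, κ a b = κ b a := by
    intro a b
    by_cases hab : a = b
    · rw [hab]
    · rw [← h5 a b hab x0 x0, ← h5 b a (Ne.symm hab) x0 x0, hc]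
  obtain ⟨l, v, hv⟩ := hΓ κ hκ
  refine ⟨l, fun a => e (v a), l.2, fun a => h2 _, ?_, ?_, ?_⟩
  · intro a b x y hxy
    by_contra hab
    have h6 := congrArg π hxy
    rw [h1, h1] at h6
    exact (hv a b hab).1.ne h6
  · intro a x y hxy
    exact Or.inl (h3 _ _ _ hxy)
  · intro a b x y hab
    have hadj : (Blow Γ π I).Adj (e (v a) x) (e (v b) y) := by
      right
      rw [h1, h1]
      exact (hv a b hab).1
    refine ⟨hadj, ?_⟩
    have h6 := h5 (v a) (v b) (hv a b hab).1.ne x y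
    rw [dif_pos (hb _ _ hadj), (hv a b hab).2] at h6
    exact congrArg Fin.val h6

/-- An edge in the last colour. -/
theorem h59_edge {V : Type} (G : SimpleGraph V) (c : V → V → ℕ) (q : ℕ) {a b : V}
    (hab : G.Adj a b) (hcab : c a b = q) : MonoK G 1 c q := by
  refine ⟨Sum.elim (fun _ => a) (fun _ => b), ?_, fun x y => ⟨hab, hcab⟩⟩
  rintro (x | x) (y | y) hxy
  · rw [Subsingleton.elim x y]
  · exact absurd hxy hab.ne
  · exact absurd hxy.symm hab.ne
  · rw [Subsingleton.elim x y]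

/-- `H` is `p`-colourable: some locally `p`-colourable graph arrows `H`. -/
theorem arrow_loc {W : Type} [Fintype W] (H : SimpleGraph W) (p q n : ℕ) (hp : 2 ≤ p)
    (hH : H.Colorable p) (hq : 1 ≤ q) : ∃ (V' : Type) (_ : Fintype V') (G' : SimpleGraph V'),
      LocCol G' n p ∧ NB G' q H 1 := by
  obtain ⟨χ⟩ := hH
  obtain ⟨g, Γ, hΓ, hL⟩ := src p q n hp hq
  have hX : Good (⊥ : SimpleGraph (Fin (Fintype.card W + 2))) 0 (⊤ : SimpleGraph (Fin 2))
      (⊤ : SimpleGraph (Fin 2)) := by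
    refine ⟨fun _ _ => 0, fun _ _ => rfl, fun a b hab => absurd hab (by simp), ?_,
      fun j h1 h2 => absurd h2 (by omega)⟩
    intro f hf
    have := (hf.2 0 1 (by simp)).1
    simp at this
  obtain ⟨V, _, π, I, hI1, hI2, hI3⟩ := clean (⊤ : SimpleGraph (Fin 2)) (⊤ : SimpleGraph (Fin 2))
    h59_top_noSep h59_top_noSep (by simp) (by simp) _ 0 hX (by simp) q hq g 1
  have hI0 : ∀ u v, ¬ I.Adj u v := by
    obtain ⟨c, -, hb, -⟩ := hI2
    intro u v huv
    exact absurd (hb u v huv) (by omega)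
  refine ⟨V, inferInstance, Blow Γ π I, ?_, ?_⟩
  · intro S hS
    obtain ⟨φ, hφ⟩ := hL (S.image π) (Finset.card_image_le.trans hS)
    refine ⟨fun u => φ (π u), ?_⟩
    intro u hu v hv huv
    rcases huv with huv | huv
    · exact absurd huv (hI0 u v)
    · exact hφ _ (Finset.mem_image_of_mem π hu) _ (Finset.mem_image_of_mem π hv) huv
  · intro c hc hb
    by_cases h : ∃ a b, (Blow Γ π I).Adj a b ∧ c a b = q
    · right
      obtain ⟨a, b, hab, hcab⟩ := h
      exact h59_edge _ c q hab hcab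
    · left
      push Not at h
      have hb' : ∀ a b, (Blow Γ π I).Adj a b → c a b < q := fun a b hab =>
        lt_of_le_of_ne (hb a b hab) (h a b hab)
      obtain ⟨l, e, hl, e1, e2, -, e4⟩ := h59_blow ⟨⟨0, by omega⟩⟩ _ Γ hΓ π I hq hI3 c hc hb'
      refine ⟨l, hl, fun w => e (χ w) ((Fintype.equivFin W w).castLE (by omega)), ?_, ?_⟩
      · intro u v huv
        have h1 := e2 _ _ _ _ huv
        simp only at huv
        rw [h1] at huv
        exact (Fintype.equivFin W).injective (Fin.castLE_injective _ (e1 _ huv))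
      · intro u v huv
        exact e4 _ _ _ _ (χ.valid huv)

/-- Separation theorem: if `B` splits into `p` forests, `L0` is not contained in `B` and `L1` is
not `p`-colourable, then some graph arrows `B` in `q` colours and has a colouring without `L0` in
the first colour and without `L1` in the other colours. -/
theorem thmBk {W W0 W1 : Type} [Fintype W] [Fintype W0] [Fintype W1] (B : SimpleGraph W)
    (p : ℕ) (hp : 2 ≤ p) (hF : FK B p) (hBe : ∃ u v, B.Adj u v) (L0 : SimpleGraph W0)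
    (L1 : SimpleGraph W1) (n0 : NoSep L0) (n1 : NoSep L1) (c0 : 2 ≤ Fintype.card W0)
    (c1 : 2 ≤ Fintype.card W1) (hL1 : ¬ L1.Colorable p) (hsub : ¬ Sub L0 B) (q : ℕ)
    (hq : 1 ≤ q) : ∃ (V' : Type) (_ : Fintype V') (G' : SimpleGraph V'),
      NB G' q B 1 ∧ Good G' q L0 L1 := by
  induction q, hq using Nat.le_induction with
  | base =>
    refine ⟨W, inferInstance, B, ?_, ?_⟩
    · intro c hc hb
      by_cases h : ∃ a b, B.Adj a b ∧ c a b = 1
      · right
        obtain ⟨a, b, hab, hcab⟩ := h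
        exact h59_edge _ c 1 hab hcab
      · left
        push Not at h
        refine ⟨0, by omega, id, Function.injective_id, ?_⟩
        intro u v huv
        refine ⟨huv, ?_⟩
        have h1 := hb u v huv
        have h2 := h u v huv
        show c u v = 0
        omega
    · refine ⟨fun _ _ => 0, fun _ _ => rfl, fun _ _ _ => Nat.zero_lt_one, ?_, fun j h1 h2 => by omega⟩
      intro f hf
      exact hsub ⟨f, hf.1, fun u v huv => (hf.2 u v huv).1⟩
  | succ q hq ih =>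
    obtain ⟨V₀, _, G, hNB, hG⟩ := ih
    obtain ⟨VX, _, X, hXg, hX2, hXr⟩ := forest_rich B hBe L0 L1 n0 n1 c0 c1 G q q hNB hG
    obtain ⟨g, Γ, hΓ, hL⟩ := src p (q + 1) (Fintype.card W0 + Fintype.card W1) hp (by omega)
    obtain ⟨V, _, π, I, hI1, hI2, hI3⟩ := clean L0 L1 n0 n1 c0 c1 X q hXg hX2 (q + 1) (by omega)
      g 1
    refine ⟨V, inferInstance, Blow Γ π I, ?_,
      blow_good L0 L1 n0 n1 c0 c1 Γ π I hI1 q p _ hI2 hL ⟨by omega, by omega⟩ (Or.inl hq) hL1⟩
    intro c hc hb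
    by_cases h : ∃ a b, (Blow Γ π I).Adj a b ∧ c a b = q + 1
    · right
      obtain ⟨a, b, hab, hcab⟩ := h
      exact h59_edge _ c (q + 1) hab hcab
    left
    push Not at h
    have hb' : ∀ a b, (Blow Γ π I).Adj a b → c a b < q + 1 := fun a b hab =>
      lt_of_le_of_ne (hb a b hab) (h a b hab)
    obtain ⟨l, e, hl, e1, e2, e3, e4⟩ := h59_blow
      (Fintype.card_pos_iff.mp (by omega)) X Γ hΓ π I (by omega) hI3 c hc hb'
    by_cases hm : ∃ i, i < q + 1 ∧ ∃ a : Fin p, ∃ f : W → VX, Mono X B (fun x y => c (e a x) (e a y)) i f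
    · obtain ⟨i, hi, a, f, hf⟩ := hm
      refine ⟨i, hi, fun w => e a (f w), (e1 a).comp hf.1, ?_⟩
      intro u v huv
      exact ⟨e3 a _ _ (hf.2 u v huv).1, (hf.2 u v huv).2⟩
    obtain ⟨col, hcol⟩ := hF
    have key : ∀ a : Fin p, ∃ f : W → VX, EmbS X B (fun x y => c (e a x) (e a y)) l
        {w | col w = a} f := by
      intro a
      rcases hXr (fun x y => c (e a x) (e a y)) (fun x y => hc _ _)
        (fun x y hxy => hb' _ _ (e3 a x y hxy)) with ⟨i, hi, hf⟩ | hf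
      · exact absurd ⟨i, hi, a, hf⟩ hm
      · exact hf l hl _ (hcol a)
    choose f hf using key
    refine ⟨l, hl, fun w => e (col w) (f (col w) w), ?_, ?_⟩
    · intro u v huv
      have h1 := e2 _ _ _ _ huv
      simp only at huv
      rw [h1] at huv
      exact (hf (col v)).1 h1 rfl (e1 (col v) huv)
    · intro u v huv
      by_cases h1 : col u = col v
      · have h2 := (hf (col v)).2 u h1 v rfl huv
        simp only [h1]
        exact ⟨e3 _ _ _ h2.1, h2.2⟩
      · exact e4 _ _ _ _ h1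

end Pool.Agent.H65.RI
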