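import Pool.Agent.H65.RK.Pnd
import Pool.Agent.H65.RK.ThB
import Pool.Agent.H65.RK.BlkP
import Pool.Agent.H65.RK.Prt
import Pool.Agent.H65.RI.Fin

set_option autoImplicit false

/-!
Final module: isolation for all chromatic numbers and every number of colours, and the invariance
of the 2-connected subgraphs.
-/

namespace Pool.Agent.H65.RI

open Finset Classical

theorem not_col_of_eq {W W' : Type} [Fintype W] [Fintype W'] (B : SimpleGraph W)
    (H : SimpleGraph W') (p q : ℕ) (hp : 2 ≤ p) (hq : 1 ≤ q) (heq : QEq q B H)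
    (nb : ¬ B.Colorable p) : ¬ H.Colorable p := by
  intro hH
  obtain ⟨V', _, G', hG', hNB⟩ := arrow_loc H p q (Fintype.card W) hp hH hq
  have h1 := (heq.arr G').mpr (arr_of_nb G' H q hNB)
  obtain ⟨f, -, hf, -⟩ := h1 (fun _ _ => ⟨0, hq⟩) (fun _ _ => rfl)
  apply nb
  obtain ⟨χ, hχ⟩ := hG' (univ.image f) (by
    calc (univ.image f).card ≤ (univ : Finset W).card := Finset.card_image_le
      _ = Fintype.card W := Finset.card_univ)
  exact ⟨SimpleGraph.Coloring.mk (fun w => χ (f w)) (fun {u v} huv =>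
    hχ (f u) (Finset.mem_image_of_mem _ (Finset.mem_univ _)) (f v)
      (Finset.mem_image_of_mem _ (Finset.mem_univ _)) (hf u v huv))⟩

/-- If `H` is `q`-equivalent to `B` and `B` splits into `p` forests but is not `p`-colourable,
then graphs without separation which are contained in `H` are contained in `B`. -/
theorem sub_of_eq_l {W W' WL : Type} [Fintype W] [Fintype W'] [Fintype WL] (B : SimpleGraph W)
    (H : SimpleGraph W') (p q : ℕ) (hp : 2 ≤ p) (hq : 1 ≤ q) (heq : QEq q B H)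
    (nbH : ¬ H.Colorable p) (hF : FK B p) (hBe : ∃ u v, B.Adj u v) (L : SimpleGraph WL)
    (n0 : NoSep L) (c0 : 2 ≤ Fintype.card WL) (hL : Sub L H) : Sub L B := by
  by_contra hsub
  obtain ⟨S', hS'2, hS', nbS'⟩ := noncol_block H p (by omega) nbH
  obtain ⟨V', _, G', hNB, c, hc, hb, h0, h1⟩ := thmBk B p hp hF hBe L (H.induce S') n0
    hS' c0 hS'2 nbS' hsub q hq
  obtain ⟨i, hi, f, hf⟩ := arr_mono G' H q hq ((heq.arr G').mp (arr_of_nb G' B q hNB)) c hc hb
  obtain ⟨g, hg, hg'⟩ := hL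
  by_cases hi0 : i = 0
  · subst hi0
    exact h0 _ (mono_sub G' H L c 0 f hf g hg hg')
  · exact h1 i (by omega) hi _ (mono_induce G' H c i f hf S')

theorem edge_of_not_col {W : Type} (H : SimpleGraph W) (p : ℕ) (hp : 1 ≤ p)
    (nb : ¬ H.Colorable p) : ∃ u v, H.Adj u v := by
  by_contra hcon
  push Not at hcon
  exact nb ⟨SimpleGraph.Coloring.mk (fun _ => ⟨0, hp⟩) (fun {u v} huv => absurd huv (hcon u v))⟩

theorem sub_induce {W : Type} (H : SimpleGraph W) (S : Set W) : Sub (H.induce S) H :=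
  ⟨Subtype.val, Subtype.val_injective, fun _ _ h => h⟩

/-- The splitting into `p` forests is inherited. -/
theorem fk_of_eq {W W' : Type} [Fintype W] [Fintype W'] (B : SimpleGraph W)
    (H : SimpleGraph W') (p q : ℕ) (hp : 2 ≤ p) (hq : 1 ≤ q) (heq : QEq q B H)
    (nb : ¬ B.Colorable p) (hF : FK B p) : FK H p := by
  have nbH := not_col_of_eq B H p q hp hq heq nb
  exact fk_of_blocks H p (by omega) (fun S hS2 hS => fk_of_sub B (H.induce S) p
    (sub_of_eq_l B H p q hp hq heq nbH hF (edge_of_not_col B p (by omega) nb) (H.induce S) hS hS2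
      (sub_induce H S)) hF)

/-- Equivalent graphs, one of which has vertex arboricity less than the chromatic number, have
the same subgraphs without separation. -/
theorem same_blocks {W W' WL : Type} [Fintype W] [Fintype W'] [Fintype WL] (B : SimpleGraph W)
    (H : SimpleGraph W') (p q : ℕ) (hp : 2 ≤ p) (hq : 1 ≤ q) (heq : QEq q B H)
    (nb : ¬ B.Colorable p) (hF : FK B p) (L : SimpleGraph WL)
    (n0 : NoSep L) (c0 : 2 ≤ Fintype.card WL) : Sub L B ↔ Sub L H := by
  have nbH := not_col_of_eq B H p q hp hq heq nb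
  have heq' : QEq q H B := fun n G => (heq n G).symm
  constructor
  · exact sub_of_eq_l H B p q hp hq heq' nb (fk_of_eq B H p q hp hq heq nb hF)
      (edge_of_not_col H p (by omega) nbH) L n0 c0
  · exact sub_of_eq_l B H p q hp hq heq nbH hF (edge_of_not_col B p (by omega) nb) L n0 c0

/-! ### Isolation -/

theorem kOn_pre {W WL : Type} (B : SimpleGraph W) (L : SimpleGraph WL) (f : WL → W)
    (hf : Function.Injective f) (hadj : ∀ u v, L.Adj u v → B.Adj (f u) (f v)) (t : Kind)
    (S : Set W) (h : KOn t B S) : KOn t L (f ⁻¹' S) := by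
  cases t with
  | I => exact fun u hu v hv huv => h _ hu _ hv (hadj u v huv)
  | D =>
    intro u hu v hv v' hv' huv huv'
    exact hf (h _ hu _ hv _ hv' (hadj _ _ huv) (hadj _ _ huv'))
  | F =>
    intro A hA hAX
    have key := h (A.image f) (hA.image f) (by
      intro x hx
      obtain ⟨a, ha, rfl⟩ := Finset.mem_image.mp (Finset.mem_coe.mp hx)
      exact hAX ha)
    rw [Finset.card_image_of_injective A hf] at key
    have : ((A ×ˢ A).filter (fun p => L.Adj p.1 p.2)).card ≤
        ((A.image f ×ˢ A.image f).filter (fun p => B.Adj p.1 p.2)).card := by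
      apply Finset.card_le_card_of_injOn (fun p => (f p.1, f p.2))
      · intro p hp
        obtain ⟨h1, h2⟩ := Finset.mem_filter.mp (Finset.mem_coe.mp hp)
        rw [Finset.mem_product] at h1
        exact Finset.mem_coe.mpr (Finset.mem_filter.mpr ⟨Finset.mem_product.mpr
          ⟨Finset.mem_image_of_mem f h1.1, Finset.mem_image_of_mem f h1.2⟩, hadj _ _ h2⟩)
      · intro p _ p' _ hpp
        exact Prod.ext (hf (congrArg Prod.fst hpp)) (hf (congrArg Prod.snd hpp))
    omega

theorem pl_pre {W WL : Type} (B : SimpleGraph W) (L : SimpleGraph WL) (f : WL → W)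
    (hf : Function.Injective f) (hadj : ∀ u v, L.Adj u v → B.Adj (f u) (f v))
    (P0 : Set W → Prop) (P0' : Set WL → Prop) (h0 : ∀ S, P0 S → P0' (f ⁻¹' S))
    (ts : List Kind) : ∀ S : Set W, PL B P0 ts S → PL L P0' ts (f ⁻¹' S) := by
  induction ts with
  | nil => exact fun S hS => h0 S hS
  | cons t ts ih =>
    rintro S ⟨S₁, S₂, rfl, h1, h2, h3⟩
    exact ⟨f ⁻¹' S₁, f ⁻¹' S₂, rfl, h1.preimage f, ih S₁ h2, kOn_pre B L f hf hadj t S₂ h3⟩

theorem pl_sub_deg {W WL : Type} (B : SimpleGraph W) (L : SimpleGraph WL) (hs : Sub L B)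
    (ts : List Kind) (h : PL B (Deg1On B) ts Set.univ) : PL L (Deg1On L) ts Set.univ := by
  obtain ⟨f, hf, hadj⟩ := hs
  exact pl_pre B L f hf hadj (Deg1On B) (Deg1On L) (fun S hS => kOn_pre B L f hf hadj Kind.D S hS)
    ts Set.univ h

theorem pl_sub_indep {W WL : Type} (B : SimpleGraph W) (L : SimpleGraph WL) (hs : Sub L B)
    (ts : List Kind) (h : PL B (IndepOn B) ts Set.univ) : PL L (IndepOn L) ts Set.univ := by
  obtain ⟨f, hf, hadj⟩ := hs
  exact pl_pre B L f hf hadj (IndepOn B) (IndepOn L)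
    (fun S hS => kOn_pre B L f hf hadj Kind.I S hS) ts Set.univ h

theorem hitM_sub {W W' WL : Type} (B : SimpleGraph W) (H : SimpleGraph W') (L : SimpleGraph WL)
    (hs : Sub H B) (h : ∃ M : W → W → Prop, HitM B L M) : ∃ M : W' → W' → Prop, HitM H L M := by
  obtain ⟨f, hf, hadj⟩ := hs
  obtain ⟨M, m1, m2, m3⟩ := h
  refine ⟨fun u v => M (f u) (f v), fun u v h => m1 _ _ h, fun u v v' h h' =>
    hf (m2 _ _ _ h h'), fun g hg hg' => ?_⟩
  exact m3 (fun w => f (g w)) (hf.comp hg) (fun u v huv => hadj _ _ (hg' u v huv))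

theorem isolation_half {W W' WL : Type} [Fintype W] [Fintype W'] [Fintype WL]
    (B : SimpleGraph W) (p : ℕ) (hp : 2 ≤ p)
    (hcol : B.Colorable (p + 1)) (ts : List Kind)
    (h1 : PL B (Deg1On B) ts Set.univ) (L : SimpleGraph WL) (n0 : NoSep L)
    (c0 : 2 ≤ Fintype.card WL) (hn : ¬ L.Colorable p) (hLB : Sub L B)
    (h2 : ¬ PL L (IndepOn L) ts Set.univ)
    (hts : (∀ t ∈ ts, t = Kind.I) ∨ ∃ M : W → W → Prop, HitM B L M)
    (H : SimpleGraph W') (hH : H.Connected) (hLH : Sub L H) (q : ℕ) (hq : 1 ≤ q)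
    (heq : QEq q B H) : Sub H B := by
  obtain ⟨V', _, G', hNB, hP⟩ := pend_list B L n0 c0 p hp hcol hn hLB ts h1 h2 hts q hq
  obtain ⟨c, hc, hb, hF⟩ := pcx_sub G' q B L (noSep_edge L n0 c0) hP H hH hLH
  obtain ⟨i, hi, F, hFm⟩ := arr_mono G' H q hq ((heq.arr G').mp (arr_of_nb G' B q hNB)) c hc hb
  exact hF i F hFm

/-- The general isolation theorem. -/
theorem isolation_gen {W W' WL : Type} [Fintype W] [Fintype W'] [Fintype WL]
    (B : SimpleGraph W) (hB : B.Connected) (p : ℕ) (hp : 2 ≤ p)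
    (hcol : B.Colorable (p + 1)) (ts : List Kind)
    (h1 : PL B (Deg1On B) ts Set.univ) (L : SimpleGraph WL) (n0 : NoSep L)
    (c0 : 2 ≤ Fintype.card WL) (hn : ¬ L.Colorable p) (hLB : Sub L B)
    (h2 : ¬ PL L (IndepOn L) ts Set.univ)
    (hts : (∀ t ∈ ts, t = Kind.I) ∨ ∃ M : W → W → Prop, HitM B L M)
    (H : SimpleGraph W') (hH : H.Connected) (q : ℕ) (hq : 1 ≤ q)
    (heq : QEq q B H) : Nonempty (B ≃g H) := by
  have nb : ¬ B.Colorable p := by
    intro h
    obtain ⟨f, hf, hadj⟩ := hLB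
    obtain ⟨C⟩ := h
    exact hn ⟨SimpleGraph.Coloring.mk (fun w => C (f w)) (fun {u v} huv => C.valid (hadj u v huv))⟩
  have hF : FK B p := fk_of_pl B p hcol ts h1 (fun h => h2 (pl_sub_indep B L hLB ts h))
  have hLH : Sub L H := (same_blocks B H p q hp hq heq nb hF L n0 c0).mp hLB
  have hHB : Sub H B := isolation_half B p hp hcol ts h1 L n0 c0 hn hLB h2 hts H hH hLH q hq heq
  have hcolH : H.Colorable (p + 1) := by
    obtain ⟨f, hf, hadj⟩ := hHB
    obtain ⟨C⟩ := hcol
    exact ⟨SimpleGraph.Coloring.mk (fun w => C (f w)) (fun {u v} huv => C.valid (hadj u v huv))⟩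
  have hBH : Sub B H := isolation_half H p hp hcolH ts (pl_sub_deg B H hHB ts h1) L n0 c0 hn hLH
    h2 (hts.imp id (hitM_sub B H L hHB)) B hB hLB q hq (fun n G => (heq n G).symm)
  exact iso_of_sub B H hBH hHB

end Pool.Agent.H65.RI
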