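import Pool.Agent.H65.RK.Pnm
import Pool.Agent.H65.RK.FinK

set_option autoImplicit false

/-!
Isolation of connected graphs.
-/

namespace Pool.Agent.H65.RI

open Finset Classical

/-- One direction. -/
theorem half_m {W W' WL : Type} [Fintype W] [Fintype W'] [Fintype WL]
    (B : SimpleGraph W) (p : ℕ) (hp : 2 ≤ p)
    (hcol : B.Colorable (p + 1)) (T : Kind) (hT : T ≠ Kind.I) (ts : List Kind)
    (hts : ∀ t ∈ ts, t = Kind.I ∨ t = T ∨ t = Kind.F)
    (h1 : PL B (Deg1On B) ts Set.univ) (L : SimpleGraph WL) (n0 : NoSep L)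
    (c0 : 2 ≤ Fintype.card WL) (hn : ¬ L.Colorable p) (hLB : Sub L B)
    (h2 : ¬ PL L (IndepOn L) (ts.map (phK T)) Set.univ)
    (H : SimpleGraph W') (hH : H.Connected) (hLH : Sub L H) (q : ℕ) (hq : 1 ≤ q)
    (heq : QEq q B H) : Sub H B ∨ PL H (IndepOn H) ts Set.univ := by
  obtain ⟨V', _, G', hNB, c, M, hc, hb, -, -, -, -, hF⟩ := pend_m B L n0 c0 H hH hLH T hT p hp hcol
    hn hLB ts h1 h2 hts q hq
  obtain ⟨i, hi, F, hFm⟩ := arr_mono G' H q hq ((heq.arr G').mp (arr_of_nb G' B q hNB)) c hc hb
  exact hF i F hFm

theorem col_of_eq {W W' : Type} [Fintype W] [Fintype W'] (B : SimpleGraph W)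
    (H : SimpleGraph W') (p q : ℕ) (hp : 2 ≤ p) (hq : 1 ≤ q) (heq : QEq q B H)
    (hcol : B.Colorable (p + 1)) (nb : ¬ B.Colorable p) (hF : FK B p) : H.Colorable (p + 1) := by
  by_contra hcon
  obtain ⟨S, hS2, hS, nbS⟩ := noncol_block H (p + 1) (by omega) hcon
  obtain ⟨f, hf, hadj⟩ := (same_blocks B H p q hp hq heq nb hF (H.induce S) hS hS2).mpr
    (sub_induce H S)
  obtain ⟨C⟩ := hcol
  exact nbS ⟨SimpleGraph.Coloring.mk (fun w => C (f w)) (fun {u v} huv => C.valid (hadj u v huv))⟩

theorem isolation_conn {W W' WL : Type} [Fintype W] [Fintype W'] [Fintype WL]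
    (B : SimpleGraph W) (hB : B.Connected) (p : ℕ) (hp : 2 ≤ p)
    (hcol : B.Colorable (p + 1)) (T : Kind) (hT : T ≠ Kind.I) (ts : List Kind)
    (hts : ∀ t ∈ ts, t = Kind.I ∨ t = T ∨ t = Kind.F)
    (h1 : PL B (Deg1On B) ts Set.univ) (h0 : ¬ PL B (IndepOn B) ts Set.univ)
    (L : SimpleGraph WL) (n0 : NoSep L)
    (c0 : 2 ≤ Fintype.card WL) (hn : ¬ L.Colorable p) (hLB : Sub L B)
    (h2 : ¬ PL L (IndepOn L) (ts.map (phK T)) Set.univ)
    (H : SimpleGraph W') (hH : H.Connected) (q : ℕ) (hq : 1 ≤ q)
    (heq : QEq q B H) : Nonempty (B ≃g H) := by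
  have nb : ¬ B.Colorable p := by
    intro h
    obtain ⟨f, hf, hadj⟩ := hLB
    obtain ⟨C⟩ := h
    exact hn ⟨SimpleGraph.Coloring.mk (fun w => C (f w)) (fun {u v} huv => C.valid (hadj u v huv))⟩
  have hF : FK B p := fk_of_pl B p hcol ts h1 h0
  have hLH : Sub L H := (same_blocks B H p q hp hq heq nb hF L n0 c0).mp hLB
  have hcolH : H.Colorable (p + 1) := col_of_eq B H p q hp hq heq hcol nb hF
  have heq' : QEq q H B := fun n G => (heq n G).symm
  rcases half_m B p hp hcol T hT ts hts h1 L n0 c0 hn hLB h2 H hH hLH q hq heq with h | h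
  · rcases half_m H p hp hcolH T hT ts hts (pl_sub_deg B H h ts h1) L n0 c0 hn hLH h2 B hB hLB q hq
      heq' with h' | h'
    · exact iso_of_sub B H h' h
    · exact absurd h' h0
  · have h3 : PL H (Deg1On H) ts Set.univ :=
      h97_PL_mono H (IndepOn H) (Deg1On H) (fun S hS => h97_indep_KOn H S hS Kind.D) ts _ h
    rcases half_m H p hp hcolH T hT ts hts h3 L n0 c0 hn hLH h2 B hB hLB q hq heq' with h' | h'
    · exact absurd (pl_sub_indep H B h' ts h) h0
    · exact absurd h' h0

/-! ### Partitions indexed by a type -/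

theorem pl_iff {W ι : Type} (B : SimpleGraph W) (P0 : Set W → Prop) (k : ι → Kind) (i : ι)
    (js : List ι) (hn : js.Nodup) (hi : i ∉ js) : ∀ S : Set W, PL B P0 (js.map k) S ↔
      ∃ col : W → ι, (∀ w ∈ S, col w = i ∨ col w ∈ js) ∧ P0 {w | w ∈ S ∧ col w = i} ∧
        ∀ j ∈ js, KOn (k j) B {w | w ∈ S ∧ col w = j} := by
  induction js with
  | nil =>
    intro S
    constructor
    · intro h
      refine ⟨fun _ => i, fun _ _ => Or.inl rfl, ?_, fun j hj => absurd hj (by simp)⟩
      have : {w | w ∈ S ∧ i = i} = S := by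
        ext w
        exact ⟨fun h => h.1, fun h => ⟨h, rfl⟩⟩
      rw [this]
      exact h
    · rintro ⟨col, h1, h2, -⟩
      have : {w | w ∈ S ∧ col w = i} = S := by
        ext w
        refine ⟨fun h => h.1, fun h => ⟨h, ?_⟩⟩
        rcases h1 w h with h | h
        · exact h
        · exact absurd h (by simp)
      rw [this] at h2
      exact h2
  | cons j js ih =>
    intro S
    obtain ⟨hj, hn'⟩ := List.nodup_cons.mp hn
    have hi' : i ∉ js := fun h => hi (List.mem_cons_of_mem _ h)
    have hij : i ≠ j := fun h => hi (h ▸ List.mem_cons_self)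
    constructor
    · rintro ⟨S₁, S₂, rfl, hdis, h3, h4⟩
      obtain ⟨col, c1, c2, c3⟩ := (ih hn' hi' S₁).mp h3
      have hnot : ∀ u, u ∈ S₁ → u ∉ S₂ := fun u h h' => (Set.disjoint_left.mp hdis) h h'
      refine ⟨fun w => if w ∈ S₂ then j else col w, ?_, ?_, ?_⟩
      · intro w hw
        by_cases h : w ∈ S₂
        · right
          simp only [h, if_true]
          exact List.mem_cons_self
        · simp only [h, if_false]
          rcases hw with hw | hw
          · exact (c1 w hw).imp id (List.mem_cons_of_mem _)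
          · exact absurd hw h
      · have : {w | w ∈ S₁ ∪ S₂ ∧ (if w ∈ S₂ then j else col w) = i} =
            {w | w ∈ S₁ ∧ col w = i} := by
          ext w
          constructor
          · rintro ⟨hw, hw'⟩
            by_cases h : w ∈ S₂
            · simp only [h, if_true] at hw'
              exact absurd hw'.symm hij
            · simp only [h, if_false] at hw'
              exact ⟨hw.resolve_right h, hw'⟩
          · rintro ⟨hw, hw'⟩
            refine ⟨Or.inl hw, ?_⟩
            simp only [hnot w hw, if_false]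
            exact hw'
        rw [this]
        exact c2
      · intro j' hj'
        rcases List.mem_cons.mp hj' with rfl | hj'
        · have : {w | w ∈ S₁ ∪ S₂ ∧ (if w ∈ S₂ then j' else col w) = j'} = S₂ := by
            ext w
            constructor
            · rintro ⟨hw, hw'⟩
              by_contra h
              simp only [h, if_false] at hw'
              rcases c1 w (hw.resolve_right h) with h5 | h5
              · exact hij (h5.symm.trans hw')
              · exact hj (hw' ▸ h5)
            · intro hw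
              refine ⟨Or.inr hw, ?_⟩
              simp only [hw, if_true]
          rw [this]
          exact h4
        · have hne : j' ≠ j := fun h => hj (h ▸ hj')
          have : {w | w ∈ S₁ ∪ S₂ ∧ (if w ∈ S₂ then j else col w) = j'} =
              {w | w ∈ S₁ ∧ col w = j'} := by
            ext w
            constructor
            · rintro ⟨hw, hw'⟩
              by_cases h : w ∈ S₂
              · simp only [h, if_true] at hw'
                exact absurd hw'.symm hne
              · simp only [h, if_false] at hw'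
                exact ⟨hw.resolve_right h, hw'⟩
            · rintro ⟨hw, hw'⟩
              refine ⟨Or.inl hw, ?_⟩
              simp only [hnot w hw, if_false]
              exact hw'
          rw [this]
          exact c3 j' hj'
    · rintro ⟨col, c1, c2, c3⟩
      refine ⟨{w | w ∈ S ∧ col w ≠ j}, {w | w ∈ S ∧ col w = j}, ?_, ?_, ?_, ?_⟩
      · ext w
        constructor
        · intro hw
          by_cases h : col w = j
          · exact Or.inr ⟨hw, h⟩
          · exact Or.inl ⟨hw, h⟩
        · rintro (h | h) <;> exact h.1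
      · rw [Set.disjoint_left]
        rintro w ⟨-, h⟩ ⟨-, h'⟩
        exact h h'
      · rw [ih hn' hi']
        refine ⟨col, ?_, ?_, ?_⟩
        · rintro w ⟨hw, hw'⟩
          rcases c1 w hw with h | h
          · exact Or.inl h
          · rcases List.mem_cons.mp h with h | h
            · exact absurd h hw'
            · exact Or.inr h
        · have : {w | w ∈ {w | w ∈ S ∧ col w ≠ j} ∧ col w = i} = {w | w ∈ S ∧ col w = i} := by
            ext w
            constructor
            · rintro ⟨⟨h, -⟩, h'⟩
              exact ⟨h, h'⟩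
            · rintro ⟨h, h'⟩
              exact ⟨⟨h, fun h'' => hij (h'.symm.trans h'')⟩, h'⟩
          rw [this]
          exact c2
        · intro j' hj'
          have hne : j' ≠ j := fun h => hj (h ▸ hj')
          have : {w | w ∈ {w | w ∈ S ∧ col w ≠ j} ∧ col w = j'} = {w | w ∈ S ∧ col w = j'} := by
            ext w
            constructor
            · rintro ⟨⟨h, -⟩, h'⟩
              exact ⟨h, h'⟩
            · rintro ⟨h, h'⟩
              exact ⟨⟨h, fun h'' => hne (h'.symm.trans h'')⟩, h'⟩
          rw [this]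
          exact c3 j' (List.mem_cons_of_mem _ hj')
      · exact c3 j List.mem_cons_self

/-- `B` has a partition into sets of the given kinds. -/
def FitsK {W ι : Type} (B : SimpleGraph W) (k : ι → Kind) : Prop :=
  ∃ col : W → ι, ∀ i, KOn (k i) B {w | col w = i}

theorem fits_iff {W ι : Type} [DecidableEq ι] (B : SimpleGraph W) (k : ι → Kind) (i : ι)
    (js : List ι) (hn : js.Nodup) (hi : ∀ j, j ∈ js ↔ j ≠ i) (t : Kind)
    (P0 : Set W → Prop) (h0 : ∀ S, P0 S ↔ KOn t B S) :
    FitsK B (Function.update k i t) ↔ PL B P0 (js.map k) Set.univ := by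
  rw [pl_iff B P0 k i js hn (fun h => (hi i).mp h rfl)]
  constructor
  · rintro ⟨col, hcol⟩
    refine ⟨col, fun w _ => ?_, ?_, ?_⟩
    · by_cases h : col w = i
      · exact Or.inl h
      · exact Or.inr ((hi _).mpr h)
    · rw [h0]
      have := hcol i
      rw [Function.update_self] at this
      exact kOn_mono t B _ _ (fun w (hw : w ∈ Set.univ ∧ col w = i) => hw.2) this
    · intro j hj
      have hne : j ≠ i := (hi j).mp hj
      have := hcol j
      rw [Function.update_of_ne hne] at this
      exact kOn_mono (k j) B _ _ (fun w (hw : w ∈ Set.univ ∧ col w = j) => hw.2) this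
  · rintro ⟨col, -, c2, c3⟩
    refine ⟨col, fun j => ?_⟩
    by_cases hj : j = i
    · subst hj
      rw [Function.update_self]
      exact kOn_mono t B {w | w ∈ Set.univ ∧ col w = j} {w | col w = j}
        (fun w hw => ⟨trivial, hw⟩) ((h0 _).mp c2)
    · rw [Function.update_of_ne hj]
      exact kOn_mono (k j) B {w | w ∈ Set.univ ∧ col w = j} {w | col w = j}
        (fun w hw => ⟨trivial, hw⟩) (c3 j ((hi j).mpr hj))

theorem col_of_fits {W : Type} (B : SimpleGraph W) (p : ℕ) (k : Fin p → Kind)
    (hk : ∀ i, k i = Kind.I) (h : FitsK B k) : B.Colorable p := by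
  obtain ⟨col, hcol⟩ := h
  refine ⟨SimpleGraph.Coloring.mk col (fun {u v} huv heq => ?_)⟩
  have := hcol (col u)
  rw [hk] at this
  exact this u rfl v heq.symm huv

/-- Isolation of connected graphs, kinds indexed by `Fin p`. -/
theorem isolation_kinds {W W' : Type} [Fintype W] [Fintype W']
    (B : SimpleGraph W) (hB : B.Connected) (p : ℕ) (hp : 2 ≤ p)
    (hcol : B.Colorable (p + 1)) (nb : ¬ B.Colorable p) (k : Fin p → Kind) (i : Fin p)
    (hi : k i = Kind.D) (h1 : FitsK B k) (h0 : ¬ FitsK B (Function.update k i Kind.I))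
    (hk : (∀ j, k j ≠ Kind.F) ∨ (∀ j, j ≠ i → k j ≠ Kind.D) ∨ NoSep B)
    (H : SimpleGraph W') (hH : H.Connected) (q : ℕ) (hq : 1 ≤ q)
    (heq : QEq q B H) : Nonempty (B ≃g H) := by
  obtain ⟨js, hjn, hji⟩ : ∃ js : List (Fin p), js.Nodup ∧ ∀ j, j ∈ js ↔ j ≠ i :=
    ⟨(univ.erase i).toList, Finset.nodup_toList _, fun j => by simp⟩
  have h1' : PL B (Deg1On B) (js.map k) Set.univ := by
    rw [← fits_iff B k i js hjn hji Kind.D (Deg1On B) (fun _ => Iff.rfl), ← hi, Function.update_eq_self]
    exact h1
  have h0' : ¬ PL B (IndepOn B) (js.map k) Set.univ := by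
    rwa [← fits_iff B k i js hjn hji Kind.I (IndepOn B) (fun _ => Iff.rfl)]
  obtain ⟨S, hS2, hS, nbS⟩ := noncol_block B p (by omega) nb
  -- all kinds become `I`
  have hL : ∀ T : Kind, (∀ j, j ≠ i → phK T (k j) = Kind.I) →
      ¬ PL (B.induce S) (IndepOn (B.induce S)) ((js.map k).map (phK T)) Set.univ := by
    intro T hT h
    rw [List.map_map, ← fits_iff (B.induce S) (phK T ∘ k) i js hjn hji Kind.I (IndepOn (B.induce S))
      (fun _ => Iff.rfl)] at h
    apply nbS
    refine col_of_fits (B.induce S) p _ ?_ h
    intro j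
    by_cases hj : j = i
    · subst hj
      rw [Function.update_self]
    · rw [Function.update_of_ne hj]
      exact hT j hj
  have hne : ∀ t ∈ js.map k, ∃ j, j ≠ i ∧ k j = t := by
    intro t ht
    obtain ⟨j, hj, rfl⟩ := List.mem_map.mp ht
    exact ⟨j, (hji j).mp hj, rfl⟩
  rcases hk with hk | hk | hk
  · refine isolation_conn B hB p hp hcol Kind.D (by simp) (js.map k) ?_ h1' h0' (B.induce S) hS hS2
      nbS (sub_induce B S) (hL Kind.D ?_) H hH q hq heq
    · intro t ht
      obtain ⟨j, -, rfl⟩ := hne t ht
      cases h : k j with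
      | I => exact Or.inl rfl
      | D => exact Or.inr (Or.inl rfl)
      | F => exact absurd h (hk j)
    · intro j _
      cases h : k j with
      | I => rfl
      | D => rfl
      | F => exact absurd h (hk j)
  · refine isolation_conn B hB p hp hcol Kind.F (by simp) (js.map k) ?_ h1' h0' (B.induce S) hS hS2
      nbS (sub_induce B S) (hL Kind.F ?_) H hH q hq heq
    · intro t ht
      obtain ⟨j, hj, rfl⟩ := hne t ht
      cases h : k j with
      | I => exact Or.inl rfl
      | D => exact absurd h (hk j hj)
      | F => exact Or.inr (Or.inl rfl)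
    · intro j hj
      cases h : k j with
      | I => rfl
      | D => exact absurd h (hk j hj)
      | F => rfl
  · have hc2 : 2 ≤ Fintype.card W :=
      hS2.trans (Fintype.card_le_of_injective Subtype.val Subtype.val_injective)
    refine isolation_conn B hB p hp hcol Kind.D (by simp) (js.map k) ?_ h1' h0' B hk hc2
      nb ⟨id, Function.injective_id, fun _ _ h => h⟩ ?_ H hH q hq heq
    · intro t _
      cases t with
      | I => exact Or.inl rfl
      | D => exact Or.inr (Or.inl rfl)
      | F => exact Or.inr (Or.inr rfl)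
    · intro h
      apply h0
      rw [List.map_map, ← fits_iff B (phK Kind.D ∘ k) i js hjn hji Kind.I (IndepOn B)
        (fun _ => Iff.rfl)] at h
      obtain ⟨col, hcol'⟩ := h
      refine ⟨col, fun j => ?_⟩
      have h3 := hcol' j
      by_cases hj : j = i
      · subst hj
        rw [Function.update_self] at h3 ⊢
        exact h3
      · rw [Function.update_of_ne hj] at h3 ⊢
        cases h : k j with
        | I => rw [Function.comp, h] at h3; exact h3
        | D => rw [Function.comp, h] at h3; exact h97_indep_KOn B _ h3 Kind.D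
        | F => rw [Function.comp, h] at h3; exact h3

/-- Isolation of connected graphs with a partition into `p` sets of maximum degree at most one. -/
theorem isolation_part {W W' : Type} [Fintype W] [Fintype W']
    (B : SimpleGraph W) (hB : B.Connected) (p : ℕ) (hp : 2 ≤ p)
    (hcol : B.Colorable (p + 1)) (nb : ¬ B.Colorable p) (col : W → Fin p)
    (h : ∀ i, Deg1On B {w | col w = i})
    (H : SimpleGraph W') (hH : H.Connected) (q : ℕ) (hq : 1 ≤ q)
    (heq : QEq q B H) : Nonempty (B ≃g H) := by
  -- a partition with as few sets of kind `D` as possible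
  let num : (Fin p → Kind) → ℕ := fun k => (univ.filter (fun i => k i = Kind.D)).card
  have hex : ∃ n, ∃ k : Fin p → Kind, (∀ j, k j ≠ Kind.F) ∧ FitsK B k ∧ num k = n :=
    ⟨_, fun _ => Kind.D, fun _ => by simp, ⟨col, h⟩, rfl⟩
  obtain ⟨k, hk1, hk2, hk3⟩ := Nat.find_spec hex
  have hmin : ∀ k' : Fin p → Kind, (∀ j, k' j ≠ Kind.F) → FitsK B k' → num k ≤ num k' := by
    intro k' h1 h2
    rw [hk3]
    exact Nat.find_min' hex ⟨k', h1, h2, rfl⟩
  have hD : ∃ i, k i = Kind.D := by
    by_contra hcon
    push Not at hcon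
    apply nb
    refine col_of_fits B p k (fun i => ?_) hk2
    cases h : k i with
    | I => rfl
    | D => exact absurd h (hcon i)
    | F => exact absurd h (hk1 i)
  obtain ⟨i, hi⟩ := hD
  refine isolation_kinds B hB p hp hcol nb k i hi hk2 ?_ (Or.inl hk1) H hH q hq heq
  intro hcon
  have h1 := hmin (Function.update k i Kind.I) (fun j => by
    by_cases hj : j = i
    · subst hj
      rw [Function.update_self]
      simp
    · rw [Function.update_of_ne hj]
      exact hk1 j) hcon
  have h2 : num (Function.update k i Kind.I) < num k := by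
    apply Finset.card_lt_card
    rw [Finset.ssubset_iff_of_subset]
    · refine ⟨i, Finset.mem_filter.mpr ⟨Finset.mem_univ _, hi⟩, fun h => ?_⟩
      have := (Finset.mem_filter.mp h).2
      rw [Function.update_self] at this
      simp at this
    · intro j hj
      have h3 := (Finset.mem_filter.mp hj).2
      refine Finset.mem_filter.mpr ⟨Finset.mem_univ _, ?_⟩
      by_cases hji : j = i
      · subst hji
        exact hi
      · rwa [Function.update_of_ne hji] at h3
  omega

end Pool.Agent.H65.RI
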