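import Pool.Agent.H65.RK.Defs
import Pool.Agent.H65.RI.SysL
import Pool.Agent.H65.RI.Hyp
import Pool.Agent.H65.RI.Emb
import Pool.Agent.H65.RI.Ind
import Pool.Agent.H65.RI.PrivL
import Pool.Agent.H65.RI.Misc

set_option autoImplicit false

/-!
Module KIN: the three kinds of parts and their block graphs.
-/

namespace Pool.Agent.H65.RI

open Finset Classical

theorem h35_forest_union {W α : Type} (B : SimpleGraph W) (S : Set W)
    (part : W → α) (h : ∀ u ∈ S, ∀ v ∈ S, B.Adj u v → part u = part v)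
    (hS : ∀ a, ForestOn B {u | u ∈ S ∧ part u = a}) : ForestOn B S := by
  intro A hA hAS
  have h1 : ∀ a ∈ A.image part,
      (((A.filter (fun u => part u = a)) ×ˢ (A.filter (fun u => part u = a))).filter
        (fun p => B.Adj p.1 p.2)).card + 2 ≤ 2 * (A.filter (fun u => part u = a)).card := by
    intro a ha
    obtain ⟨u, hu, rfl⟩ := Finset.mem_image.mp ha
    refine hS (part u) _ ⟨u, Finset.mem_filter.mpr ⟨hu, rfl⟩⟩ ?_
    intro v hv
    have hv' := Finset.mem_filter.mp (Finset.mem_coe.mp hv)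
    exact ⟨hAS (Finset.mem_coe.mpr hv'.1), hv'.2⟩
  have h2 : ((A ×ˢ A).filter (fun p => B.Adj p.1 p.2)).card ≤ ∑ a ∈ A.image part,
      (((A.filter (fun u => part u = a)) ×ˢ (A.filter (fun u => part u = a))).filter
        (fun p => B.Adj p.1 p.2)).card := by
    refine le_trans (Finset.card_le_card ?_) Finset.card_biUnion_le
    intro p hp
    obtain ⟨hp1, hp2⟩ := Finset.mem_filter.mp hp
    obtain ⟨hp3, hp4⟩ := Finset.mem_product.mp hp1
    rw [Finset.mem_biUnion]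
    refine ⟨part p.1, Finset.mem_image_of_mem part hp3, ?_⟩
    refine Finset.mem_filter.mpr ⟨Finset.mem_product.mpr ⟨Finset.mem_filter.mpr ⟨hp3, rfl⟩,
      Finset.mem_filter.mpr ⟨hp4, ?_⟩⟩, hp2⟩
    exact (h p.1 (hAS (Finset.mem_coe.mpr hp3)) p.2 (hAS (Finset.mem_coe.mpr hp4)) hp2).symm
  have h3 : ∑ a ∈ A.image part, (A.filter (fun u => part u = a)).card = A.card :=
    (Finset.card_eq_sum_card_image part A).symm
  have h4 := Finset.sum_le_sum h1
  rw [Finset.sum_add_distrib, Finset.sum_const, smul_eq_mul, ← Finset.mul_sum, h3] at h4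
  have h5 : 1 ≤ (A.image part).card := Finset.card_pos.mpr (hA.image part)
  omega

/-- Kinds are closed under disjoint unions. -/
theorem kOn_union {W α : Type} [Fintype W] (t : Kind) (B : SimpleGraph W) (S : Set W)
    (part : W → α) (h : ∀ u ∈ S, ∀ v ∈ S, B.Adj u v → part u = part v)
    (hS : ∀ a, KOn t B {u | u ∈ S ∧ part u = a}) : KOn t B S := by
  cases t with
  | I =>
    intro u hu v hv huv
    exact hS (part u) u ⟨hu, rfl⟩ v ⟨hv, (h u hu v hv huv).symm⟩ huv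
  | D =>
    intro u hu v hv v' hv' huv huv'
    exact hS (part u) u ⟨hu, rfl⟩ v ⟨hv, (h u hu v hv huv).symm⟩ v'
      ⟨hv', (h u hu v' hv' huv').symm⟩ huv huv'
  | F => exact h35_forest_union B S part h hS

/-- The intended colouring of a side. -/
theorem sys_stage {W : Type} [Fintype W] (B : SimpleGraph W) (n0 : NoSep B)
    (c0 : 2 ≤ Fintype.card W) {ι : Type} {nA nB m R : ℕ} (E : ι → Fin nA → Fin m × Fin nB)
    (hS : Sparse E R) (hR : (Fintype.card W) ^ 2 ≤ R) (hA : 2 ≤ nA) (hB : 1 ≤ nB)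
    (A : SimpleGraph (Fin nA)) (q : ℕ) (hgA : Good A q B B) (Y : SimpleGraph (Fin nB))
    (cY : Fin nB → Fin nB → ℕ) (hcY : Sm cY) (hYb : ∀ a b, Y.Adj a b → cY a b ≤ q)
    (hYf : ∀ j, j < q → ∀ f : W → Fin nB, ¬ Mono Y B cY j f) (t : Kind)
    (hYt : ∀ (S : Set W) (f : W → Fin nB), EmbS Y B cY q S f → KOn t B S) :
    ∃ cZ : (Fin m × Fin nB) → (Fin m × Fin nB) → ℕ, Sm cZ ∧
      (∀ a b, (Sys E A Y).Adj a b → cZ a b ≤ q) ∧
      (∀ j, j < q → ∀ f : W → Fin m × Fin nB, ¬ Mono (Sys E A Y) B cZ j f) ∧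
      ∀ (S : Set W) (f : W → Fin m × Fin nB), EmbS (Sys E A Y) B cZ q S f → KOn t B S := by
  have hR2 : 2 ≤ R := by nlinarith
  have hA1 : 1 ≤ nA := by omega
  obtain ⟨cA, hcA, hbA, h0, h1⟩ := hgA
  obtain ⟨cZ, hcZ, hcZA, hcZY⟩ := sys_col hS hR2 hA hB A Y cA cY hcA hcY
  refine ⟨cZ, hcZ, ?_, ?_, ?_⟩
  · rintro x y ⟨hne, ⟨j, a, b, hab, rfl, rfl⟩ | ⟨l, a, b, hab, rfl, rfl⟩⟩
    · rw [hcZA j a b hab]
      exact (hbA a b hab).le
    · rw [hcZY l a b hab]
      exact hYb a b hab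
  · intro j hj f hf
    rcases sys_local B n0 c0 hS hR hA hB A Y f hf.1 (fun u v huv => (hf.2 u v huv).1) with
      ⟨i, g, hg1, hg2, hg3⟩ | ⟨l, g, hg1, hg2, hg3⟩
    · have hm : Mono A B cA j g := by
        refine ⟨hg1, fun u v huv => ⟨hg3 u v huv, ?_⟩⟩
        rw [← hcZA i _ _ (hg3 u v huv), hg2, hg2]
        exact (hf.2 u v huv).2
      rcases Nat.eq_zero_or_pos j with rfl | hj0
      · exact h0 g hm
      · exact h1 j hj0 hj g hm
    · refine hYf j hj g ⟨hg1, fun u v huv => ⟨hg3 u v huv, ?_⟩⟩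
      rw [← hcZY l _ _ (hg3 u v huv), hg2, hg2]
      exact (hf.2 u v huv).2
  · rintro S f ⟨hf1, hf2⟩
    -- an edge of colour `q` lies in a block
    have key : ∀ x y, (Sys E A Y).Adj x y → cZ x y = q →
        x.1 = y.1 ∧ Y.Adj x.2 y.2 ∧ cY x.2 y.2 = q := by
      rintro x y ⟨hne, ⟨j, a, b, hab, rfl, rfl⟩ | ⟨l, a, b, hab, rfl, rfl⟩⟩ hq
      · rw [hcZA j a b hab] at hq
        exact absurd hq (hbA a b hab).ne
      · rw [hcZY l a b hab] at hq
        exact ⟨rfl, hab, hq⟩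
    refine kOn_union t B S (fun u => (f u).1) ?_ ?_
    · intro u hu v hv huv
      exact (key _ _ (hf2 u hu v hv huv).1 (hf2 u hu v hv huv).2).1
    · intro l
      refine hYt _ (fun u => (f u).2) ⟨?_, ?_⟩
      · rintro u ⟨hu, hul⟩ v ⟨hv, hvl⟩ huv
        exact hf1 hu hv (Prod.ext (hul.trans hvl.symm) huv)
      · rintro u ⟨hu, hul⟩ v ⟨hv, hvl⟩ huv
        exact (key _ _ (hf2 u hu v hv huv).1 (hf2 u hu v hv huv).2).2

end Pool.Agent.H65.RI
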