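import Pool.Agent.H65.RK.Defs

set_option autoImplicit false

/-!
Module PST: one step of the partite construction (Hales-Jewett amalgamation over an edge `x y`).
-/

namespace Pool.Agent.H65.RI

open Finset Classical

section h26

variable {VC V ι : Type}

/-- The edges of `P` over the edge `x y`. -/
abbrev h26_al (P : SimpleGraph V) (π : V → VC) (x y : VC) : Type :=
  {e : V × V // P.Adj e.1 e.2 ∧ π e.1 = x ∧ π e.2 = y}

/-- The vertex set of the amalgam. -/
abbrev h26_V (V A ι : Type) : Type :=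
  (ι → V) ⊕ ((ι → V) ⊕ (Combinatorics.Line A ι × V))

/-- The copy of `P` on a line. -/
noncomputable def h26_phi (P : SimpleGraph V) (π : V → VC) (x y : VC)
    (L : Combinatorics.Line (h26_al P π x y) ι) (v : V) : h26_V V (h26_al P π x y) ι :=
  if π v = x then Sum.inl (fun i => (L.idxFun i).elim v (fun e => e.1.1))
  else if π v = y then Sum.inr (Sum.inl (fun i => (L.idxFun i).elim v (fun e => e.1.2)))
  else Sum.inr (Sum.inr (L, v))

/-- The projection of the amalgam. -/
def h26_pi {A : Type} (π : V → VC) (x y : VC) : h26_V V A ι → VC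
  | Sum.inl _ => x
  | Sum.inr (Sum.inl _) => y
  | Sum.inr (Sum.inr z) => π z.2

variable (P : SimpleGraph V) (π : V → VC) (x y : VC)

lemma h26_phi_x (L : Combinatorics.Line (h26_al P π x y) ι) {v : V} (h : π v = x) :
    h26_phi P π x y L v = Sum.inl (fun i => (L.idxFun i).elim v (fun e => e.1.1)) := by
  simp only [h26_phi, if_pos h]

lemma h26_phi_y (hxy : x ≠ y) (L : Combinatorics.Line (h26_al P π x y) ι) {v : V} (h : π v = y) :
    h26_phi P π x y L v =
      Sum.inr (Sum.inl (fun i => (L.idxFun i).elim v (fun e => e.1.2))) := by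
  have h' : π v ≠ x := by
    rw [h]
    exact hxy.symm
  simp only [h26_phi, if_neg h', if_pos h]

lemma h26_phi_z (L : Combinatorics.Line (h26_al P π x y) ι) {v : V} (h : π v ≠ x)
    (h' : π v ≠ y) : h26_phi P π x y L v = Sum.inr (Sum.inr (L, v)) := by
  simp only [h26_phi, if_neg h, if_neg h']

lemma h26_pi_phi (hxy : x ≠ y) (L : Combinatorics.Line (h26_al P π x y) ι) (v : V) :
    h26_pi π x y (h26_phi P π x y L v) = π v := by
  by_cases h : π v = x
  · rw [h26_phi_x P π x y L h, h]
    rfl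
  · by_cases h' : π v = y
    · rw [h26_phi_y P π x y hxy L h', h']
      rfl
    · rw [h26_phi_z P π x y L h h']
      rfl

lemma h26_phi_inj (hxy : x ≠ y) (L : Combinatorics.Line (h26_al P π x y) ι) :
    Function.Injective (h26_phi P π x y L) := by
  intro u v huv
  have hpi : π u = π v := by
    rw [← h26_pi_phi P π x y hxy L u, ← h26_pi_phi P π x y hxy L v, huv]
  obtain ⟨i, hi⟩ := L.proper
  by_cases h : π u = x
  · rw [h26_phi_x P π x y L h, h26_phi_x P π x y L (hpi ▸ h)] at huv
    have := congrFun (Sum.inl.inj huv) i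
    simpa [hi] using this
  · by_cases h' : π u = y
    · rw [h26_phi_y P π x y hxy L h', h26_phi_y P π x y hxy L (hpi ▸ h')] at huv
      have := congrFun (Sum.inl.inj (Sum.inr.inj huv)) i
      simpa [hi] using this
    · rw [h26_phi_z P π x y L h h', h26_phi_z P π x y L (hpi ▸ h) (hpi ▸ h')] at huv
      exact (Prod.mk.inj (Sum.inr.inj (Sum.inr.inj huv))).2

/-- The amalgam. -/
def h26_P (hxy : x ≠ y) (hπ : ∀ u v, P.Adj u v → π u ≠ π v) :
    SimpleGraph (h26_V V (h26_al P π x y) ι) where
  Adj a b := ∃ (L : Combinatorics.Line (h26_al P π x y) ι) (u v : V), P.Adj u v ∧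
    h26_phi P π x y L u = a ∧ h26_phi P π x y L v = b
  symm := ⟨fun _ _ ⟨L, u, v, h, h1, h2⟩ => ⟨L, v, u, h.symm, h2, h1⟩⟩
  loopless := ⟨fun a ⟨L, u, v, h, h1, h2⟩ => by
    have h3 := h26_phi_inj P π x y hxy L (h1.trans h2.symm)
    subst h3
    exact hπ u u h rfl⟩

/-- A moving coordinate of the line `L0` recovers an edge of `P`. -/
lemma h26_pull (hxy : x ≠ y) (hπ : ∀ u v, P.Adj u v → π u ≠ π v)
    (L0 : Combinatorics.Line (h26_al P π x y) ι) (u0 v0 : V)
    (h : (h26_P P π x y hxy hπ).Adj (h26_phi P π x y L0 u0) (h26_phi P π x y L0 v0)) :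
    P.Adj u0 v0 := by
  obtain ⟨L, u, v, huv, h1, h2⟩ := h
  have hpu : π u = π u0 := by
    rw [← h26_pi_phi P π x y hxy L u, ← h26_pi_phi P π x y hxy L0 u0, h1]
  have hpv : π v = π v0 := by
    rw [← h26_pi_phi P π x y hxy L v, ← h26_pi_phi P π x y hxy L0 v0, h2]
  by_cases hL : L = L0
  · subst hL
    rw [← h26_phi_inj P π x y hxy L h1, ← h26_phi_inj P π x y hxy L h2]
    exact huv
  · obtain ⟨i, hi⟩ := L0.proper
    have hu : π u = x ∨ π u = y := by
      by_contra hcon
      push Not at hcon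
      rw [h26_phi_z P π x y L hcon.1 hcon.2,
        h26_phi_z P π x y L0 (hpu ▸ hcon.1) (hpu ▸ hcon.2)] at h1
      exact hL (Prod.mk.inj (Sum.inr.inj (Sum.inr.inj h1))).1
    have hv : π v = x ∨ π v = y := by
      by_contra hcon
      push Not at hcon
      rw [h26_phi_z P π x y L hcon.1 hcon.2,
        h26_phi_z P π x y L0 (hpv ▸ hcon.1) (hpv ▸ hcon.2)] at h2
      exact hL (Prod.mk.inj (Sum.inr.inj (Sum.inr.inj h2))).1
    have hne := hπ u v huv
    have key : ∀ a b : V, P.Adj a b → π a = x → π b = y →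
        ∀ a0 b0 : V, π a = π a0 → π b = π b0 →
        h26_phi P π x y L a = h26_phi P π x y L0 a0 →
        h26_phi P π x y L b = h26_phi P π x y L0 b0 → P.Adj a0 b0 := by
      intro a b hab ha hb a0 b0 haa hbb e1 e2
      rw [h26_phi_x P π x y L ha, h26_phi_x P π x y L0 (haa ▸ ha)] at e1
      rw [h26_phi_y P π x y hxy L hb, h26_phi_y P π x y hxy L0 (hbb ▸ hb)] at e2
      have e1' := congrFun (Sum.inl.inj e1) i
      have e2' := congrFun (Sum.inl.inj (Sum.inr.inj e2)) i
      simp only [hi, Option.elim_none] at e1' e2'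
      rw [← e1', ← e2']
      rcases hLi : L.idxFun i with _ | e
      · simpa [hLi] using hab
      · simpa [hLi] using e.2.1
    rcases hu with hu | hu <;> rcases hv with hv | hv
    · exact absurd (hu.trans hv.symm) hne
    · exact key u v huv hu hv u0 v0 hpu hpv h1 h2
    · exact (key v u huv.symm hv hu v0 u0 hpv hpu h2 h1).symm
    · exact absurd (hu.trans hv.symm) hne

/-- Two prescribed colours. -/
lemma h26_perm {p : ℕ} (a b c0 c1 : Fin p) (hab : a ≠ b) (h01 : c0 ≠ c1) :
    ∃ σ : Fin p → Fin p, Function.Injective σ ∧ σ a = c0 ∧ σ b = c1 := by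
  have h1 : Equiv.swap a c0 b ≠ c0 := by
    intro h
    have h2 : Equiv.swap a c0 b = Equiv.swap a c0 a := by
      rw [h, Equiv.swap_apply_left]
    exact hab ((Equiv.swap a c0).injective h2).symm
  refine ⟨fun z => Equiv.swap (Equiv.swap a c0 b) c1 (Equiv.swap a c0 z),
    (Equiv.injective _).comp (Equiv.injective _), ?_, ?_⟩
  · simp only [Equiv.swap_apply_left]
    exact Equiv.swap_apply_of_ne_of_ne h1.symm h01
  · simp only [Equiv.swap_apply_left]

lemma h26_norm {p : ℕ} (C : SimpleGraph VC) (hp : 2 ≤ p) (T : Finset VC) (χ : VC → Fin p)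
    (hχ : ∀ u ∈ T, ∀ v ∈ T, C.Adj u v → χ u ≠ χ v) (x y : VC) (hxy : C.Adj x y)
    (c0 c1 : Fin p) (h01 : c0 ≠ c1) :
    ∃ χ' : VC → Fin p, (∀ u ∈ T, ∀ v ∈ T, C.Adj u v → χ' u ≠ χ' v) ∧
      (x ∈ T → χ' x = c0) ∧ (y ∈ T → χ' y = c1) := by
  have hex : ∀ a : Fin p, ∃ b : Fin p, a ≠ b := by
    intro a
    have : Nontrivial (Fin p) := Fin.nontrivial_iff_two_le.2 hp
    obtain ⟨b, hb⟩ := exists_ne a
    exact ⟨b, hb.symm⟩
  obtain ⟨a, b, hab, ha, hb⟩ : ∃ a b : Fin p, a ≠ b ∧ (x ∈ T → χ x = a) ∧ (y ∈ T → χ y = b) := by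
    by_cases hx : x ∈ T
    · by_cases hy : y ∈ T
      · exact ⟨χ x, χ y, hχ x hx y hy hxy, fun _ => rfl, fun _ => rfl⟩
      · obtain ⟨b, hb⟩ := hex (χ x)
        exact ⟨χ x, b, hb, fun _ => rfl, fun h => absurd h hy⟩
    · obtain ⟨b, hb⟩ := hex (χ y)
      exact ⟨b, χ y, hb.symm, fun h => absurd h hx, fun _ => rfl⟩
  obtain ⟨σ, hσ, h0, h1⟩ := h26_perm a b c0 c1 hab h01
  refine ⟨fun z => σ (χ z), fun u hu v hv huv => ?_, fun h => ?_, fun h => ?_⟩
  · exact fun h => hχ u hu v hv huv (hσ h)
  · show σ (χ x) = c0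
    rw [ha h, h0]
  · show σ (χ y) = c1
    rw [hb h, h1]

end h26

/-- Local colourability of the amalgam. -/
lemma h26_loc {VC V ι : Type} (C : SimpleGraph VC) (n p : ℕ) (hp : 2 ≤ p)
    (hC : LocCol C n p) (x y : VC) (hxy : C.Adj x y) (P : SimpleGraph V) (π : V → VC)
    (hπ : ∀ u v, P.Adj u v → C.Adj (π u) (π v)) (hP : LocCol P (n + 1) p) :
    LocCol (h26_P (ι := ι) P π x y hxy.ne (fun u v h => (hπ u v h).ne)) (n + 1) p := by
  intro S hS
  set Q := h26_P (ι := ι) P π x y hxy.ne (fun u v h => (hπ u v h).ne) with hQ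
  set pr : h26_V V (h26_al P π x y) ι → VC := h26_pi π x y with hpr
  have hhom : ∀ a b, Q.Adj a b → C.Adj (pr a) (pr b) := by
    rintro a b ⟨L, u, v, huv, rfl, rfl⟩
    rw [hpr, h26_pi_phi P π x y hxy.ne, h26_pi_phi P π x y hxy.ne]
    exact hπ u v huv
  -- pulling back a colouring of `C`
  have hback : ∀ T : Finset (h26_V V (h26_al P π x y) ι), (T.image pr).card ≤ n →
      ∃ χ : h26_V V (h26_al P π x y) ι → Fin p, ∀ u ∈ T, ∀ v ∈ T, Q.Adj u v → χ u ≠ χ v := by
    intro T hT
    obtain ⟨χ, hχ⟩ := hC _ hT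
    exact ⟨fun z => χ (pr z), fun u hu v hv huv =>
      hχ _ (mem_image_of_mem pr hu) _ (mem_image_of_mem pr hv) (hhom u v huv)⟩
  by_cases hinj : Set.InjOn pr (S : Set (h26_V V (h26_al P π x y) ι))
  swap
  · apply hback
    have h1 : (S.image pr).card ≠ S.card := fun h => hinj (card_image_iff.1 h)
    have h2 : (S.image pr).card ≤ S.card := card_image_le
    omega
  let c0 : Fin p := ⟨0, by omega⟩
  let c1 : Fin p := ⟨1, by omega⟩
  have h01 : c0 ≠ c1 := by
    intro h
    have := congrArg Fin.val h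
    simp [c0, c1] at this
  by_cases hB : ∃ L0 : Combinatorics.Line (h26_al P π x y) ι, ∀ L v,
      (Sum.inr (Sum.inr (L, v)) : h26_V V (h26_al P π x y) ι) ∈ S → L = L0
  · obtain ⟨L0, hL0⟩ := hB
    by_cases hran : ∀ z ∈ S, ∃ v, h26_phi P π x y L0 v = z
    · -- everything lies in the copy on `L0`
      let S0 : Finset V := S.preimage (h26_phi P π x y L0)
        ((h26_phi_inj P π x y hxy.ne L0).injOn)
      have hS0 : S0.card ≤ n + 1 := by
        refine le_trans ?_ hS
        exact card_le_card_of_injOn (h26_phi P π x y L0)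
          (fun v hv => (mem_preimage.1 hv)) ((h26_phi_inj P π x y hxy.ne L0).injOn)
      obtain ⟨χ, hχ⟩ := hP S0 hS0
      refine ⟨fun z => if h : ∃ v, h26_phi P π x y L0 v = z then χ h.choose else c0, ?_⟩
      intro a ha b hb hab
      obtain ⟨u, rfl⟩ := hran a ha
      obtain ⟨v, rfl⟩ := hran b hb
      have e1 : ∀ w, (if h : ∃ v, h26_phi P π x y L0 v = h26_phi P π x y L0 w
          then χ h.choose else c0) = χ w := by
        intro w
        have hw : ∃ v, h26_phi P π x y L0 v = h26_phi P π x y L0 w := ⟨w, rfl⟩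
        rw [dif_pos hw]
        congr 1
        exact h26_phi_inj P π x y hxy.ne L0 hw.choose_spec
      beta_reduce
      rw [e1, e1]
      exact hχ u (mem_preimage.2 ha) v (mem_preimage.2 hb)
        (h26_pull P π x y hxy.ne _ L0 u v hab)
    · -- a vertex with at most one neighbour
      push Not at hran
      obtain ⟨z, hz, hzr⟩ := hran
      have hnb : ∀ b ∈ S, Q.Adj z b → (pr z = x ∧ pr b = y) ∨ (pr z = y ∧ pr b = x) := by
        rintro b hb ⟨L, u, v, huv, h1, h2⟩
        have hLne : L ≠ L0 := by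
          rintro rfl
          exact hzr u h1
        have hu : π u = x ∨ π u = y := by
          by_contra hcon
          push Not at hcon
          rw [h26_phi_z P π x y L hcon.1 hcon.2] at h1
          rw [← h1] at hz
          exact hLne (hL0 _ _ hz)
        have hv : π v = x ∨ π v = y := by
          by_contra hcon
          push Not at hcon
          rw [h26_phi_z P π x y L hcon.1 hcon.2] at h2
          rw [← h2] at hb
          exact hLne (hL0 _ _ hb)
        have e1 : pr z = π u := by rw [← h1, hpr, h26_pi_phi P π x y hxy.ne]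
        have e2 : pr b = π v := by rw [← h2, hpr, h26_pi_phi P π x y hxy.ne]
        have hne := (hπ u v huv).ne
        rw [e1, e2]
        rcases hu with hu | hu <;> rcases hv with hv | hv
        · exact absurd (hu.trans hv.symm) hne
        · exact Or.inl ⟨hu, hv⟩
        · exact Or.inr ⟨hu, hv⟩
        · exact absurd (hu.trans hv.symm) hne
      obtain ⟨χ, hχ⟩ := hback (S.erase z) (by
        have h1 : ((S.erase z).image pr).card ≤ (S.erase z).card := card_image_le
        have h2 := card_erase_lt_of_mem hz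
        omega)
      have huniq : ∀ b ∈ S, ∀ b' ∈ S, Q.Adj z b → Q.Adj z b' → b = b' := by
        intro b hb b' hb' h1 h2
        apply hinj hb hb'
        rcases hnb b hb h1 with ⟨h3, h4⟩ | ⟨h3, h4⟩ <;>
          rcases hnb b' hb' h2 with ⟨h5, h6⟩ | ⟨h5, h6⟩
        · rw [h4, h6]
        · exact absurd (h3.symm.trans h5) hxy.ne
        · exact absurd (h5.symm.trans h3) hxy.ne
        · rw [h4, h6]
      -- the colour of `z`
      obtain ⟨cz, hcz⟩ : ∃ cz : Fin p, ∀ b ∈ S, Q.Adj z b → cz ≠ χ b := by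
        by_cases hb : ∃ b ∈ S, Q.Adj z b
        · obtain ⟨b, hb, hzb⟩ := hb
          have : Nontrivial (Fin p) := Fin.nontrivial_iff_two_le.2 hp
          obtain ⟨cz, hcz⟩ := exists_ne (χ b)
          refine ⟨cz, fun b' hb' hzb' => ?_⟩
          rw [huniq b' hb' b hb hzb' hzb]
          exact hcz
        · push Not at hb
          exact ⟨c0, fun b hb' h => absurd h (hb b hb')⟩
      refine ⟨fun w => if w = z then cz else χ w, ?_⟩
      intro a ha b hb hab
      by_cases haz : a = z
      · have hbz : b ≠ z := by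
          rintro rfl
          rw [haz] at hab
          exact Q.loopless.irrefl _ hab
        beta_reduce
        rw [if_pos haz, if_neg hbz]
        exact hcz b hb (haz ▸ hab)
      · by_cases hbz : b = z
        · beta_reduce
          rw [if_neg haz, if_pos hbz]
          exact (hcz a ha (hbz ▸ hab.symm)).symm
        · beta_reduce
          rw [if_neg haz, if_neg hbz]
          exact hχ a (mem_erase.2 ⟨haz, ha⟩) b (mem_erase.2 ⟨hbz, hb⟩) hab
  · -- two different lines
    push Not at hB
    let T : Combinatorics.Line (h26_al P π x y) ι → Finset VC := fun L =>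
      (S.filter (fun z => ∀ L' v, z = Sum.inr (Sum.inr (L', v)) → L' = L)).image pr
    have hT : ∀ L, (T L).card ≤ n := by
      intro L
      obtain ⟨L', v, hmem, hne⟩ := hB L
      have h1 : (T L).card ≤
          (S.filter (fun z => ∀ L' v, z = Sum.inr (Sum.inr (L', v)) → L' = L)).card :=
        card_image_le
      have h2 : (S.filter (fun z => ∀ L' v, z = Sum.inr (Sum.inr (L', v)) → L' = L)).card <
          S.card := by
        apply card_lt_card
        rw [filter_ssubset]
        exact ⟨_, hmem, fun h => hne (h L' v rfl)⟩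
      omega
    have hχ : ∀ L, ∃ χ : VC → Fin p, (∀ u ∈ T L, ∀ v ∈ T L, C.Adj u v → χ u ≠ χ v) ∧
        (x ∈ T L → χ x = c0) ∧ (y ∈ T L → χ y = c1) := by
      intro L
      obtain ⟨χ, hχ⟩ := hC (T L) (hT L)
      exact h26_norm C hp (T L) χ hχ x y hxy c0 c1 h01
    choose χ hχ1 hχ2 hχ3 using hχ
    let F : h26_V V (h26_al P π x y) ι → Fin p := fun z =>
      if pr z = x then c0 else if pr z = y then c1 else
        match z with
        | Sum.inl _ => c0
        | Sum.inr (Sum.inl _) => c0
        | Sum.inr (Sum.inr w) => χ w.1 (π w.2)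
    have hFx : ∀ z, pr z = x → F z = c0 := fun z h => if_pos h
    have hFy : ∀ z, pr z = y → F z = c1 := fun z h => by
      have h' : pr z ≠ x := by
        rw [h]
        exact hxy.ne.symm
      show (if pr z = x then c0 else if pr z = y then c1 else _) = c1
      rw [if_neg h', if_pos h]
    have hFz : ∀ L v, π v ≠ x → π v ≠ y →
        F (Sum.inr (Sum.inr (L, v))) = χ L (π v) := by
      intro L v h h'
      have h1 : pr (Sum.inr (Sum.inr (L, v))) = π v := rfl
      show (if pr (Sum.inr (Sum.inr (L, v))) = x then c0 else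
        if pr (Sum.inr (Sum.inr (L, v))) = y then c1 else χ L (π v)) = _
      rw [h1, if_neg h, if_neg h']
    -- on the part of `S` belonging to `L`, `F` is `χ L ∘ pr`
    have hFL : ∀ L u, h26_phi P π x y L u ∈ S → π u ∈ T L ∧
        F (h26_phi P π x y L u) = χ L (π u) := by
      intro L u hu
      have hmem : π u ∈ T L := by
        have : h26_phi P π x y L u ∈
            S.filter (fun z => ∀ L' v, z = Sum.inr (Sum.inr (L', v)) → L' = L) := by
          rw [mem_filter]
          refine ⟨hu, ?_⟩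
          intro L' v hz
          by_cases h : π u = x
          · rw [h26_phi_x P π x y L h] at hz
            cases hz
          · by_cases h' : π u = y
            · rw [h26_phi_y P π x y hxy.ne L h'] at hz
              cases Sum.inr.inj hz
            · rw [h26_phi_z P π x y L h h'] at hz
              exact (Prod.mk.inj (Sum.inr.inj (Sum.inr.inj hz))).1.symm
        have h2 := mem_image_of_mem pr this
        rw [hpr, h26_pi_phi P π x y hxy.ne] at h2
        exact h2
      refine ⟨hmem, ?_⟩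
      have e : pr (h26_phi P π x y L u) = π u := by rw [hpr, h26_pi_phi P π x y hxy.ne]
      by_cases h : π u = x
      · rw [hFx _ (e.trans h), h, hχ2 L (h ▸ hmem)]
      · by_cases h' : π u = y
        · rw [hFy _ (e.trans h'), h', hχ3 L (h' ▸ hmem)]
        · rw [h26_phi_z P π x y L h h', hFz L u h h']
    refine ⟨F, ?_⟩
    rintro a ha b hb ⟨L, u, v, huv, rfl, rfl⟩
    rw [(hFL L u ha).2, (hFL L v hb).2]
    exact hχ1 L _ (hFL L u ha).1 _ (hFL L v hb).1 (hπ u v huv)

theorem pstep {VC V : Type} [Fintype V] (C : SimpleGraph VC) (n p R : ℕ) (hp : 2 ≤ p) (hR : 1 ≤ R)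
    (hC : LocCol C n p) (x y : VC) (hxy : C.Adj x y) (P : SimpleGraph V) (π : V → VC)
    (hπ : ∀ u v, P.Adj u v → C.Adj (π u) (π v)) (hP : LocCol P (n + 1) p) :
    ∃ (V' : Type) (_ : Fintype V') (P' : SimpleGraph V') (π' : V' → VC),
      (∀ u v, P'.Adj u v → C.Adj (π' u) (π' v)) ∧ LocCol P' (n + 1) p ∧
      ∀ κ : V' → V' → Fin R, ∃ φ : V → V', (∀ u v, P.Adj u v → P'.Adj (φ u) (φ v)) ∧
        (∀ u, π' (φ u) = π u) ∧
        ∃ l, ∀ u v, P.Adj u v → π u = x → π v = y → κ (φ u) (φ v) = l := by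
  obtain ⟨ι, hι, hHJ⟩ := Combinatorics.Line.exists_mono_in_high_dimension (h26_al P π x y) (Fin R)
  have : Finite (Combinatorics.Line (h26_al P π x y) ι) := by
    apply Finite.of_injective (fun L : Combinatorics.Line (h26_al P π x y) ι => L.idxFun)
    intro L L' h
    exact Combinatorics.Line.ext h
  refine ⟨h26_V V (h26_al P π x y) ι, Fintype.ofFinite _,
    h26_P P π x y hxy.ne (fun u v h => (hπ u v h).ne), h26_pi π x y, ?_,
    h26_loc C n p hp hC x y hxy P π hπ hP, ?_⟩
  · rintro a b ⟨L, u, v, huv, rfl, rfl⟩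
    rw [h26_pi_phi P π x y hxy.ne, h26_pi_phi P π x y hxy.ne]
    exact hπ u v huv
  · intro κ
    obtain ⟨L, l, hl⟩ := hHJ (fun w => κ (Sum.inl (fun i => (w i).1.1))
      (Sum.inr (Sum.inl (fun i => (w i).1.2))))
    refine ⟨h26_phi P π x y L, fun u v huv => ⟨L, u, v, huv, rfl, rfl⟩,
      h26_pi_phi P π x y hxy.ne L, l, ?_⟩
    intro u v huv hu hv
    have h1 := hl ⟨(u, v), huv, hu, hv⟩
    rw [← h1, h26_phi_x P π x y L hu, h26_phi_y P π x y hxy.ne L hv]
    congr 2
    · ext i
      rcases hLi : L.idxFun i with _ | e <;> simp [hLi]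
    · congr 1
      ext i
      rcases hLi : L.idxFun i with _ | e <;> simp [hLi]

end Pool.Agent.H65.RI
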