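import Pool.Agent.H65.RK.Add
import Pool.Agent.H65.RK.Bas
import Pool.Agent.H65.RK.KBl
import Pool.Agent.H65.RI.Fin

set_option autoImplicit false

/-!
Module PND: recursion over the sides.
-/

namespace Pool.Agent.H65.RI

open Finset Classical

theorem qs_nonempty {V W : Type} [Nonempty W] {nA : ℕ} (hnA : 2 ≤ nA) (H : SimpleGraph V)
    (A : SimpleGraph (Fin nA)) (R K : ℕ) (B : SimpleGraph W) (p τ : ℕ) (S : Set W)
    (h : QS H A R K B p τ S) : Nonempty V := by
  by_contra hV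
  rw [not_nonempty_iff] at hV
  rcases h (fun v => isEmptyElim v) (fun v => isEmptyElim v) (fun a => isEmptyElim a)
    (fun a => isEmptyElim a) with ⟨i, -, f, -⟩ | ⟨i, -, ⟨e, -⟩, -⟩
  · obtain ⟨w⟩ := (inferInstance : Nonempty W)
    exact isEmptyElim (f w)
  · exact isEmptyElim (e ⟨0, by omega⟩)

theorem stage_list {W WL VG : Type} [Fintype W] [Fintype WL] [Fintype VG] (B : SimpleGraph W)
    (cB : 2 ≤ Fintype.card W) (hBe : ∃ u v, B.Adj u v)
    (L : SimpleGraph WL)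
    (n0 : NoSep L) (c0 : 2 ≤ Fintype.card WL) (p τ : ℕ)
    (hτ : Fintype.card W ≤ τ) (hc : B.Colorable (p + 1)) {nA : ℕ} (hA2 : 2 ≤ nA)
    (hAW : Fintype.card W ≤ nA) (A : SimpleGraph (Fin nA)) (q : ℕ) (hq : 1 ≤ q)
    (hRich : Rich A (q + 1) 2 B p τ) (hgA : Good A q L L) (G : SimpleGraph VG)
    (hNB : NB G q B 1) (hP : PCX G q B L) (ts : List Kind)
    (hts : (∀ t ∈ ts, t = Kind.I) ∨ ∃ M : W → W → Prop, HitM B L M) : ∀ (S : Set W),
    PL B (Deg1On B) ts S → ∀ K : ℕ, ∃ (V : Type) (_ : Fintype V) (H : SimpleGraph V),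
      QS H A (q + 1) K B p τ S ∧ PVX H q B L (PL L (IndepOn L) ts) := by
  have hW : Nonempty W := Fintype.card_pos_iff.mp (by omega)
  have hLe := noSep_edge L n0 c0
  have nL := noSep_connected L n0 c0
  -- block graphs
  have hblock : ∀ t ∈ ts, t = Kind.I ∨ ∃ (n : ℕ) (Y : SimpleGraph (Fin n))
      (cY : Fin n → Fin n → ℕ), 2 ≤ n ∧
      NB Y q B 1 ∧ Sm cY ∧ (∀ a b, Y.Adj a b → cY a b ≤ q) ∧
      (∀ j, j < q → ∀ f : WL → Fin n, ¬ Mono Y L cY j f) ∧
      ∀ a b b', Y.Adj a b → cY a b = q → Y.Adj a b' → cY a b' = q → b = b' := by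
    intro t ht
    rcases hts with hI | ⟨M, hM⟩
    · exact Or.inl (hI t ht)
    · right
      have hn2 : 2 ≤ Fintype.card VG := by
        obtain ⟨a, b, hab⟩ := nb_edge G q 1 B hBe le_rfl hNB
        exact Fintype.one_lt_card_iff.mpr ⟨a, b, hab.ne⟩
      obtain ⟨c, r1, r2, r3, r4⟩ := pcx_recolour (G.comap (Fintype.equivFin VG).symm) q hq B L hLe
        nL (pcx_comap G (Fintype.equivFin VG).symm q B L hP) M hM
      exact ⟨Fintype.card VG, G.comap (Fintype.equivFin VG).symm, c, hn2,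
        nb_comap G (Fintype.equivFin VG).symm q 1 B hNB, r1, r2, r3, r4⟩
  clear hts
  induction ts with
  | nil =>
    intro S hS K
    exact base_qs B (by omega) L n0 c0 p τ hA2 A q hRich hgA G hNB hP S hS K
  | cons t ts ih =>
    rintro S ⟨S₁, S₂, rfl, -, h1, h2⟩ K
    obtain ⟨nY, Y, cY, N, hY1, hcY, hYb, hYf, hYt, hYF⟩ := kind_block B cB L n0 c0 t q
      (hblock t List.mem_cons_self)
    obtain ⟨V, _, H, hQ, hPV⟩ := ih (fun t' ht' => hblock t' (List.mem_cons_of_mem _ ht')) S₁ h1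
      (K * (q + 1) ^ nY)
    obtain ⟨m, ι, _, E, hm, hSp, hQ'⟩ := add_qs B p τ hτ hc hA2 hAW hY1 A (q + 1) K hRich Y N
      S₁ S₂ (fun c hcS hcb => (hYF c hcS hcb).imp id (fun h i hi => h i hi S₂ h2)) H hQ
      ((Fintype.card WL) ^ 2 + 2) (by omega)
    obtain ⟨cZ, z1, z2, z3, z4⟩ := sys_stage L n0 c0 E hSp (by omega) hA2 hY1 A q hgA Y cY hcY hYb
      hYf t hYt
    refine ⟨V ⊕ (Fin m × Fin nY), inferInstance, jn H (Sys E A Y), hQ', ?_⟩
    exact pvx_join B L n0 (qs_nonempty hA2 H A _ _ B p τ S₁ hQ) ⟨(⟨0, hm⟩, ⟨0, hY1⟩)⟩ hW H _ q hq _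
      hPV t cZ z1 z2 z3 z4

theorem pend_list {W WL : Type} [Fintype W] [Fintype WL] (B : SimpleGraph W)
    (L : SimpleGraph WL) (n0 : NoSep L) (c0 : 2 ≤ Fintype.card WL)
    (p : ℕ) (hp : 2 ≤ p) (hc : B.Colorable (p + 1))
    (hn : ¬ L.Colorable p) (hLB : Sub L B) (ts : List Kind) (h1 : PL B (Deg1On B) ts Set.univ)
    (h2 : ¬ PL L (IndepOn L) ts Set.univ)
    (hts : (∀ t ∈ ts, t = Kind.I) ∨ ∃ M : W → W → Prop, HitM B L M) (q : ℕ) (hq : 1 ≤ q) :
    ∃ (V' : Type) (_ : Fintype V') (G' : SimpleGraph V'), NB G' q B 1 ∧ PCX G' q B L := by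
  have hLe := noSep_edge L n0 c0
  obtain ⟨g, hg, hg'⟩ := hLB
  have cB : 2 ≤ Fintype.card W := c0.trans (Fintype.card_le_of_injective g hg)
  have hBe : ∃ u v, B.Adj u v := by
    obtain ⟨u, v, huv⟩ := hLe
    exact ⟨_, _, hg' u v huv⟩
  induction q, hq using Nat.le_induction with
  | base => exact ⟨W, inferInstance, B, nb_self B, pcx_base B L hLe⟩
  | succ q hq ih =>
    obtain ⟨VG, _, G, hNB, hP⟩ := ih
    obtain ⟨VA, _, A₀, hRich₀, hgA₀, hcard⟩ := rich_all B L p (Fintype.card W) (q + 1) q hp le_rfl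
      cB n0 c0 hc hn (by omega) (by omega)
    have hRich := rich_comap A₀ (Fintype.equivFin VA).symm (q + 1) (q + 1 + 1 - q) p
      (Fintype.card W) B hRich₀
    have e2 : q + 1 + 1 - q = 2 := by omega
    rw [e2] at hRich
    have hgA := good_comap A₀ (Fintype.equivFin VA).symm q L L hgA₀
    obtain ⟨V, _, H, hQ, c, D, κ, φ, p1, p2, p3, p4, p5, p6⟩ := stage_list B cB hBe L n0 c0 p
      (Fintype.card W) le_rfl hc (by omega : 2 ≤ Fintype.card VA) hcard _ q hq hRich hgA G hNB hP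
      ts hts Set.univ h1 1
    refine ⟨V, inferInstance, H, ?_, c, D, κ, φ, p1, fun a b hab => Nat.lt_succ_of_le (p2 a b hab),
      ?_, p4, p5⟩
    · intro c' hc' hb'
      by_cases h : ∃ a b, H.Adj a b ∧ c' a b = q + 1
      · right
        obtain ⟨a, b, hab, hcab⟩ := h
        refine ⟨Sum.elim (fun _ => a) (fun _ => b), ?_, fun x y => ⟨hab, hcab⟩⟩
        rintro (x | x) (y | y) hxy
        · rw [Subsingleton.elim x y]
        · exact absurd hxy hab.ne
        · exact absurd hxy.symm hab.ne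
        · rw [Subsingleton.elim x y]
      · left
        push Not at h
        rcases hQ (fun _ => 0) c' hc' (fun a b hab => by
          have := hb' a b hab
          have := h a b hab
          omega) with h | ⟨i, hi, -, f, ⟨hf1, hf2⟩, -⟩
        · exact h
        · exact ⟨i, hi, f, Set.injOn_univ.mp hf1, fun u v huv => hf2 u trivial v trivial huv⟩
    · intro j f hf
      rcases lt_trichotomy j q with hj | hj | hj
      · exact p3 j hj f hf
      · subst hj
        exact absurd (p6 Set.univ f ⟨Set.injOn_univ.mpr hf.1, fun u _ v _ huv => hf.2 u v huv⟩) h2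
      · obtain ⟨u, v, huv⟩ := hLe
        have h3 := (hf.2 u v huv).2
        have h4 := p2 _ _ (hf.2 u v huv).1
        omega

end Pool.Agent.H65.RI
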