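import Pool.Agent.H65.RK.Blm
import Pool.Agent.H65.RK.Pnd

set_option autoImplicit false

/-!
Colourings in which all monochromatic copies of `L` meet a small set `M` of edges and a
monochromatic copy of the connected graph `H'` gives the conclusion `Q`.
-/

namespace Pool.Agent.H65.RI

open Finset Classical

def PCM {V WL W' : Type} (G : SimpleGraph V) (q : ℕ) (T : Kind) (L : SimpleGraph WL)
    (H' : SimpleGraph W') (Q : Prop) : Prop :=
  ∃ (c : V → V → ℕ) (M : V → V → Prop), Sm c ∧ (∀ a b, G.Adj a b → c a b < q) ∧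
    (∀ u v, M u v → M v u) ∧ EM T L M ∧ EM T H' M ∧
    (∀ (j : ℕ) (f : WL → V), Mono G L c j f → ∃ u v, L.Adj u v ∧ M (f u) (f v)) ∧
    ∀ (j : ℕ) (F : W' → V), Mono G H' c j F → Q

def PVM {V WL W' : Type} (H : SimpleGraph V) (q : ℕ) (T : Kind) (L : SimpleGraph WL)
    (H' : SimpleGraph W') (Q : Prop) (P : Set WL → Prop) (P' : Set W' → Prop) : Prop :=
  ∃ (c : V → V → ℕ) (M : V → V → Prop), Sm c ∧ (∀ a b, H.Adj a b → c a b ≤ q) ∧
    (∀ u v, M u v → M v u) ∧ EM T L M ∧ EM T H' M ∧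
    (∀ j, j < q → ∀ f : WL → V, Mono H L c j f → ∃ u v, L.Adj u v ∧ M (f u) (f v)) ∧
    (∀ j, j < q → ∀ F : W' → V, Mono H H' c j F → Q) ∧
    (∀ (S : Set WL) (f : WL → V), EmbS H L c q S f →
      (∀ u ∈ S, ∀ v ∈ S, L.Adj u v → ¬ M (f u) (f v)) → P S) ∧
    ∀ (S : Set W') (F : W' → V), EmbS H H' c q S F → P' S

/-- The inner edges of a partition. -/
theorem base_M {W WL W' : Type} [Fintype WL] [Fintype W'] (B : SimpleGraph W)
    (L : SimpleGraph WL) (H' : SimpleGraph W') (T : Kind) (hT : T ≠ Kind.I) (ts : List Kind) :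
    ∀ S : Set W, PL B (Deg1On B) ts S → ∃ M : W → W → Prop, (∀ u v, M u v → M v u) ∧
      (∀ u v, M u v → u ∈ S ∧ v ∈ S) ∧ EM T L M ∧ EM T H' M ∧
      ∀ (X : Set WL) (f : WL → W), Set.InjOn f X → (∀ u ∈ X, f u ∈ S) →
        (∀ u ∈ X, ∀ v ∈ X, L.Adj u v → B.Adj (f u) (f v) ∧ ¬ M (f u) (f v)) →
        PL L (IndepOn L) (ts.map (phK T)) X := by
  have hD : ∀ {X : Type} (H : SimpleGraph X) (S : Set X), Deg1On H S → KOn T H S := by
    intro X H S hS
    cases T with
    | I => exact absurd rfl hT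
    | D => exact hS
    | F => exact forestOn_of_deg1 H S hS
  induction ts with
  | nil =>
    intro S hS
    have hEM : ∀ {X : Type} (H : SimpleGraph X),
        EM T H (fun u v : W => u ∈ S ∧ v ∈ S ∧ B.Adj u v) := by
      intro X H X' f hf hM
      apply hD
      intro u hu v hv v' hv' huv huv'
      have h1 := hM u hu v hv huv
      have h2 := hM u hu v' hv' huv'
      exact hf hv hv' (hS _ h1.1 _ h1.2.1 _ h2.2.1 h1.2.2 h2.2.2)
    refine ⟨fun u v => u ∈ S ∧ v ∈ S ∧ B.Adj u v, fun u v h => ⟨h.2.1, h.1, h.2.2.symm⟩,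
      fun u v h => ⟨h.1, h.2.1⟩, hEM L, hEM H', ?_⟩
    intro X f _ hX hadj u hu v hv huv
    exact (hadj u hu v hv huv).2 ⟨hX u hu, hX v hv, (hadj u hu v hv huv).1⟩
  | cons t ts ih =>
    rintro S ⟨S₁, S₂, rfl, hdis, h1, h2⟩
    obtain ⟨M₁, m1, m2, m3, m4, m5⟩ := ih S₁ h1
    have hnot : ∀ u, u ∈ S₁ → u ∉ S₂ := fun u h h' => (Set.disjoint_left.mp hdis) h h'
    let M : W → W → Prop := fun u v => M₁ u v ∨ (t = T ∧ u ∈ S₂ ∧ v ∈ S₂ ∧ B.Adj u v)
    have hEM : ∀ {X : Type} [Fintype X] (H : SimpleGraph X), EM T H M₁ → EM T H M := by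
      intro X _ H hH X' f hf hM
      refine kOn_union T H X' (fun u => decide (f u ∈ S₁)) ?_ ?_
      · intro u hu v hv huv
        rcases hM u hu v hv huv with h | ⟨-, h3, h4, -⟩
        · simp [(m2 _ _ h).1, (m2 _ _ h).2]
        · have h5 : f u ∉ S₁ := fun h => hnot _ h h3
          have h6 : f v ∉ S₁ := fun h => hnot _ h h4
          simp [h5, h6]
      · rintro (_ | _)
        · by_cases htT : t = T
          · subst htT
            have h : KOn t H {u | u ∈ X' ∧ f u ∉ S₁ ∧ f u ∈ S₂} := by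
              refine kOn_emb t B H S₂ _ f (hf.mono fun _ h => h.1) (fun u hu => hu.2.2) ?_ h2
              rintro u ⟨hu, hu1, -⟩ v ⟨hv, -, -⟩ huv
              rcases hM u hu v hv huv with h | h
              · exact absurd (m2 _ _ h).1 hu1
              · exact h.2.2.2
            refine kOn_union t H _ (fun u => if f u ∈ S₂ then none else some u) ?_ ?_
            · rintro u ⟨hu, hu1⟩ v ⟨hv, hv1⟩ huv
              rcases hM u hu v hv huv with h | h
              · exact absurd (m2 _ _ h).1 (of_decide_eq_false hu1)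
              · simp [h.2.1, h.2.2.1]
            · rintro (_ | a)
              · refine kOn_mono t H _ _ ?_ h
                rintro u ⟨⟨hu, hu1⟩, hu2⟩
                refine ⟨hu, of_decide_eq_false hu1, ?_⟩
                by_contra hcon
                simp [hcon] at hu2
              · apply h97_indep_KOn
                rintro u ⟨⟨hu, hu1⟩, hu2⟩ v ⟨⟨hv, hv1⟩, hv2⟩ huv
                rcases hM u hu v hv huv with h | h
                · exact absurd (m2 _ _ h).1 (of_decide_eq_false hu1)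
                · simp [h.2.1] at hu2
          · apply h97_indep_KOn
            rintro u ⟨hu, hu1⟩ v ⟨hv, hv1⟩ huv
            rcases hM u hu v hv huv with h | h
            · exact absurd (m2 _ _ h).1 (of_decide_eq_false hu1)
            · exact htT h.1
        · apply hH _ f (hf.mono fun _ h => h.1)
          rintro u ⟨hu, hu1⟩ v ⟨hv, hv1⟩ huv
          rcases hM u hu v hv huv with h | h
          · exact h
          · exact absurd h.2.1 (hnot _ (of_decide_eq_true hu1))
    refine ⟨M, ?_, ?_, hEM L m3, hEM H' m4, ?_⟩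
    · rintro u v (h | ⟨h1, h2, h3, h4⟩)
      · exact Or.inl (m1 _ _ h)
      · exact Or.inr ⟨h1, h3, h2, h4.symm⟩
    · rintro u v (h | ⟨h1, h2, h3, h4⟩)
      · exact ⟨Or.inl (m2 _ _ h).1, Or.inl (m2 _ _ h).2⟩
      · exact ⟨Or.inr h2, Or.inr h3⟩
    · intro X f hf hX hadj
      refine ⟨{u | u ∈ X ∧ f u ∈ S₁}, {u | u ∈ X ∧ f u ∈ S₂}, ?_, ?_, ?_, ?_⟩
      · ext u
        constructor
        · intro hu
          rcases hX u hu with h | h
          · exact Or.inl ⟨hu, h⟩
          · exact Or.inr ⟨hu, h⟩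
        · rintro (h | h) <;> exact h.1
      · rw [Set.disjoint_left]
        rintro u ⟨-, h⟩ ⟨-, h'⟩
        exact hnot _ h h'
      · refine m5 _ f (hf.mono fun _ h => h.1) (fun u hu => hu.2) ?_
        rintro u ⟨hu, hu1⟩ v ⟨hv, hv1⟩ huv
        exact ⟨(hadj u hu v hv huv).1, fun h => (hadj u hu v hv huv).2 (Or.inl h)⟩
      · by_cases htT : t = T
        · have : phK T t = Kind.I := by rw [htT]; exact phK_self hT
          rw [this]
          rintro u ⟨hu, hu1⟩ v ⟨hv, hv1⟩ huv
          exact (hadj u hu v hv huv).2 (Or.inr ⟨htT, hu1, hv1, (hadj u hu v hv huv).1⟩)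
        · rw [phK_ne htT]
          exact kOn_emb t B L S₂ _ f (hf.mono fun _ h => h.1) (fun u hu => hu.2)
            (fun u hu v hv huv => (hadj u hu.1 v hv.1 huv).1) h2

end Pool.Agent.H65.RI
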