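import Pool.Agent.H65.RK.Pcm

set_option autoImplicit false

/-!
The private side and the recursion over the sides, with a distinguished set of edges.
-/

namespace Pool.Agent.H65.RI

open Finset Classical

theorem one_side_conn {W V₁ V₂ : Type} (H : SimpleGraph W) (hH : H.Connected)
    (f : W → V₁ ⊕ V₂) (hf : ∀ u v, H.Adj u v → (f u).isLeft = (f v).isLeft) :
    (∃ g : W → V₁, ∀ w, f w = Sum.inl (g w)) ∨ (∃ g : W → V₂, ∀ w, f w = Sum.inr (g w)) := by
  have hc : ∀ u v, (f u).isLeft = (f v).isLeft := h36_const H hH (fun u => (f u).isLeft) hf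
  obtain ⟨w0⟩ := hH.nonempty
  cases h0 : f w0 with
  | inl a =>
    left
    have : ∀ w, ∃ b, f w = Sum.inl b := by
      intro w
      have h1 := hc w w0
      rw [h0] at h1
      cases h : f w with
      | inl b => exact ⟨b, rfl⟩
      | inr b => rw [h] at h1; simp at h1
    choose g hg using this
    exact ⟨g, hg⟩
  | inr a =>
    right
    have : ∀ w, ∃ b, f w = Sum.inr b := by
      intro w
      have h1 := hc w w0
      rw [h0] at h1
      cases h : f w with
      | inl b => rw [h] at h1; simp at h1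
      | inr b => exact ⟨b, rfl⟩
    choose g hg using this
    exact ⟨g, hg⟩

theorem mono_sub_of {V WL W' : Type} (G : SimpleGraph V) (L : SimpleGraph WL)
    (H' : SimpleGraph W') (hs : Sub L H') (c : V → V → ℕ) (j : ℕ) (F : W' → V)
    (h : Mono G H' c j F) : ∃ f : WL → V, Mono G L c j f := by
  obtain ⟨g, hg, hadj⟩ := hs
  exact ⟨fun w => F (g w), h.1.comp hg, fun u v huv => h.2 _ _ (hadj u v huv)⟩

/-- Joining a side. -/
theorem pvm_join {WL W' VH VZ : Type} [Fintype WL] [Fintype W'] (L : SimpleGraph WL)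
    (n0 : NoSep L) (H' : SimpleGraph W') (hH' : H'.Connected) (hs : Sub L H')
    (neH : Nonempty VH) (neZ : Nonempty VZ) (H : SimpleGraph VH)
    (Z : SimpleGraph VZ) (q : ℕ) (T : Kind) (Q : Prop) (P : Set WL → Prop) (P' : Set W' → Prop)
    (hH : PVM H q T L H' Q P P') (t : Kind) (cZ : VZ → VZ → ℕ) (M : VZ → VZ → Prop)
    (hZ : SideM Z cZ M q T t L H') :
    PVM (jn H Z) q T L H' Q
      (fun S => ∃ S₁ S₂ : Set WL, S = S₁ ∪ S₂ ∧ Disjoint S₁ S₂ ∧ P S₁ ∧ KOn (phK T t) L S₂)
      (fun S => ∃ S₁ S₂ : Set W', S = S₁ ∪ S₂ ∧ Disjoint S₁ S₂ ∧ P' S₁ ∧ KOn t H' S₂) := by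
  obtain ⟨cH, M₁, hcH, hHb, s1, s2, s3, s4, s5, s6, s7⟩ := hH
  obtain ⟨hcZ, hZb, hZf, z1, z2, z3, z4, z5⟩ := hZ
  obtain ⟨v0⟩ := neH
  obtain ⟨z0⟩ := neZ
  let c : VH ⊕ VZ → VH ⊕ VZ → ℕ := fun x y => match x, y with
    | Sum.inl a, Sum.inl b => cH a b
    | Sum.inr a, Sum.inr b => cZ a b
    | _, _ => q
  have hl : ∀ x : VH ⊕ VZ, x.isLeft = true → x = Sum.inl (x.elim id (fun _ => v0)) := by
    rintro (x | x) hx
    · rfl
    · simp at hx
  have hr : ∀ x : VH ⊕ VZ, ¬ x.isLeft = true → x = Sum.inr (x.elim (fun _ => z0) id) := by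
    rintro (x | x) hx
    · simp at hx
    · rfl
  refine ⟨c, sumM M₁ M, ?_, ?_, sumM_symm M₁ M s1 z1, em_sum T L M₁ M s2 z2,
    em_sum T H' M₁ M s3 z3, ?_, ?_, ?_, ?_⟩
  · rintro (a | a) (b | b)
    · exact hcH a b
    · rfl
    · rfl
    · exact hcZ a b
  · rintro (a | a) (b | b) hab
    · exact hHb a b hab
    · exact le_rfl
    · exact le_rfl
    · exact hZb a b hab
  · rintro j hj f ⟨hf1, hf2⟩
    rcases one_side L n0 f (by
      intro u v huv
      have := (hf2 u v huv).2
      cases hu : f u <;> cases hv : f v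
      · rfl
      · rw [hu, hv] at this
        have h2 : q = j := this
        omega
      · rw [hu, hv] at this
        have h2 : q = j := this
        omega
      · rfl) with ⟨g, hg⟩ | ⟨g, hg⟩
    · have hgM : Mono H L cH j g := by
        refine ⟨fun a b hab => hf1 (by rw [hg, hg, hab]), fun u v huv => ?_⟩
        have := hf2 u v huv
        rw [hg, hg] at this
        exact this
      obtain ⟨u, v, huv, hM⟩ := s4 j hj g hgM
      refine ⟨u, v, huv, ?_⟩
      rw [hg, hg]
      exact hM
    · exfalso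
      apply hZf j hj g
      refine ⟨fun a b hab => hf1 (by rw [hg, hg, hab]), fun u v huv => ?_⟩
      have := hf2 u v huv
      rw [hg, hg] at this
      exact this
  · rintro j hj F ⟨hf1, hf2⟩
    rcases one_side_conn H' hH' F (by
      intro u v huv
      have := (hf2 u v huv).2
      cases hu : F u <;> cases hv : F v
      · rfl
      · rw [hu, hv] at this
        have h2 : q = j := this
        omega
      · rw [hu, hv] at this
        have h2 : q = j := this
        omega
      · rfl) with ⟨g, hg⟩ | ⟨g, hg⟩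
    · apply s5 j hj g
      refine ⟨fun a b hab => hf1 (by rw [hg, hg, hab]), fun u v huv => ?_⟩
      have := hf2 u v huv
      rw [hg, hg] at this
      exact this
    · exfalso
      obtain ⟨f, hf⟩ := mono_sub_of Z L H' hs cZ j g (by
        refine ⟨fun a b hab => hf1 (by rw [hg, hg, hab]), fun u v huv => ?_⟩
        have := hf2 u v huv
        rw [hg, hg] at this
        exact this)
      exact hZf j hj f hf
  · rintro S f ⟨hf1, hf2⟩ hM
    refine ⟨{x | x ∈ S ∧ (f x).isLeft = true}, {x | x ∈ S ∧ ¬ (f x).isLeft = true}, ?_, ?_, ?_, ?_⟩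
    · ext x
      constructor
      · intro hx
        by_cases h : (f x).isLeft = true
        · exact Or.inl ⟨hx, h⟩
        · exact Or.inr ⟨hx, h⟩
      · rintro (h | h) <;> exact h.1
    · rw [Set.disjoint_left]
      intro x hx hx'
      exact hx'.2 hx.2
    · apply s6 _ (fun x => (f x).elim id (fun _ => v0))
      · constructor
        · intro x hx y hy hxy
          apply hf1 hx.1 hy.1
          rw [hl _ hx.2, hl _ hy.2]
          exact congrArg Sum.inl hxy
        · intro u hu v hv huv
          have := hf2 u hu.1 v hv.1 huv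
          rw [hl _ hu.2, hl _ hv.2] at this
          exact this
      · intro u hu v hv huv hM'
        apply hM u hu.1 v hv.1 huv
        rw [hl _ hu.2, hl _ hv.2]
        exact hM'
    · apply z4 _ (fun x => (f x).elim (fun _ => z0) id)
      · constructor
        · intro x hx y hy hxy
          apply hf1 hx.1 hy.1
          rw [hr _ hx.2, hr _ hy.2]
          exact congrArg Sum.inr hxy
        · intro u hu v hv huv
          have := hf2 u hu.1 v hv.1 huv
          rw [hr _ hu.2, hr _ hv.2] at this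
          exact this
      · intro u hu v hv huv hM'
        apply hM u hu.1 v hv.1 huv
        rw [hr _ hu.2, hr _ hv.2]
        exact hM'
  · rintro S f ⟨hf1, hf2⟩
    refine ⟨{x | x ∈ S ∧ (f x).isLeft = true}, {x | x ∈ S ∧ ¬ (f x).isLeft = true}, ?_, ?_, ?_, ?_⟩
    · ext x
      constructor
      · intro hx
        by_cases h : (f x).isLeft = true
        · exact Or.inl ⟨hx, h⟩
        · exact Or.inr ⟨hx, h⟩
      · rintro (h | h) <;> exact h.1
    · rw [Set.disjoint_left]
      intro x hx hx'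
      exact hx'.2 hx.2
    · apply s7 _ (fun x => (f x).elim id (fun _ => v0))
      constructor
      · intro x hx y hy hxy
        apply hf1 hx.1 hy.1
        rw [hl _ hx.2, hl _ hy.2]
        exact congrArg Sum.inl hxy
      · intro u hu v hv huv
        have := hf2 u hu.1 v hv.1 huv
        rw [hl _ hu.2, hl _ hv.2] at this
        exact this
    · apply z5 _ (fun x => (f x).elim (fun _ => z0) id)
      constructor
      · intro x hx y hy hxy
        apply hf1 hx.1 hy.1
        rw [hr _ hx.2, hr _ hy.2]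
        exact congrArg Sum.inr hxy
      · intro u hu v hv huv
        have := hf2 u hu.1 v hv.1 huv
        rw [hr _ hu.2, hr _ hv.2] at this
        exact this

theorem base_qs_m {W WL W' VG : Type} [Fintype W] [Fintype WL] [Fintype W'] [Fintype VG]
    (B : SimpleGraph W)
    (cB : 1 ≤ Fintype.card W) (L : SimpleGraph WL) (n0 : NoSep L) (c0 : 2 ≤ Fintype.card WL)
    (H' : SimpleGraph W') (hH' : H'.Connected) (hs : Sub L H') (T : Kind) (Q : Prop)
    (p τ : ℕ) {nA : ℕ}
    (hA2 : 2 ≤ nA) (A : SimpleGraph (Fin nA)) (q : ℕ)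
    (hRich : Rich A (q + 1) 2 B p τ) (hgA : Good A q L L) (G : SimpleGraph VG)
    (hNB : NB G q B 1) (hP : PCM G q T L H' Q) (S : Set W) (hS : Deg1On B S) (K : ℕ) :
    ∃ (V : Type) (_ : Fintype V) (H : SimpleGraph V), QS H A (q + 1) K B p τ S ∧
      PVM H q T L H' Q (IndepOn L) (IndepOn H') := by
  obtain ⟨VZ, _, Z, hgZ, hvr⟩ := vr_side L L n0 n0 c0 c0 A q hgA (by simpa using hA2) K
  set N := Fintype.card W * (K ^ Fintype.card VG + 1) with hN
  have hN1 : 1 ≤ N := Nat.mul_pos (by omega) (Nat.succ_pos _)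
  refine ⟨VZ ⊕ (Fin N × VG), inferInstance, ds Z (cps N G), ?_, ?_⟩
  · intro δ c hcS hcb
    by_cases hmono : ∃ i, i < q + 1 ∧ ∃ f : W → VZ ⊕ (Fin N × VG),
        Mono (ds Z (cps N G)) B c i f
    · exact Or.inl hmono
    right
    -- the copy of `A`
    obtain ⟨e, he, heA, heδ⟩ := hvr (fun z => δ (Sum.inl z))
    have hi : ∃ i, i < q + 1 ∧ ∀ j, j < q + 1 → j ≠ i →
        MonoP A p τ (fun a b => c (Sum.inl (e a)) (Sum.inl (e b))) j := by
      rcases hRich (fun a b => c (Sum.inl (e a)) (Sum.inl (e b))) (fun _ _ => hcS _ _)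
        (fun a b hab => hcb _ _ (heA a b hab)) with ⟨i, hi, f, hf1, hf2⟩ | hcard
      · exact absurd ⟨i, hi, fun w => Sum.inl (e (f w)),
          Sum.inl_injective.comp (he.comp hf1), fun u v huv =>
            ⟨heA _ _ (hf2 u v huv).1, (hf2 u v huv).2⟩⟩ hmono
      · by_cases h : ∃ i, i < q + 1 ∧
            ¬ MonoP A p τ (fun a b => c (Sum.inl (e a)) (Sum.inl (e b))) i
        · obtain ⟨i, hi, hin⟩ := h
          refine ⟨i, hi, fun j hj hne => ?_⟩
          by_contra hjn
          have : ({i, j} : Finset ℕ) ⊆ (range (q + 1)).filter (fun j' => ¬ MonoP A p τ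
              (fun a b => c (Sum.inl (e a)) (Sum.inl (e b))) j') := by
            intro x hx
            rcases Finset.mem_insert.mp hx with rfl | hx
            · exact Finset.mem_filter.mpr ⟨Finset.mem_range.mpr hi, hin⟩
            · rw [Finset.mem_singleton.mp hx]
              exact Finset.mem_filter.mpr ⟨Finset.mem_range.mpr hj, hjn⟩
          have h2 := Finset.card_le_card this
          rw [Finset.card_pair (Ne.symm hne)] at h2
          omega
        · push Not at h
          exact ⟨0, by omega, fun j hj _ => h j hj⟩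
    obtain ⟨i, hi, hiM⟩ := hi
    refine ⟨i, hi, ⟨fun a => Sum.inl (e a), Sum.inl_injective.comp he, fun a b hab => heA a b hab,
      heδ, hiM⟩, ?_⟩
    -- copies of `G` of the same type
    obtain ⟨w, -, hw⟩ := Finset.exists_le_card_fiber_of_mul_le_card_of_maps_to
      (s := (univ : Finset (Fin N))) (t := (univ : Finset (VG → Fin K)))
      (f := fun n a => δ (Sum.inr (n, a))) (n := Fintype.card W)
      (fun _ _ => Finset.mem_univ _) ⟨fun a => δ (Sum.inr (⟨0, hN1⟩, a)), Finset.mem_univ _⟩ (by
        rw [Finset.card_univ, Finset.card_univ, Fintype.card_fun, Fintype.card_fin,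
          Fintype.card_fin, hN]
        nlinarith)
    obtain ⟨l, hl1, hl2⟩ := exists_inj_of_card' _ (Fintype.card W) hw
    have hlw : ∀ n a, δ (Sum.inr (l n, a)) = w a := fun n a =>
      congrFun (Finset.mem_filter.mp (hl2 n)).2 a
    -- edges of colour `i`
    have hedge : ∀ n, ∃ a b, G.Adj a b ∧ c (Sum.inr (l n, a)) (Sum.inr (l n, b)) = i := by
      intro n
      apply nb_all_colours B G q hNB (fun a b => c (Sum.inr (l n, a)) (Sum.inr (l n, b)))
        (fun _ _ => hcS _ _) (fun a b hab => Nat.lt_succ_iff.mp (hcb _ _ ⟨rfl, hab⟩)) _ i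
        (Nat.lt_succ_iff.mp hi)
      rintro j hj f ⟨hf1, hf2⟩
      refine hmono ⟨j, Nat.lt_succ_of_le hj, fun u => Sum.inr (l n, f u), ?_, fun u v huv =>
        ⟨⟨rfl, (hf2 u v huv).1⟩, (hf2 u v huv).2⟩⟩
      intro u v huv
      exact hf1 (Prod.mk.inj (Sum.inr_injective huv)).2
    choose a b hab hcab using hedge
    obtain ⟨rep, sd, r1, r2⟩ := match_embed B S hS
    let f : W → VZ ⊕ (Fin N × VG) := fun x =>
      Sum.inr (l (rep x), if sd x then a (rep x) else b (rep x))
    refine ⟨f, ⟨?_, ?_⟩, ?_⟩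
    · intro x hx y hy hxy
      have h1 := Prod.mk.inj (Sum.inr_injective hxy)
      have h2 : rep x = rep y := hl1 h1.1
      apply r1 x hx y hy h2
      have h3 := h1.2
      rw [h2] at h3
      cases hsx : sd x <;> cases hsy : sd y
      · rfl
      · rw [hsx, hsy] at h3
        simp only [if_true, Bool.false_eq_true, if_false] at h3
        exact absurd h3.symm (hab (rep y)).ne
      · rw [hsx, hsy] at h3
        simp only [if_true, Bool.false_eq_true, if_false] at h3
        exact absurd h3 (hab (rep y)).ne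
      · rfl
    · intro x hx y hy hxy
      obtain ⟨h2, h3⟩ := r2 x hx y hy hxy
      show (ds Z (cps N G)).Adj (Sum.inr (l (rep x), if sd x then a (rep x) else b (rep x)))
          (Sum.inr (l (rep y), if sd y then a (rep y) else b (rep y))) ∧
        c (Sum.inr (l (rep x), if sd x then a (rep x) else b (rep x)))
          (Sum.inr (l (rep y), if sd y then a (rep y) else b (rep y))) = i
      rw [h2]
      cases hsx : sd x <;> cases hsy : sd y
      · exact absurd (hsx.trans hsy.symm) h3
      · simp only [if_true, Bool.false_eq_true, if_false]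
        exact ⟨⟨rfl, (hab (rep y)).symm⟩, by rw [hcS]; exact hcab (rep y)⟩
      · simp only [if_true, Bool.false_eq_true, if_false]
        exact ⟨⟨rfl, hab (rep y)⟩, hcab (rep y)⟩
      · exact absurd (hsx.trans hsy.symm) h3
    · intro x _
      refine ⟨fun u => Sum.inr (l (Fintype.equivFin W u),
        if sd x then a (rep x) else b (rep x)), ?_, ?_⟩
      · intro u v huv
        exact (Fintype.equivFin W).injective (hl1 (Prod.mk.inj (Sum.inr_injective huv)).1)
      · intro u
        show δ (Sum.inr (l (Fintype.equivFin W u), if sd x then a (rep x) else b (rep x))) =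
          δ (Sum.inr (l (rep x), if sd x then a (rep x) else b (rep x)))
        rw [hlw, hlw]
  · have nL := noSep_connected L n0 c0
    obtain ⟨cZ, hcZ, hbZ, hZ0, hZ1⟩ := hgZ
    obtain ⟨c, M, hc, hb, h1, h2, h3, h4, h5⟩ := hP
    let c' : VZ ⊕ (Fin N × VG) → VZ ⊕ (Fin N × VG) → ℕ := fun x y => match x, y with
      | Sum.inl a, Sum.inl b => cZ a b
      | Sum.inr a, Sum.inr b => c a.2 b.2
      | _, _ => 0
    have hb' : ∀ a b, (ds Z (cps N G)).Adj a b → c' a b < q := by
      rintro (a | a) (b | b) hab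
      · exact hbZ a b hab
      · exact hab.elim
      · exact hab.elim
      · exact hb _ _ hab.2
    have hZn : ∀ j, j < q → ∀ f : WL → VZ, ¬ Mono Z L cZ j f := by
      intro j hj f hf
      by_cases hj0 : j = 0
      · subst hj0
        exact hZ0 f hf
      · exact hZ1 j (by omega) hj f hf
    refine ⟨c', sumM (fun _ _ => False) (cpsM M), ?_, fun a b hab => (hb' a b hab).le,
      sumM_symm _ _ (fun _ _ h => h) (cpsM_symm M h1), em_sum T L _ _ (em_false T L)
        (em_cps T L M h2), em_sum T H' _ _ (em_false T H') (em_cps T H' M h3), ?_, ?_, ?_, ?_⟩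
    · rintro (a | a) (b | b)
      · exact hcZ a b
      · rfl
      · rfl
      · exact hc _ _
    · rintro j hj f ⟨hf1, hf2⟩
      rcases one_side L n0 f (by
        intro u v huv
        have := (hf2 u v huv).1
        cases hu : f u <;> cases hv : f v
        · rfl
        · rw [hu, hv] at this
          exact this.elim
        · rw [hu, hv] at this
          exact this.elim
        · rfl) with ⟨g, hg⟩ | ⟨g, hg⟩
      · exfalso
        apply hZn j hj g
        refine ⟨fun a b hab => hf1 (by rw [hg, hg, hab]), fun u v huv => ?_⟩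
        have := hf2 u v huv
        rw [hg, hg] at this
        exact this
      · have hg2 : ∀ u v, L.Adj u v → (cps N G).Adj (g u) (g v) ∧ c (g u).2 (g v).2 = j := by
          intro u v huv
          have := hf2 u v huv
          rw [hg, hg] at this
          exact this
        have hfst : ∀ u v, (g u).1 = (g v).1 :=
          h36_const L nL (fun u => (g u).1) (fun u v huv => (hg2 u v huv).1.1)
        obtain ⟨u, v, huv, hM⟩ := h4 j (fun u => (g u).2) ⟨fun u v huv => hf1 (by
          rw [hg, hg]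
          exact congrArg Sum.inr (Prod.ext (hfst u v) huv)), fun u v huv =>
            ⟨(hg2 u v huv).1.2, (hg2 u v huv).2⟩⟩
        refine ⟨u, v, huv, ?_⟩
        rw [hg, hg]
        exact ⟨hfst u v, hM⟩
    · rintro j hj F ⟨hf1, hf2⟩
      rcases one_side_conn H' hH' F (by
        intro u v huv
        have := (hf2 u v huv).1
        cases hu : F u <;> cases hv : F v
        · rfl
        · rw [hu, hv] at this
          exact this.elim
        · rw [hu, hv] at this
          exact this.elim
        · rfl) with ⟨g, hg⟩ | ⟨g, hg⟩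
      · exfalso
        obtain ⟨f, hf⟩ := mono_sub_of Z L H' hs cZ j g (by
          refine ⟨fun a b hab => hf1 (by rw [hg, hg, hab]), fun u v huv => ?_⟩
          have := hf2 u v huv
          rw [hg, hg] at this
          exact this)
        exact hZn j hj f hf
      · have hg2 : ∀ u v, H'.Adj u v → (cps N G).Adj (g u) (g v) ∧ c (g u).2 (g v).2 = j := by
          intro u v huv
          have := hf2 u v huv
          rw [hg, hg] at this
          exact this
        have hfst : ∀ u v, (g u).1 = (g v).1 :=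
          h36_const H' hH' (fun u => (g u).1) (fun u v huv => (hg2 u v huv).1.1)
        exact h5 j (fun u => (g u).2) ⟨fun u v huv => hf1 (by
          rw [hg, hg]
          exact congrArg Sum.inr (Prod.ext (hfst u v) huv)), fun u v huv =>
            ⟨(hg2 u v huv).1.2, (hg2 u v huv).2⟩⟩
    · rintro S' f ⟨-, hf⟩ - u hu v hv huv
      have e1 := (hf u hu v hv huv).1
      have e2 := (hf u hu v hv huv).2
      have e3 := hb' _ _ e1
      omega
    · rintro S' f ⟨-, hf⟩ u hu v hv huv
      have e1 := (hf u hu v hv huv).1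
      have e2 := (hf u hu v hv huv).2
      have e3 := hb' _ _ e1
      omega

/-- Recolouring the edges of `M`. -/
theorem pcm_recolour {V WL W' : Type} (G : SimpleGraph V) (q : ℕ) (T : Kind)
    (L : SimpleGraph WL) (H' : SimpleGraph W') (Q : Prop) (h : PCM G q T L H' Q) :
    ∃ c : V → V → ℕ, Sm c ∧ (∀ a b, G.Adj a b → c a b ≤ q) ∧
      (∀ j, j < q → ∀ f : WL → V, ¬ Mono G L c j f) ∧
      EM T L (fun a b => G.Adj a b ∧ c a b = q) ∧ EM T H' (fun a b => G.Adj a b ∧ c a b = q) := by
  obtain ⟨c, M, hc, hb, h1, h2, h3, h4, -⟩ := h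
  let c' : V → V → ℕ := fun x y => if M x y then q else c x y
  have hM : ∀ a b, G.Adj a b ∧ c' a b = q → M a b := by
    rintro a b ⟨hab, hcab⟩
    by_contra hn
    simp only [c'] at hcab
    rw [if_neg hn] at hcab
    have := hb a b hab
    omega
  refine ⟨c', ?_, ?_, ?_, em_sub T L M _ hM h2, em_sub T H' M _ hM h3⟩
  · intro x y
    simp only [c']
    by_cases h : M x y
    · rw [if_pos h, if_pos (h1 _ _ h)]
    · rw [if_neg h, if_neg (fun h' => h (h1 _ _ h')), hc]
  · intro a b hab
    simp only [c']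
    split_ifs
    · exact le_rfl
    · exact (hb a b hab).le
  · intro j hj f hf
    have hnM : ∀ u v, L.Adj u v → ¬ M (f u) (f v) := by
      intro u v huv hMuv
      have := (hf.2 u v huv).2
      simp only [c'] at this
      rw [if_pos hMuv] at this
      omega
    obtain ⟨u, v, huv, hMuv⟩ := h4 j f ⟨hf.1, fun u v huv => ⟨(hf.2 u v huv).1, by
      have := (hf.2 u v huv).2
      simp only [c'] at this
      rwa [if_neg (hnM u v huv)] at this⟩⟩
    exact hnM u v huv hMuv

theorem stage_m {W WL W' VG : Type} [Fintype W] [Fintype WL] [Fintype W'] [Fintype VG]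
    (B : SimpleGraph W)
    (cB : 2 ≤ Fintype.card W) (hBe : ∃ u v, B.Adj u v)
    (L : SimpleGraph WL)
    (n0 : NoSep L) (c0 : 2 ≤ Fintype.card WL) (H' : SimpleGraph W') (hH' : H'.Connected)
    (hs : Sub L H') (T : Kind) (hT : T ≠ Kind.I) (Q : Prop) (p τ : ℕ)
    (hτ : Fintype.card W ≤ τ) (hc : B.Colorable (p + 1)) {nA : ℕ} (hA2 : 2 ≤ nA)
    (hAW : Fintype.card W ≤ nA) (A : SimpleGraph (Fin nA)) (q : ℕ)
    (hRich : Rich A (q + 1) 2 B p τ) (hgA : Good A q L L) (G : SimpleGraph VG)
    (hNB : NB G q B 1) (hP : PCM G q T L H' Q) (ts : List Kind)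
    (hts : ∀ t ∈ ts, t = Kind.I ∨ t = T ∨ t = Kind.F) : ∀ (S : Set W),
    PL B (Deg1On B) ts S → ∀ K : ℕ, ∃ (V : Type) (_ : Fintype V) (H : SimpleGraph V),
      QS H A (q + 1) K B p τ S ∧
        PVM H q T L H' Q (PL L (IndepOn L) (ts.map (phK T))) (PL H' (IndepOn H') ts) := by
  have hW : Nonempty W := Fintype.card_pos_iff.mp (by omega)
  -- the recoloured graph
  have hn2 : 2 ≤ Fintype.card VG := by
    obtain ⟨a, b, hab⟩ := nb_edge G q 1 B hBe le_rfl hNB
    exact Fintype.one_lt_card_iff.mpr ⟨a, b, hab.ne⟩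
  obtain ⟨cR, r1, r2, r3, r4, r5⟩ := pcm_recolour G q T L H' Q hP
  set σ := (Fintype.equivFin VG).symm with hσ
  have rNB := nb_comap G σ q 1 B hNB
  induction ts with
  | nil =>
    intro S hS K
    exact base_qs_m B (by omega) L n0 c0 H' hH' hs T Q p τ hA2 A q hRich hgA G hNB hP S hS K
  | cons t ts ih =>
    rintro S ⟨S₁, S₂, rfl, -, h1, h2⟩ K
    obtain ⟨nY, Y, cY, M, N, hY1, hYS, hYF⟩ := block_m B cB L n0 c0 H' T t
      (hts t List.mem_cons_self) hT q (G.comap σ) (fun a b => cR (σ a) (σ b)) hn2 rNB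
      (fun a b => r1 _ _) (fun a b hab => r2 _ _ hab)
      (fun j hj f hf => r3 j hj (fun w => σ (f w)) ⟨σ.injective.comp hf.1, fun u v huv =>
        hf.2 u v huv⟩)
      (em_comap T L (fun a b => G.Adj a b ∧ cR a b = q) σ σ.injective r4)
      (em_comap T H' (fun a b => G.Adj a b ∧ cR a b = q) σ σ.injective r5)
    obtain ⟨V, _, H, hQ, hPV⟩ := ih (fun t' ht' => hts t' (List.mem_cons_of_mem _ ht')) S₁ h1
      (K * (q + 1) ^ nY)
    obtain ⟨m, ι, _, E, hm, hSp, hQ'⟩ := add_qs B p τ hτ hc hA2 hAW hY1 A (q + 1) K hRich Y N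
      S₁ S₂ (fun c hcS hcb => (hYF c hcS hcb).imp id (fun h i hi => h i hi S₂ h2)) H hQ
      ((Fintype.card WL) ^ 2 + 2) (by omega)
    obtain ⟨cZ, hZ⟩ := sys_side_m L n0 c0 H' T t E hSp (by omega) hA2 hY1 A q hgA Y cY M hYS
    refine ⟨V ⊕ (Fin m × Fin nY), inferInstance, jn H (Sys E A Y), hQ', ?_⟩
    exact pvm_join L n0 H' hH' hs (qs_nonempty hA2 H A _ _ B p τ S₁ hQ) ⟨(⟨0, hm⟩, ⟨0, hY1⟩)⟩ H _ q
      T Q _ _ hPV t cZ _ hZ

theorem pend_m {W WL W' : Type} [Fintype W] [Fintype WL] [Fintype W'] (B : SimpleGraph W)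
    (L : SimpleGraph WL) (n0 : NoSep L) (c0 : 2 ≤ Fintype.card WL)
    (H' : SimpleGraph W') (hH' : H'.Connected) (hs : Sub L H') (T : Kind) (hT : T ≠ Kind.I)
    (p : ℕ) (hp : 2 ≤ p) (hc : B.Colorable (p + 1))
    (hn : ¬ L.Colorable p) (hLB : Sub L B) (ts : List Kind) (h1 : PL B (Deg1On B) ts Set.univ)
    (h2 : ¬ PL L (IndepOn L) (ts.map (phK T)) Set.univ)
    (hts : ∀ t ∈ ts, t = Kind.I ∨ t = T ∨ t = Kind.F) (q : ℕ) (hq : 1 ≤ q) :
    ∃ (V' : Type) (_ : Fintype V') (G' : SimpleGraph V'), NB G' q B 1 ∧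
      PCM G' q T L H' (Sub H' B ∨ PL H' (IndepOn H') ts Set.univ) := by
  have hLe := noSep_edge L n0 c0
  obtain ⟨g, hg, hg'⟩ := hLB
  have cB : 2 ≤ Fintype.card W := c0.trans (Fintype.card_le_of_injective g hg)
  have hBe : ∃ u v, B.Adj u v := by
    obtain ⟨u, v, huv⟩ := hLe
    exact ⟨_, _, hg' u v huv⟩
  induction q, hq using Nat.le_induction with
  | base =>
    refine ⟨W, inferInstance, B, nb_self B, ?_⟩
    obtain ⟨M, m1, m2, m3, m4, m5⟩ := base_M B L H' T hT ts Set.univ h1
    refine ⟨fun _ _ => 0, M, fun _ _ => rfl, fun _ _ _ => Nat.zero_lt_one, m1, m3, m4, ?_, ?_⟩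
    · intro j f hf
      by_contra hcon
      push Not at hcon
      exact h2 (m5 Set.univ f (Set.injOn_univ.mpr hf.1) (fun _ _ => trivial)
        (fun u _ v _ huv => ⟨(hf.2 u v huv).1, hcon u v huv⟩))
    · intro j F hF
      exact Or.inl ⟨F, hF.1, fun u v huv => (hF.2 u v huv).1⟩
  | succ q hq ih =>
    obtain ⟨VG, _, G, hNB, hP⟩ := ih
    obtain ⟨VA, _, A₀, hRich₀, hgA₀, hcard⟩ := rich_all B L p (Fintype.card W) (q + 1) q hp le_rfl
      cB n0 c0 hc hn (by omega) (by omega)
    have hRich := rich_comap A₀ (Fintype.equivFin VA).symm (q + 1) (q + 1 + 1 - q) p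
      (Fintype.card W) B hRich₀
    have e2 : q + 1 + 1 - q = 2 := by omega
    rw [e2] at hRich
    have hgA := good_comap A₀ (Fintype.equivFin VA).symm q L L hgA₀
    obtain ⟨V, _, H, hQ, c, M, p1, p2, p3, p4, p5, p6, p7, p8, p9⟩ := stage_m B cB hBe L n0 c0
      H' hH' hs T hT (Sub H' B ∨ PL H' (IndepOn H') ts Set.univ) p
      (Fintype.card W) le_rfl hc (by omega : 2 ≤ Fintype.card VA) hcard _ q hRich hgA G hNB hP
      ts hts Set.univ h1 1
    refine ⟨V, inferInstance, H, ?_, c, M, p1, fun a b hab => Nat.lt_succ_of_le (p2 a b hab),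
      p3, p4, p5, ?_, ?_⟩
    · intro c' hc' hb'
      by_cases h : ∃ a b, H.Adj a b ∧ c' a b = q + 1
      · right
        obtain ⟨a, b, hab, hcab⟩ := h
        refine ⟨Sum.elim (fun _ => a) (fun _ => b), ?_, fun x y => ⟨hab, hcab⟩⟩
        rintro (x | x) (y | y) hxy
        · rw [Subsingleton.elim x y]
        · exact absurd hxy hab.ne
        · exact absurd hxy.symm hab.ne
        · rw [Subsingleton.elim x y]
      · left
        push Not at h
        rcases hQ (fun _ => 0) c' hc' (fun a b hab => by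
          have := hb' a b hab
          have := h a b hab
          omega) with h | ⟨i, hi, -, f, ⟨hf1, hf2⟩, -⟩
        · exact h
        · exact ⟨i, hi, f, Set.injOn_univ.mp hf1, fun u v huv => hf2 u trivial v trivial huv⟩
    · intro j f hf
      rcases lt_trichotomy j q with hj | hj | hj
      · exact p6 j hj f hf
      · subst hj
        by_contra hcon
        push Not at hcon
        exact h2 (p8 Set.univ f ⟨Set.injOn_univ.mpr hf.1, fun u _ v _ huv => hf.2 u v huv⟩
          (fun u _ v _ huv => hcon u v huv))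
      · obtain ⟨u, v, huv⟩ := hLe
        have h3 := (hf.2 u v huv).2
        have h4 := p2 _ _ (hf.2 u v huv).1
        omega
    · intro j F hF
      rcases lt_trichotomy j q with hj | hj | hj
      · exact p7 j hj F hF
      · subst hj
        exact Or.inr (p9 Set.univ F ⟨Set.injOn_univ.mpr hF.1, fun u _ v _ huv => hF.2 u v huv⟩)
      · obtain ⟨f, hf⟩ := mono_sub_of H L H' hs c j F hF
        obtain ⟨u, v, huv⟩ := hLe
        have h3 := (hf.2 u v huv).2
        have h4 := p2 _ _ (hf.2 u v huv).1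
        omega

end Pool.Agent.H65.RI
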