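import Pool.Agent.H65.RK.Defs

set_option autoImplicit false

/-!
Module RAM: the finite multicolour Ramsey theorem for cliques.
-/

namespace Pool.Agent.H65.RI

open Finset Classical

theorem h28_seq (R : ℕ) (n : ℕ) : ∃ N : ℕ, ∀ (α : Type) (κ : α → α → Fin R) (S : Finset α),
    N ≤ S.card → ∃ (v : Fin n → α) (col : Fin n → Fin R), Function.Injective v ∧
      (∀ i, v i ∈ S) ∧ ∀ i j, i < j → κ (v i) (v j) = col i := by
  induction n with
  | zero =>
    exact ⟨0, fun α κ S _ => ⟨Fin.elim0, Fin.elim0, fun a => a.elim0, fun a => a.elim0,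
      fun a => a.elim0⟩⟩
  | succ n ih =>
    obtain ⟨N, hN⟩ := ih
    refine ⟨R * N + 1, fun α κ S hS => ?_⟩
    have hne : S.Nonempty := by rw [← Finset.card_pos]; omega
    obtain ⟨x, hx⟩ := hne
    have hR : 0 < R := Fin.pos (κ x x)
    have hc : (S.erase x).card = S.card - 1 := Finset.card_erase_of_mem hx
    obtain ⟨c, -, hcc⟩ := Finset.exists_le_card_fiber_of_mul_le_card_of_maps_to
      (s := S.erase x) (t := (Finset.univ : Finset (Fin R))) (f := fun y => κ x y) (n := N)
      (fun a _ => Finset.mem_univ _) ⟨⟨0, hR⟩, Finset.mem_univ _⟩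
      (by rw [Finset.card_univ, Fintype.card_fin, hc]; omega)
    obtain ⟨v, col, hv, hvS, hcol⟩ := hN α κ _ hcc
    have hmem : ∀ i, v i ∈ S ∧ v i ≠ x ∧ κ x (v i) = c := by
      intro i
      have := hvS i
      rw [Finset.mem_filter, Finset.mem_erase] at this
      exact ⟨this.1.2, this.1.1, this.2⟩
    refine ⟨Fin.cons x v, Fin.cons c col, ?_, ?_, ?_⟩
    · rw [Fin.cons_injective_iff]
      exact ⟨fun ⟨i, hi⟩ => (hmem i).2.1 hi, hv⟩
    · intro i
      refine Fin.cases ?_ (fun i => ?_) i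
      · simpa using hx
      · simpa using (hmem i).1
    · intro i j hij
      refine Fin.cases (motive := fun i => i < j → κ ((Fin.cons x v : Fin (n + 1) → α) i)
        ((Fin.cons x v : Fin (n + 1) → α) j) = (Fin.cons c col : Fin (n + 1) → Fin R) i)
        ?_ (fun i => ?_) i hij
      · intro h0
        obtain ⟨j', rfl⟩ := Fin.exists_succ_eq.2 h0.ne'
        simpa using (hmem j').2.2
      · intro h0
        have hj0 : j ≠ 0 := (lt_of_le_of_lt (Fin.zero_le _) h0).ne'
        obtain ⟨j', rfl⟩ := Fin.exists_succ_eq.2 hj0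
        simpa using hcol i j' (by simpa using h0)

theorem ramsey_clique (p R : ℕ) : ∃ r : ℕ, KArr (⊤ : SimpleGraph (Fin r)) p R := by
  rcases Nat.eq_zero_or_pos R with rfl | hR
  · exact ⟨1, fun κ _ => (κ 0 0).elim0⟩
  obtain ⟨N, hN⟩ := h28_seq R (R * p)
  refine ⟨N, fun κ hκ => ?_⟩
  obtain ⟨v, col, hv, -, hcol⟩ := hN (Fin N) κ Finset.univ (by simp)
  obtain ⟨l, -, hl⟩ := Finset.exists_le_card_fiber_of_mul_le_card_of_maps_to
    (s := (Finset.univ : Finset (Fin (R * p)))) (t := (Finset.univ : Finset (Fin R))) (f := col)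
    (n := p) (fun a _ => Finset.mem_univ _) ⟨⟨0, hR⟩, Finset.mem_univ _⟩
    (by rw [Finset.card_univ, Fintype.card_fin, Finset.card_univ, Fintype.card_fin])
  let s := Finset.orderEmbOfCardLe _ hl
  have hs : ∀ a, col (s a) = l := by
    intro a
    have := Finset.orderEmbOfCardLe_mem _ hl a
    exact (Finset.mem_filter.1 this).2
  refine ⟨l, fun a => v (s a), fun a b hab => ?_⟩
  rcases lt_or_gt_of_ne hab with h | h
  · refine ⟨?_, ?_⟩
    · rw [SimpleGraph.top_adj]
      exact fun h' => hab (s.injective (hv h'))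
    · rw [hcol _ _ (s.strictMono h), hs]
  · refine ⟨?_, ?_⟩
    · rw [SimpleGraph.top_adj]
      exact fun h' => hab (s.injective (hv h'))
    · rw [hκ, hcol _ _ (s.strictMono h), hs]

end Pool.Agent.H65.RI
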