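import Pool.Agent.H65.RK.Ram
import Pool.Agent.H65.RK.PStep

set_option autoImplicit false

/-!
Module SRC: locally `p`-colourable graphs which arrow `K_p` (iterated partite construction).
-/

namespace Pool.Agent.H65.RI

open Finset Classical

/-- disjoint copies of `K_p` over the maps from `Fin p` to the vertices of `C` -/
def h28_P0 {VC : Type} (C : SimpleGraph VC) (p : ℕ) : SimpleGraph ((Fin p → VC) × Fin p) where
  Adj u v := u.1 = v.1 ∧ u.2 ≠ v.2 ∧ C.Adj (u.1 u.2) (v.1 v.2)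
  symm := ⟨fun _ _ h => ⟨h.1.symm, h.2.1.symm, h.2.2.symm⟩⟩
  loopless := ⟨fun _ h => h.2.1 rfl⟩

theorem h28_iter {VC V₀ : Type} [Fintype V₀] (C : SimpleGraph VC) (n p R : ℕ) (hp : 2 ≤ p)
    (hR : 1 ≤ R) (hC : LocCol C n p) (P₀ : SimpleGraph V₀) (π₀ : V₀ → VC)
    (hπ₀ : ∀ u v, P₀.Adj u v → C.Adj (π₀ u) (π₀ v)) (hP₀ : LocCol P₀ (n + 1) p)
    (L : List (VC × VC)) :
    ∃ (V : Type) (_ : Fintype V) (P : SimpleGraph V) (π : V → VC),
      (∀ u v, P.Adj u v → C.Adj (π u) (π v)) ∧ LocCol P (n + 1) p ∧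
      ∀ κ : V → V → Fin R, ∃ ψ : V₀ → V, (∀ u v, P₀.Adj u v → P.Adj (ψ u) (ψ v)) ∧
        (∀ u, π (ψ u) = π₀ u) ∧
        ∀ e ∈ L, ∃ l, ∀ u v, P₀.Adj u v → π₀ u = e.1 → π₀ v = e.2 → κ (ψ u) (ψ v) = l := by
  induction L with
  | nil =>
    exact ⟨V₀, inferInstance, P₀, π₀, hπ₀, hP₀, fun κ => ⟨id, fun u v h => h, fun u => rfl,
      fun e he => absurd he (List.not_mem_nil)⟩⟩
  | cons e L ih =>
    obtain ⟨V, _, P, π, hπ, hP, hψ⟩ := ih
    by_cases hxy : C.Adj e.1 e.2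
    · obtain ⟨V', i', P', π', hπ', hP', hφ⟩ := pstep C n p R hp hR hC e.1 e.2 hxy P π hπ hP
      refine ⟨V', i', P', π', hπ', hP', fun κ => ?_⟩
      obtain ⟨φ, hφ1, hφ2, l, hl⟩ := hφ κ
      obtain ⟨ψ, hψ1, hψ2, hψ3⟩ := hψ (fun u v => κ (φ u) (φ v))
      refine ⟨fun u => φ (ψ u), fun u v h => hφ1 _ _ (hψ1 _ _ h), fun u => ?_, ?_⟩
      · rw [hφ2, hψ2]
      · intro e' he'
        rcases List.mem_cons.1 he' with rfl | he'
        · refine ⟨l, fun u v h hu hv => hl _ _ (hψ1 _ _ h) ?_ ?_⟩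
          · rw [hψ2, hu]
          · rw [hψ2, hv]
        · exact hψ3 e' he'
    · refine ⟨V, inferInstance, P, π, hπ, hP, fun κ => ?_⟩
      obtain ⟨ψ, hψ1, hψ2, hψ3⟩ := hψ κ
      refine ⟨ψ, hψ1, hψ2, ?_⟩
      intro e' he'
      rcases List.mem_cons.1 he' with rfl | he'
      · refine ⟨⟨0, hR⟩, fun u v h hu hv => ?_⟩
        exact absurd (by rw [← hu, ← hv]; exact hπ₀ _ _ h) hxy
      · exact hψ3 e' he'

theorem h28_transport {V : Type} [Fintype V] (P : SimpleGraph V) (p R n : ℕ) (h1 : KArr P p R)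
    (h2 : LocCol P n p) : ∃ (g : ℕ) (Γ : SimpleGraph (Fin g)), KArr Γ p R ∧ LocCol Γ n p := by
  let e : V ≃ Fin (Fintype.card V) := Fintype.equivFin V
  refine ⟨Fintype.card V, P.comap e.symm, ?_, ?_⟩
  · intro κ hκ
    obtain ⟨l, v, hv⟩ := h1 (fun a b => κ (e a) (e b)) (fun a b => hκ _ _)
    refine ⟨l, fun a => e (v a), fun a b hab => ?_⟩
    obtain ⟨h3, h4⟩ := hv a b hab
    refine ⟨?_, h4⟩
    rw [SimpleGraph.comap_adj]
    simpa using h3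
  · intro S hS
    obtain ⟨χ, hχ⟩ := h2 (S.map e.symm.toEmbedding) (by rwa [Finset.card_map])
    refine ⟨fun a => χ (e.symm a), fun u hu v hv huv => hχ _ ?_ _ ?_ ?_⟩
    · exact Finset.mem_map_of_mem _ hu
    · exact Finset.mem_map_of_mem _ hv
    · rwa [SimpleGraph.comap_adj] at huv

theorem src (p R n : ℕ) (hp : 2 ≤ p) (hR : 1 ≤ R) :
    ∃ (g : ℕ) (Γ : SimpleGraph (Fin g)), KArr Γ p R ∧ LocCol Γ n p := by
  induction n with
  | zero =>
    obtain ⟨r, hr⟩ := ramsey_clique p R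
    refine ⟨r, ⊤, hr, fun S hS => ⟨fun _ => ⟨0, by omega⟩, fun u hu => ?_⟩⟩
    rw [Nat.le_zero, Finset.card_eq_zero] at hS
    rw [hS] at hu
    exact absurd hu (Finset.notMem_empty _)
  | succ n ih =>
    obtain ⟨g, C, hK, hC⟩ := ih
    obtain ⟨V, _, P, π, hπ, hP, hψ⟩ := h28_iter C n p R hp hR hC (h28_P0 C p)
      (fun u => u.1 u.2) (fun u v h => h.2.2)
      (fun S _ => ⟨fun u => u.2, fun u _ v _ h => h.2.1⟩)
      (Finset.univ : Finset (Fin g × Fin g)).toList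
    refine h28_transport P p R (n + 1) ?_ hP
    intro κ hκ
    obtain ⟨ψ, hψ1, hψ2, hψ3⟩ := hψ κ
    have hl : ∀ e : Fin g × Fin g, ∃ l, ∀ u v, (h28_P0 C p).Adj u v → u.1 u.2 = e.1 →
        v.1 v.2 = e.2 → κ (ψ u) (ψ v) = l := fun e => hψ3 e (by simp)
    choose l hl using hl
    let Q : Fin g → Fin g → Prop := fun x y =>
      ∃ u v, (h28_P0 C p).Adj u v ∧ u.1 u.2 = x ∧ v.1 v.2 = y
    have hQ : ∀ x y, Q x y → Q y x := fun x y ⟨u, v, h, hu, hv⟩ => ⟨v, u, h.symm, hv, hu⟩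
    obtain ⟨l₀, s, hs⟩ := hK (fun x y => if Q x y then l (x, y) else ⟨0, hR⟩) (by
      intro x y
      by_cases h : Q x y
      · rw [if_pos h, if_pos (hQ _ _ h)]
        obtain ⟨u, v, h, hu, hv⟩ := h
        rw [← hl (x, y) u v h hu hv, ← hl (y, x) v u h.symm hv hu, hκ]
      · rw [if_neg h, if_neg (fun h' => h (hQ _ _ h'))])
    refine ⟨l₀, fun a => ψ (s, a), fun a b hab => ?_⟩
    obtain ⟨h1, h2⟩ := hs a b hab
    have hadj : (h28_P0 C p).Adj (s, a) (s, b) := ⟨rfl, hab, h1⟩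
    refine ⟨hψ1 _ _ hadj, ?_⟩
    have hq : Q (s a) (s b) := ⟨(s, a), (s, b), hadj, rfl, rfl⟩
    rw [if_pos hq] at h2
    rw [hl (s a, s b) (s, a) (s, b) hadj rfl rfl, h2]

end Pool.Agent.H65.RI
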